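import Pool.Agent.H.MP_ebc13b_lc.h61b.L2.Asm

/-!
# Level 2: rows without special ends (arcs)
-/

namespace Pool.Agent.H.MP_ebc13b_lc.h61b

open Finset

variable {S : Sys}

/-- the left hand side of a row is determined by the values on the existing blocks -/
private theorem arc_sum (h : S.Ok) {v : ℤ → ℕ} {g : ℤ → ℝ}
    (hg : ∀ x, S.ex x → (v x : ℝ) = g x) :
    ∑ x ∈ Icc (-S.K) S.K, (v x : ℝ) * S.z x = ∑ x ∈ Icc (-S.K) S.K, g x * S.z x := by
  refine Finset.sum_congr rfl fun x _ => ?_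
  by_cases hx : S.ex x
  · rw [hg x hx]
  · rw [h.zex x hx, mul_zero, mul_zero]

/-- the number of hits in an interval as a sum of indicators -/
private theorem arc_N (a b : ℤ) :
    ∑ p ∈ S.P, (if a ≤ S.t p ∧ S.t p < b then (1 : ℤ) else 0) = S.N a b := by
  unfold Sys.N
  rw [Finset.card_filter]
  push_cast
  rfl

/-- `v = c + 1` on the existing blocks of `[a, b)` and `v = c` on the other existing blocks:
`Hs v = c * |P| + N a b ≤ c * |P| + m a b + 1 - 2 * δ` and
`c * |P| + m a b = ∑ v x * z x ≤ r + ε` (`sum_ind`, `tot`). -/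
theorem arc_add (h : S.Ok) {v : ℤ → ℕ} {r : ℤ} (hO : S.Own v r) {a b : ℤ} (hab : a ≤ b) {c : ℕ}
    (hv : ∀ x, S.ex x → v x = if a ≤ x ∧ x < b then c + 1 else c) : S.Hs v ≤ r := by
  have h1 : ∑ x ∈ Icc (-S.K) S.K, (v x : ℝ) * S.z x = c * S.P.card + S.m a b := by
    rw [arc_sum h (g := fun x => (c : ℝ) + if a ≤ x ∧ x < b then 1 else 0) (fun x hx => by
      rw [hv x hx]
      split_ifs <;> push_cast <;> ring)]
    rw [← h.tot, Finset.mul_sum, ← sum_ind h, ← Finset.sum_add_distrib]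
    refine Finset.sum_congr rfl fun x _ => ?_
    split_ifs <;> ring
  have h2 : S.Hs v = c * S.P.card + S.N a b := by
    unfold Sys.Hs
    rw [← arc_N]
    have h3 : ∀ p ∈ S.P, ((v (S.t p) : ℕ) : ℤ) =
        (c : ℤ) + if a ≤ S.t p ∧ S.t p < b then 1 else 0 := by
      intro p hp
      rw [hv _ (t_range h hp).2.2]
      split_ifs <;> push_cast <;> ring
    rw [Finset.sum_congr rfl h3, Finset.sum_add_distrib, Finset.sum_const, nsmul_eq_mul]
    ring
  have h3 := h.cnt1 a b hab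
  have h4 : ∑ x ∈ Icc (-S.K) S.K, (v x : ℝ) * S.z x ≤ r + S.ε := hO
  have h5 := h.ε0
  have h6 := h.δε
  have h7 := h.δ0
  have h8 : ((S.Hs v : ℤ) : ℝ) < ((r + 1 : ℤ) : ℝ) := by
    rw [h2]
    push_cast
    linarith
  have h9 : S.Hs v < r + 1 := by exact_mod_cast h8
  omega

/-- `v = c` on the existing blocks of `[a, b)` and `v = c + 1` on the other existing blocks
(`cnt2` instead of `cnt1`). -/
theorem arc_sub (h : S.Ok) {v : ℤ → ℕ} {r : ℤ} (hO : S.Own v r) {a b : ℤ} (hab : a ≤ b) {c : ℕ}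
    (hv : ∀ x, S.ex x → v x = if a ≤ x ∧ x < b then c else c + 1) : S.Hs v ≤ r := by
  have h1 : ∑ x ∈ Icc (-S.K) S.K, (v x : ℝ) * S.z x = (c + 1) * S.P.card - S.m a b := by
    rw [arc_sum h (g := fun x => (c : ℝ) + 1 - if a ≤ x ∧ x < b then 1 else 0) (fun x hx => by
      rw [hv x hx]
      split_ifs <;> push_cast <;> ring)]
    rw [← h.tot, Finset.mul_sum, ← sum_ind h, ← Finset.sum_sub_distrib]
    refine Finset.sum_congr rfl fun x _ => ?_
    split_ifs <;> ring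
  have h2 : S.Hs v = (c + 1) * S.P.card - S.N a b := by
    unfold Sys.Hs
    rw [← arc_N]
    have h3 : ∀ p ∈ S.P, ((v (S.t p) : ℕ) : ℤ) =
        ((c : ℤ) + 1) - if a ≤ S.t p ∧ S.t p < b then 1 else 0 := by
      intro p hp
      rw [hv _ (t_range h hp).2.2]
      split_ifs <;> push_cast <;> ring
    rw [Finset.sum_congr rfl h3, Finset.sum_sub_distrib, Finset.sum_const, nsmul_eq_mul]
    ring
  have h3 := h.cnt2 a b hab
  have h4 : ∑ x ∈ Icc (-S.K) S.K, (v x : ℝ) * S.z x ≤ r + S.ε := hO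
  have h5 := h.ε0
  have h6 := h.δε
  have h7 := h.δ0
  have h8 : ((S.Hs v : ℤ) : ℝ) < ((r + 1 : ℤ) : ℝ) := by
    rw [h2]
    push_cast
    linarith
  have h9 : S.Hs v < r + 1 := by exact_mod_cast h8
  omega

/-- constant rows -/
theorem arc_const (h : S.Ok) {v : ℤ → ℕ} {r : ℤ} (hO : S.Own v r) {c : ℕ}
    (hv : ∀ x, S.ex x → v x = c) : S.Hs v ≤ r := by
  refine arc_add h hO (a := 0) (b := 0) le_rfl (c := c) fun x hx => ?_
  rw [hv x hx, if_neg (by omega)]

end Pool.Agent.H.MP_ebc13b_lc.h61b
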