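import Pool.Agent.H.MP_ebc13b_lc.h61b.L2.FDefs
import Pool.Agent.H.MP_ebc13b_lc.h61b.L2.Arc

/-!
# Level 2: rows of maximal stable sets, cyclic intervals and the first shape
-/

namespace Pool.Agent.H.MP_ebc13b_lc.h61b

open Finset

variable {S : Sys}

private theorem F1_sum_le_one {P : Finset ℤ} {f : ℤ → ℤ} (h1 : ∀ p ∈ P, f p ≤ 1)
    (hu : ∀ p ∈ P, ∀ q ∈ P, f p ≠ 0 → f q ≠ 0 → p = q) : ∑ p ∈ P, f p ≤ 1 := by
  by_cases hex : ∃ p ∈ P, f p ≠ 0
  · obtain ⟨p, hp, hp0⟩ := hex
    rw [Finset.sum_eq_single p]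
    · exact h1 p hp
    · intro q hq hne
      by_contra hq0
      exact hne (hu q hq p hp hq0 hp0)
    · intro h2
      exact absurd hp h2
  · rw [Finset.sum_eq_zero]
    · exact zero_le_one
    · intro p hp
      by_contra h2
      exact hex ⟨p, hp, h2⟩

private theorem F1_mass2 (h : S.Ok) {v : ℤ → ℕ} {r : ℤ} (hO : S.Own v r) {a b c d : ℤ}
    (hbc : b ≤ c)
    (hv : ∀ x, S.ex x → (a ≤ x ∧ x < b) ∨ (c ≤ x ∧ x < d) → 1 ≤ v x) :
    S.m a b + S.m c d ≤ r + S.ε := by
  refine le_trans ?_ hO
  rw [← sum_ind h (a := a) (b := b), ← sum_ind h (a := c) (b := d), ← Finset.sum_add_distrib]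
  refine Finset.sum_le_sum fun x _ => ?_
  by_cases hex : S.ex x
  · have h0 := h.z0 x
    by_cases h1 : a ≤ x ∧ x < b
    · have h2 : ¬ (c ≤ x ∧ x < d) := by omega
      rw [if_pos h1, if_neg h2, add_zero]
      have h3 : (1 : ℝ) ≤ v x := by exact_mod_cast hv x hex (Or.inl h1)
      nlinarith
    · rw [if_neg h1, zero_add]
      by_cases h2 : c ≤ x ∧ x < d
      · rw [if_pos h2]
        have h3 : (1 : ℝ) ≤ v x := by exact_mod_cast hv x hex (Or.inr h2)
        nlinarith
      · rw [if_neg h2]
        positivity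
  · rw [h.zex x hex]
    simp

private theorem F1_ext (h : S.Ok) {Q : ℤ → Prop} (hQ : ∀ x, Q x → S.ex x) (hne : ∃ x, Q x) :
    ∃ a b, Q a ∧ Q b ∧ ∀ x, Q x → a ≤ x ∧ x ≤ b := by
  classical
  have hne' : ((Icc (-S.K) S.K).filter Q).Nonempty := by
    obtain ⟨x, hx⟩ := hne
    exact ⟨x, Finset.mem_filter.2 ⟨Finset.mem_Icc.2 (h.bd x (hQ x hx)), hx⟩⟩
  refine ⟨_, _, (Finset.mem_filter.1 (Finset.min'_mem _ hne')).2,
    (Finset.mem_filter.1 (Finset.max'_mem _ hne')).2, fun x hx => ?_⟩
  have hm : x ∈ (Icc (-S.K) S.K).filter Q :=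
    Finset.mem_filter.2 ⟨Finset.mem_Icc.2 (h.bd x (hQ x hx)), hx⟩
  exact ⟨Finset.min'_le _ _ hm, Finset.le_max' _ _ hm⟩

private theorem F1_w (h : S.Ok) {v : ℤ → ℕ} {p : ℤ} (hp : p ∈ S.P) : S.w v p ≤ v (S.t p) :=
  w_le (h.tO p hp)

/-- **Cyclic intervals.**  If all existing blocks have the same value use `arc_const`.  Otherwise let
`b₁`, `b₃` be the first and the last existing block of value `0` (they exist by `bd`).  If no existing
block between them has value `1`, then `k = 0` exactly on the existing blocks of `[b₁, b₃ + 1)`: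
`arc_sub` with `c = 0`.  Otherwise, by `Cyc`, all existing blocks of value `1` are between `b₁` and
`b₃`; let `s`, `s'` be the first and the last one.  No existing block `x` between `s` and `s'` has
value `0` (apply `Cyc` to `b₁ < s < x` and `b₀ = s'`), so `k = 1` exactly on the existing blocks of
`[s, s' + 1)`: `arc_add` with `c = 0`. -/
theorem cyc_hs (h : S.Ok) {k : ℤ → ℕ} {r : ℤ} (hO : S.Own k r) (hk : Cyc S k) : S.Hs k ≤ r := by
  obtain ⟨h01, hcyc⟩ := hk
  by_cases hz : ∃ x, S.ex x ∧ k x = 0
  · by_cases ho : ∃ x, S.ex x ∧ k x = 1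
    · obtain ⟨b1, b3, hb1, hb3, hb⟩ := F1_ext h (Q := fun x => S.ex x ∧ k x = 0)
        (fun x hx => hx.1) hz
      obtain ⟨s, s', hs, hs', hss⟩ := F1_ext h (Q := fun x => S.ex x ∧ k x = 1)
        (fun x hx => hx.1) ho
      have hb13 := (hb b3 hb3).1
      have hs13 := (hss s' hs').1
      by_cases hmid : ∃ x, S.ex x ∧ k x = 1 ∧ b1 < x ∧ x < b3
      · obtain ⟨x0, hx0, hx01, hx02, hx03⟩ := hmid
        have hall : ∀ y, S.ex y → k y = 1 → b1 < y ∧ y < b3 := by
          intro y hy hy1
          have hne1 : y ≠ b1 := by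
            intro e
            rw [e, hb1.2] at hy1
            omega
          have hne3 : y ≠ b3 := by
            intro e
            rw [e, hb3.2] at hy1
            omega
          by_contra hcon
          exact hcyc b1 x0 b3 y hb1.1 hx0 hb3.1 hy hb1.2 hx01 hb3.2 hy1 hx02 hx03 (by omega)
        have hsA := hall s hs.1 hs.2
        have hsB := hall s' hs'.1 hs'.2
        apply arc_add h hO (a := s) (b := s' + 1) (by omega) (c := 0)
        intro x hx
        by_cases hxs : s ≤ x ∧ x < s' + 1
        · rw [if_pos hxs]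
          rcases h01 x hx with h0 | h1
          · exfalso
            have hne1 : x ≠ s := by
              intro e
              rw [e, hs.2] at h0
              omega
            have hne2 : x ≠ s' := by
              intro e
              rw [e, hs'.2] at h0
              omega
            exact hcyc b1 s x s' hb1.1 hs.1 hx hs'.1 hb1.2 hs.2 h0 hs'.2 hsA.1 (by omega)
              (Or.inr (by omega))
          · exact h1
        · rw [if_neg hxs]
          rcases h01 x hx with h0 | h1
          · exact h0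
          · exfalso
            have := hss x ⟨hx, h1⟩
            omega
      · apply arc_sub h hO (a := b1) (b := b3 + 1) (by omega) (c := 0)
        intro x hx
        by_cases hxs : b1 ≤ x ∧ x < b3 + 1
        · rw [if_pos hxs]
          rcases h01 x hx with h0 | h1
          · exact h0
          · exfalso
            have hne1 : x ≠ b1 := by
              intro e
              rw [e, hb1.2] at h1
              omega
            have hne3 : x ≠ b3 := by
              intro e
              rw [e, hb3.2] at h1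
              omega
            exact hmid ⟨x, hx, h1, by omega, by omega⟩
        · rw [if_neg hxs]
          rcases h01 x hx with h0 | h1
          · exfalso
            have := hb x ⟨hx, h0⟩
            omega
          · exact h1
    · apply arc_const h hO (c := 0)
      intro x hx
      rcases h01 x hx with h0 | h1
      · exact h0
      · exact absurd ⟨x, hx, h1⟩ ho
  · apply arc_const h hO (c := 1)
    intro x hx
    rcases h01 x hx with h0 | h1
    · exact absurd ⟨x, hx, h0⟩ hz
    · exact h1

/-- `Hs k` is the number of hits in the missed blocks, at most one of them in the star of `i` and at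
most one in the star of `i + 2` (`one_star`). -/
theorem fsh1_two (h : S.Ok) {k : ℤ → ℕ} {i : ℤ} (hk : FSh1 S k i) : S.Hs k ≤ 2 := by
  have hone : ∀ p ∈ S.P, ((k (S.t p) : ℤ) = 0) ∨ ((k (S.t p) : ℤ) = 1 ∧
      (S.t p = 2 * i - 1 ∨ S.t p = 2 * i ∨ S.t p = 2 * i + 4 ∨ S.t p = 2 * i + 5)) := by
    intro p hp
    have hr := t_range h hp
    by_cases hm : S.t p = 2 * i - 1 ∨ S.t p = 2 * i ∨ S.t p = 2 * i + 4 ∨ S.t p = 2 * i + 5
    · right
      exact ⟨by exact_mod_cast hk.k1 _ hr.2.2 hm, hm⟩
    · left
      exact_mod_cast hk.k0 _ hr.2.2 hm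
  have hsplit : S.Hs k = ∑ p ∈ S.P, (if S.t p ≤ 2 * i + 1 then (k (S.t p) : ℤ) else 0) +
      ∑ p ∈ S.P, (if S.t p ≤ 2 * i + 1 then 0 else (k (S.t p) : ℤ)) := by
    unfold Sys.Hs
    rw [← Finset.sum_add_distrib]
    refine Finset.sum_congr rfl fun p _ => ?_
    split_ifs <;> ring
  have hA : ∑ p ∈ S.P, (if S.t p ≤ 2 * i + 1 then (k (S.t p) : ℤ) else 0) ≤ 1 := by
    apply F1_sum_le_one
    · intro p hp
      rcases hone p hp with h1 | h1
      · rw [h1]; split_ifs <;> omega
      · rw [h1.1]; split_ifs <;> omega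
    · intro p hp q hq hp0 hq0
      have h1 : S.t p ≤ 2 * i + 1 := by
        by_contra h2
        rw [if_neg h2] at hp0
        exact hp0 rfl
      have h2 : S.t q ≤ 2 * i + 1 := by
        by_contra h2
        rw [if_neg h2] at hq0
        exact hq0 rfl
      rw [if_pos h1] at hp0
      rw [if_pos h2] at hq0
      rcases hone p hp with h3 | h3
      · exact absurd h3 hp0
      · rcases hone q hq with h4 | h4
        · exact absurd h4 hq0
        · exact one_star h hp hq (j := i) (by omega) (by omega) (by omega) (by omega)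
  have hB : ∑ p ∈ S.P, (if S.t p ≤ 2 * i + 1 then 0 else (k (S.t p) : ℤ)) ≤ 1 := by
    apply F1_sum_le_one
    · intro p hp
      rcases hone p hp with h1 | h1
      · rw [h1]; split_ifs <;> omega
      · rw [h1.1]; split_ifs <;> omega
    · intro p hp q hq hp0 hq0
      have h1 : ¬ S.t p ≤ 2 * i + 1 := by
        intro h2
        rw [if_pos h2] at hp0
        exact hp0 rfl
      have h2 : ¬ S.t q ≤ 2 * i + 1 := by
        intro h2
        rw [if_pos h2] at hq0
        exact hq0 rfl
      rw [if_neg h1] at hp0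
      rw [if_neg h2] at hq0
      rcases hone p hp with h3 | h3
      · exact absurd h3 hp0
      · rcases hone q hq with h4 | h4
        · exact absurd h4 hq0
        · exact one_star h hp hq (j := i + 2) (by omega) (by omega) (by omega) (by omega)
  rw [hsplit]
  omega

/-- If `Hs k = 2` the missed blocks contain a hit, so they have mass at least `2 * δ`, the left hand
side of the row is at least `2 * δ > ε` and so `1 ≤ r`.  If `Hs k ≤ 1` use `own_nonneg`. -/
theorem fsh1_hs (h : S.Ok) {k : ℤ → ℕ} {r i : ℤ} (hO : S.Own k r) (hk : FSh1 S k i) :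
    S.Hs k ≤ r + 1 := by
  have h2 := fsh1_two h hk
  have hr0 := own_nonneg h hO
  by_contra hcon
  have hr : r = 0 := by omega
  have hex : ∃ p ∈ S.P, k (S.t p) ≠ 0 := by
    by_contra hno
    have h3 : S.Hs k = 0 := by
      unfold Sys.Hs
      apply Finset.sum_eq_zero
      intro p hp
      by_contra h4
      exact hno ⟨p, hp, by exact_mod_cast h4⟩
    omega
  obtain ⟨p, hp, hp0⟩ := hex
  have h3 := zpos h hp
  have h4 := F1_mass2 h hO (a := S.t p) (b := S.t p + 1) (c := S.t p + 1) (d := S.t p + 1) le_rfl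
    (by
      intro x hx hx2
      have : x = S.t p := by omega
      rw [this]
      omega)
  rw [m_one] at h4
  have h5 := m_nonneg h (S.t p + 1) (S.t p + 1)
  have h6 := h.δε
  have h7 := h.δ0
  have h8 := h.ε0
  rw [hr] at h4
  push_cast at h4
  linarith

/-- **The first shape.**  If `∑ w ≤ 1` use `row_le_one`.  Otherwise there are slots `p`, `q` with
`w p = w q = 1` (`w ≤ k (t p) ≤ 1`, `∑ w ≤ Hs k ≤ 2`) and hits `t p ∈ {2 * i - 1, 2 * i}`,
`t q ∈ {2 * i + 4, 2 * i + 5}`; we have to show `2 ≤ r`.

* If there is a hit in the star of `i + 1`, i.e. in `[2 * i + 1, 2 * i + 4)`, the interval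
  `[t p, t q + 1)` contains three hits, so its mass is at least `2 + 2 * δ` (`cnt1`).  The star of
  `i + 1` has mass at most `1 + ε`, so the missed blocks have mass at least `1 + 2 * δ - ε`, and
  `r ≥ 1 + 2 * δ - 2 * ε > 1`.
* Otherwise `i + 1 ∉ P` (its hit would be in the star of `i + 1`).
  By `t_range`, `p = i` or `p = i - 1` (with `t p = 2 * i - 1 = 2 * p + 1`), and `q = i + 2` or
  `q = i + 3` (with `t q = 2 * i + 5 = 2 * q - 1`).
  - `p = i - 1`: the blocks `2 * i - 3`, `2 * i - 2` have value `0`, so no option `≠ 2 * p + 1`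
    exists (`w p = 1`); `WL` gives `i + 1 ∈ P` (excluded) or `2 * i + 3` exists and `i + 2 ∈ P`.
    The hit of `i + 2` is in the star of `i + 2`, as `t q`: `q = i + 2` (`one_star`).  By
    `served_right` for `j = i + 1`: `2 * i + 3` is an option of `i + 2 = q`, of value `0`,
    contradicting `w q = 1`, or `i ∈ P`; but the hit of `i` and `t p` are both in the star of `i`, so
    `i = p`, a contradiction.
  - `p = i`: `2 * i + 1` is not an option of `p` (value `0`), so `served_left` for `j = i + 1` gives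
    `i + 2 ∈ P` with the option `2 * i + 3` of value `0`.  So `q ≠ i + 2`, but the hits of `i + 2` and
    `q` are both in the star of `i + 2`: contradiction with `one_star`. -/
theorem fsh1_row (h : S.Ok) {k : ℤ → ℕ} {r i : ℤ} (hO : S.Own k r) (hk : FSh1 S k i) :
    S.Row k r := by
  have hδ := h.δ0
  have hδε := h.δε
  have hε := h.ε0
  by_cases hsum : ∑ p ∈ S.P, S.w k p ≤ 1
  · exact row_le_one h hO hsum
  have hH2 := fsh1_two h hk
  have hwH : ∑ p ∈ S.P, (S.w k p : ℤ) ≤ S.Hs k := by
    unfold Sys.Hs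
    refine Finset.sum_le_sum fun p hp => ?_
    exact_mod_cast F1_w h hp
  suffices h2 : 2 ≤ r by
    show ∑ p ∈ S.P, (S.w k p : ℤ) ≤ r
    omega
  have hone : ∀ p ∈ S.P, S.w k p ≠ 0 →
      (S.t p = 2 * i - 1 ∨ S.t p = 2 * i ∨ S.t p = 2 * i + 4 ∨ S.t p = 2 * i + 5) := by
    intro p hp hp0
    by_contra hm
    have h1 := hk.k0 _ (t_range h hp).2.2 hm
    have h2 := F1_w h (v := k) hp
    omega
  have hle1 : ∀ p ∈ S.P, S.w k p ≤ 1 := by
    intro p hp
    by_cases hp0 : S.w k p = 0
    · omega
    · have h1 := hk.k1 _ (t_range h hp).2.2 (hone p hp hp0)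
      have h2 := F1_w h (v := k) hp
      omega
  have hex : ∃ p ∈ S.P, ∃ q ∈ S.P, S.w k p ≠ 0 ∧ S.w k q ≠ 0 ∧ p ≠ q := by
    by_contra hno
    apply hsum
    have h1 : ∑ p ∈ S.P, (S.w k p : ℤ) ≤ 1 := by
      apply F1_sum_le_one
      · intro p hp
        exact_mod_cast hle1 p hp
      · intro p hp q hq hp0 hq0
        by_contra hne
        exact hno ⟨p, hp, q, hq, by exact_mod_cast hp0, by exact_mod_cast hq0, hne⟩
    exact_mod_cast h1
  have hex2 : ∃ p ∈ S.P, ∃ q ∈ S.P, S.w k p ≠ 0 ∧ S.w k q ≠ 0 ∧
      (S.t p = 2 * i - 1 ∨ S.t p = 2 * i) ∧ (S.t q = 2 * i + 4 ∨ S.t q = 2 * i + 5) := by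
    obtain ⟨p, hp, q, hq, hp0, hq0, hne⟩ := hex
    have h1 := hone p hp hp0
    have h2 := hone q hq hq0
    by_cases h3 : S.t p = 2 * i - 1 ∨ S.t p = 2 * i
    · by_cases h4 : S.t q = 2 * i + 4 ∨ S.t q = 2 * i + 5
      · exact ⟨p, hp, q, hq, hp0, hq0, h3, h4⟩
      · exact absurd (one_star h hp hq (j := i) (by omega) (by omega) (by omega) (by omega)) hne
    · by_cases h4 : S.t q = 2 * i + 4 ∨ S.t q = 2 * i + 5
      · exact absurd (one_star h hp hq (j := i + 2) (by omega) (by omega) (by omega) (by omega)) hne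
      · exact ⟨q, hq, p, hp, hq0, hp0, by omega, by omega⟩
  obtain ⟨p, hp, q, hq, hp0, hq0, htp, htq⟩ := hex2
  have hpr := t_range h hp
  have hqr := t_range h hq
  by_cases hmid : ∃ s ∈ S.P, 2 * i + 1 ≤ S.t s ∧ S.t s < 2 * i + 4
  · obtain ⟨s, hs, hs1, hs2⟩ := hmid
    have hN : 3 ≤ S.N (S.t p) (S.t q + 1) := by
      unfold Sys.N
      have hsub : ({p, s, q} : Finset ℤ) ⊆
          S.P.filter fun x => S.t p ≤ S.t x ∧ S.t x < S.t q + 1 := by
        intro x hx
        simp only [Finset.mem_insert, Finset.mem_singleton] at hx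
        rw [Finset.mem_filter]
        rcases hx with rfl | rfl | rfl
        · exact ⟨hp, by omega, by omega⟩
        · exact ⟨hs, by omega, by omega⟩
        · exact ⟨hq, by omega, by omega⟩
      have hcard : ({p, s, q} : Finset ℤ).card = 3 := by
        rw [Finset.card_eq_three]
        refine ⟨p, s, q, ?_, ?_, ?_, rfl⟩
        · rintro rfl; omega
        · rintro rfl; omega
        · rintro rfl; omega
      have := Finset.card_le_card hsub
      rw [hcard] at this
      exact_mod_cast this
    have hc := h.cnt1 (S.t p) (S.t q + 1) (by omega)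
    have hN' : (3 : ℝ) ≤ (S.N (S.t p) (S.t q + 1) : ℝ) := by exact_mod_cast hN
    have e1 : S.m (S.t p) (S.t q + 1) = S.m (S.t p) (2 * i + 1) + S.m (2 * i + 1) (2 * i + 4) +
        S.m (2 * i + 4) (S.t q + 1) := by
      rw [m_split (S := S) (a := S.t p) (b := 2 * i + 4) (c := S.t q + 1) (by omega) (by omega),
        m_split (S := S) (a := S.t p) (b := 2 * i + 1) (c := 2 * i + 4) (by omega) (by omega)]
    have e2 := star_le h (i + 1)
    have e3 : (2 : ℤ) * (i + 1) - 1 = 2 * i + 1 := by ring
    have e4 : (2 : ℤ) * (i + 1) + 2 = 2 * i + 4 := by ring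
    rw [e3, e4] at e2
    have e5 := F1_mass2 h hO (a := S.t p) (b := 2 * i + 1) (c := 2 * i + 4) (d := S.t q + 1)
      (by omega) (by
        intro x hx hx2
        rw [hk.k1 x hx (by omega)])
    have e6 : (1 : ℝ) < (r : ℝ) := by linarith
    have e7 : (1 : ℤ) < r := by exact_mod_cast e6
    omega
  · exfalso
    have hi1 : i + 1 ∉ S.P := by
      intro h1
      have h2 := t_range h h1
      exact hmid ⟨i + 1, h1, by omega, by omega⟩
    have hpi : p = i ∨ (p = i - 1 ∧ S.t p = 2 * i - 1) := by omega
    rcases hpi with hpi | ⟨hpi, htp'⟩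
    · rw [hpi] at hp hp0
      have h1 := served_left (S := S) (j := i + 1) hi1 (by rwa [add_sub_cancel_right])
        (by
          have : (2 : ℤ) * (i + 1) - 1 = 2 * i + 1 := by ring
          rw [this]
          exact hk.e1)
      have e1 : i + 1 - 1 = i := by ring
      have e2 : 2 * (i + 1) - 1 = 2 * i + 1 := by ring
      have e3 : i + 1 + 1 = i + 2 := by ring
      have e4 : 2 * (i + 1) + 1 = 2 * i + 3 := by ring
      rw [e1, e2, e3, e4] at h1
      rcases h1 with h1 | ⟨h1, h2⟩
      · have h3 := w_le (v := k) h1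
        rw [hk.k0 _ hk.e1 (by omega)] at h3
        omega
      · have h3 := w_le (v := k) h2
        rw [hk.k0 _ hk.e2 (by omega)] at h3
        have h4 := t_range h h1
        have h5 := one_star h h1 hq (j := i + 2) (by omega) (by omega) (by omega) (by omega)
        rw [← h5] at hq0
        omega
    · have hWL := h.WL p hp (by omega)
      rcases hWL with ⟨b, hb1, hb2⟩ | ⟨_, h1 | ⟨_, h1⟩⟩
      · have h3 := w_le (v := k) hb2
        have h4 := O_range hb2
        rw [hk.k0 b h4.2.2 (by omega)] at h3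
        omega
      · apply hi1
        have : p + 2 = i + 1 := by omega
        rwa [this] at h1
      · have e0 : p + 3 = i + 2 := by omega
        rw [e0] at h1
        have h4 := t_range h h1
        have h5 := one_star h h1 hq (j := i + 2) (by omega) (by omega) (by omega) (by omega)
        have e1 : i + 1 - 1 = i := by ring
        have e2 : 2 * (i + 1) - 1 = 2 * i + 1 := by ring
        have e3 : i + 1 + 1 = i + 2 := by ring
        have e4 : 2 * (i + 1) + 1 = 2 * i + 3 := by ring
        have h6 := served_right (S := S) (j := i + 1) hi1 (by rwa [e3]) (by rw [e4]; exact hk.e2)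
        rw [e1, e2, e3, e4] at h6
        rcases h6 with h6 | ⟨h6, _⟩
        · have h3 := w_le (v := k) h6
          rw [hk.k0 _ hk.e2 (by omega)] at h3
          rw [← h5] at hq0
          omega
        · have h7 := t_range h h6
          have h8 := one_star h h6 hp (j := i) (by omega) (by omega) (by omega) (by omega)
          omega

end Pool.Agent.H.MP_ebc13b_lc.h61b
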