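import Pool.Agent.H.MP_ebc13b_lc.h61b.L2.F2

/-!
# Level 2: rows of maximal stable sets, the third shape
-/

namespace Pool.Agent.H.MP_ebc13b_lc.h61b

open Finset

variable {S : Sys}

/-- the mass of `Z` -/
private theorem F3_sum (f : ℤ → ℝ) (i : ℤ) :
    ∑ x ∈ ({2 * i + 1, 2 * i + 3, 2 * i + 5} : Finset ℤ), f x =
      f (2 * i + 1) + f (2 * i + 3) + f (2 * i + 5) := by
  rw [Finset.sum_insert, Finset.sum_insert, Finset.sum_singleton]
  · ring
  · simp only [Finset.mem_singleton]
    omega
  · simp only [Finset.mem_insert, Finset.mem_singleton]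
    omega

/-- the values are `0` or `1` -/
private theorem F3_01 {k : ℤ → ℕ} {i : ℤ} (hk : FSh3 S k i) :
    ∀ x, S.ex x → k x = 0 ∨ k x = 1 := by
  intro x hx
  by_cases h1 : x = 2 * i + 1 ∨ x = 2 * i + 3 ∨ x = 2 * i + 5
  · exact Or.inl (hk.k0 x h1)
  · exact Or.inr (hk.k1 x hx h1)

/-- the blocks of value `0` are in `Z` -/
private theorem F3_Z {k : ℤ → ℕ} {i : ℤ} (hk : FSh3 S k i) :
    ∀ x, S.ex x → k x = 0 → x ∈ ({2 * i + 1, 2 * i + 3, 2 * i + 5} : Finset ℤ) := by
  intro x hx h0
  simp only [Finset.mem_insert, Finset.mem_singleton]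
  by_contra h1
  have h2 := hk.k1 x hx h1
  omega

/-- the star of `i + 1` -/
private theorem F3_star1 (h : S.Ok) (i : ℤ) :
    S.z (2 * i + 1) + S.z (2 * i + 2) + S.z (2 * i + 3) ≤ 1 + S.ε := by
  have h1 := h.star (i + 1)
  rw [show 2 * (i + 1) - 1 = 2 * i + 1 by ring, show 2 * (i + 1) = 2 * i + 2 by ring,
    show 2 * i + 2 + 1 = 2 * i + 3 by ring] at h1
  exact h1

/-- the star of `i + 2` -/
private theorem F3_star2 (h : S.Ok) (i : ℤ) :
    S.z (2 * i + 3) + S.z (2 * i + 4) + S.z (2 * i + 5) ≤ 1 + S.ε := by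
  have h1 := h.star (i + 2)
  rw [show 2 * (i + 2) - 1 = 2 * i + 3 by ring, show 2 * (i + 2) = 2 * i + 4 by ring,
    show 2 * i + 4 + 1 = 2 * i + 5 by ring] at h1
  exact h1

/-- a block which is not hit has mass at most `1 - 2 * δ` -/
private theorem F3_unhit (h : S.Ok) {x : ℤ} (hN : ∀ p ∈ S.P, S.t p ≠ x) :
    S.z x ≤ 1 - 2 * S.δ := by
  have h1 := unhit h (a := x) (b := x + 1) (by omega) (fun p hp hh => hN p hp (by omega))
  rwa [m_one] at h1

/-- the mass of the hull of `Z` -/
private theorem F3_hull (i : ℤ) : S.m (2 * i + 1) (2 * i + 6) =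
    S.z (2 * i + 1) + S.z (2 * i + 2) + S.z (2 * i + 3) + S.z (2 * i + 4) + S.z (2 * i + 5) := by
  rw [m_split (S := S) (a := 2 * i + 1) (b := 2 * i + 2) (c := 2 * i + 6) (by omega) (by omega),
    m_split (S := S) (a := 2 * i + 2) (b := 2 * i + 3) (c := 2 * i + 6) (by omega) (by omega),
    m_split (S := S) (a := 2 * i + 3) (b := 2 * i + 4) (c := 2 * i + 6) (by omega) (by omega),
    m_split (S := S) (a := 2 * i + 4) (b := 2 * i + 5) (c := 2 * i + 6) (by omega) (by omega)]
  have e1 := m_one (S := S) (2 * i + 1)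
  have e2 := m_one (S := S) (2 * i + 2)
  have e3 := m_one (S := S) (2 * i + 3)
  have e4 := m_one (S := S) (2 * i + 4)
  have e5 := m_one (S := S) (2 * i + 5)
  rw [show 2 * i + 1 + 1 = 2 * i + 2 by ring] at e1
  rw [show 2 * i + 2 + 1 = 2 * i + 3 by ring] at e2
  rw [show 2 * i + 3 + 1 = 2 * i + 4 by ring] at e3
  rw [show 2 * i + 4 + 1 = 2 * i + 5 by ring] at e4
  rw [show 2 * i + 5 + 1 = 2 * i + 6 by ring] at e5
  rw [e1, e2, e3, e4, e5]
  ring

/-- the mass of the middle of `Z` -/
private theorem F3_mid (i : ℤ) : S.m (2 * i + 2) (2 * i + 5) =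
    S.z (2 * i + 2) + S.z (2 * i + 3) + S.z (2 * i + 4) := by
  rw [m_split (S := S) (a := 2 * i + 2) (b := 2 * i + 3) (c := 2 * i + 5) (by omega) (by omega),
    m_split (S := S) (a := 2 * i + 3) (b := 2 * i + 4) (c := 2 * i + 5) (by omega) (by omega)]
  have e2 := m_one (S := S) (2 * i + 2)
  have e3 := m_one (S := S) (2 * i + 3)
  have e4 := m_one (S := S) (2 * i + 4)
  rw [show 2 * i + 2 + 1 = 2 * i + 3 by ring] at e2
  rw [show 2 * i + 3 + 1 = 2 * i + 4 by ring] at e3
  rw [show 2 * i + 4 + 1 = 2 * i + 5 by ring] at e4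
  rw [e2, e3, e4]
  ring

/-- `δ ≤ 1 / 2` (`cnt1` for an empty interval) -/
private theorem F3_half (h : S.Ok) : S.δ ≤ 1 / 2 := by
  have h2 := h.cnt1 0 0 (le_refl 0)
  have h3 : S.m 0 0 = 0 := by simp [Sys.m]
  have h4 : (0 : ℝ) ≤ (S.N 0 0 : ℝ) := by
    have : (0 : ℤ) ≤ S.N 0 0 := by unfold Sys.N; positivity
    exact_mod_cast this
  rw [h3] at h2
  linarith

/-- two different slots in a set -/
private theorem F3_two {Q : Finset ℤ} {p q : ℤ} (hp : p ∈ Q) (hq : q ∈ Q) (hpq : p ≠ q) :
    2 ≤ Q.card := by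
  have hsub : ({p, q} : Finset ℤ) ⊆ Q := by
    intro x hx
    simp only [Finset.mem_insert, Finset.mem_singleton] at hx
    rcases hx with rfl | rfl
    · exact hp
    · exact hq
  have hc := Finset.card_le_card hsub
  rwa [Finset.card_pair hpq] at hc

/-- `rowZ` with `Z = {2 * i + 1, 2 * i + 3, 2 * i + 5}`; `z (2 * i + 1) + z (2 * i + 3) ≤ 1 + ε` and
`z (2 * i + 3) + z (2 * i + 5) ≤ 1 + ε` by `star`.  Let `n0` be the number of slots with `w = 0`.
* `n0 ≥ 2`: `m(Z) ≤ 2 + 2 * ε`.
* `n0 = 1`: if `m(Z) + ε ≥ 2`, then `z (2 * i + 1) ≥ 1 - 2 * ε > 1 - 2 * δ`, so `2 * i + 1` is hit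
  (`unhit`), and so is `2 * i + 5`: two slots (`t_inj`) with `w = 0`.
* `n0 = 0`, we need `m(Z) + ε < 1`.
  - `2 * i + 2` and `2 * i + 4` not hit: `[2 * i + 1, 2 * i + 6)` contains no hit: mass at most
    `1 - 2 * δ`.
  - both hit: `[2 * i + 2, 2 * i + 5)` contains two hits, so its mass is at least `1 + 2 * δ`, hence
    by `star` for `i + 1`: `z (2 * i + 1) ≤ 1 + ε - (1 + 2 * δ - z (2 * i + 4))`, and
    `m(Z) ≤ z (2 * i + 4) + ε - 2 * δ + z (2 * i + 3) + z (2 * i + 5) ≤ 1 + 2 * ε - 2 * δ`.
  - only `2 * i + 2` hit (slot `i + 1`): `i + 2 ∉ P` (its hit would be in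
    `{2 * i + 3, 2 * i + 4, 2 * i + 5}`); `2 * i + 3` exists, so by `served_left` for `j = i + 2` the
    slot `i + 1` has the option `2 * i + 3`, or `i + 3 ∈ P` has the option `2 * i + 5`: value `0`.
    Symmetric if only `2 * i + 4` is hit (`served_right` for `j = i + 1`, the options `2 * i + 3` of
    `i + 2` or `2 * i + 1` of `i`). -/
theorem fsh3_row (h : S.Ok) {k : ℤ → ℕ} {r i : ℤ} (hO : S.Own k r) (hk : FSh3 S k i) :
    S.Row k r := by
  have hhalf := F3_half h
  have hd := h.δε
  have hd0 := h.δ0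
  have he0 := h.ε0
  have hs1 := F3_star1 h i
  have hs2 := F3_star2 h i
  have hz1 := h.z0 (2 * i + 1)
  have hz2 := h.z0 (2 * i + 2)
  have hz3 := h.z0 (2 * i + 3)
  have hz4 := h.z0 (2 * i + 4)
  have hz5 := h.z0 (2 * i + 5)
  set Q : Finset ℤ := S.P.filter fun q => S.w k q = 0 with hQdef
  have hQ : Q ⊆ S.P := Finset.filter_subset _ _
  have hQ0 : ∀ q ∈ Q, S.w k q = 0 := fun q hq => (Finset.mem_filter.1 hq).2
  -- a slot with an option of value zero is in `Q`
  have hin : ∀ p ∈ S.P, ∀ b, S.O p b → k b = 0 → p ∈ Q := by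
    intro p hp b hb h0
    refine Finset.mem_filter.2 ⟨hp, ?_⟩
    have := w_le (v := k) hb
    omega
  have hhit : ∀ p ∈ S.P, (S.t p = 2 * i + 1 ∨ S.t p = 2 * i + 3 ∨ S.t p = 2 * i + 5) → p ∈ Q := by
    intro p hp hh
    exact hin p hp _ (h.tO p hp) (hk.k0 _ hh)
  refine rowZ h hO (F3_01 hk) (F3_Z hk) hQ hQ0 ?_
  rw [F3_sum]
  rcases Nat.lt_or_ge Q.card 2 with hc | hc
  · rcases Nat.lt_or_ge Q.card 1 with hc1 | hc1
    · -- no slot of value zero
      have hc0 : Q.card = 0 := by omega
      have hQe : Q = ∅ := Finset.card_eq_zero.1 hc0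
      have hnz : ∀ p ∈ S.P, S.t p ≠ 2 * i + 1 ∧ S.t p ≠ 2 * i + 3 ∧ S.t p ≠ 2 * i + 5 := by
        intro p hp
        refine ⟨fun e => ?_, fun e => ?_, fun e => ?_⟩
        · have := hhit p hp (Or.inl e)
          rw [hQe] at this
          exact absurd this (Finset.notMem_empty p)
        · have := hhit p hp (Or.inr (Or.inl e))
          rw [hQe] at this
          exact absurd this (Finset.notMem_empty p)
        · have := hhit p hp (Or.inr (Or.inr e))
          rw [hQe] at this
          exact absurd this (Finset.notMem_empty p)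
      rw [hc0]
      push_cast
      by_cases h2 : ∃ p ∈ S.P, S.t p = 2 * i + 2
      · obtain ⟨p, hp, htp⟩ := h2
        have hpi : p = i + 1 := by
          have := h.tst p hp
          omega
        by_cases h4 : ∃ q ∈ S.P, S.t q = 2 * i + 4
        · obtain ⟨q, hq, htq⟩ := h4
          -- both hit
          have hpq : p ≠ q := by
            intro e
            rw [e, htq] at htp
            omega
          have hN : (2 : ℤ) ≤ S.N (2 * i + 2) (2 * i + 5) := by
            unfold Sys.N
            have := F3_two (Q := S.P.filter fun p => 2 * i + 2 ≤ S.t p ∧ S.t p < 2 * i + 5)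
              (p := p) (q := q) (Finset.mem_filter.2 ⟨hp, by omega⟩)
              (Finset.mem_filter.2 ⟨hq, by omega⟩) hpq
            exact_mod_cast this
          have hN' : (2 : ℝ) ≤ (S.N (2 * i + 2) (2 * i + 5) : ℝ) := by exact_mod_cast hN
          have hcnt := h.cnt1 (2 * i + 2) (2 * i + 5) (by omega)
          rw [F3_mid] at hcnt
          linarith
        · -- only `2 * i + 2` is hit
          exfalso
          push Not at h4
          have hj : i + 2 ∉ S.P := by
            intro hj
            have h5 := h.tst _ hj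
            have h6 := hnz _ hj
            have h7 := h4 _ hj
            omega
          have hp1 : i + 2 - 1 ∈ S.P := by
            rw [show i + 2 - 1 = i + 1 by ring, ← hpi]
            exact hp
          have hex : S.ex (2 * (i + 2) - 1) := by
            rw [show 2 * (i + 2) - 1 = 2 * i + 3 by ring]
            exact hk.e2
          rcases served_left hj hp1 hex with hh | ⟨hh1, hh2⟩
          · have := hin _ hp1 _ hh (hk.k0 _ (Or.inr (Or.inl (by ring))))
            rw [hQe] at this
            exact absurd this (Finset.notMem_empty _)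
          · have := hin _ hh1 _ hh2 (hk.k0 _ (Or.inr (Or.inr (by ring))))
            rw [hQe] at this
            exact absurd this (Finset.notMem_empty _)
      · push Not at h2
        by_cases h4 : ∃ q ∈ S.P, S.t q = 2 * i + 4
        · obtain ⟨q, hq, htq⟩ := h4
          exfalso
          have hqi : q = i + 2 := by
            have := h.tst q hq
            omega
          have hj : i + 1 ∉ S.P := by
            intro hj
            have h5 := h.tst _ hj
            have h6 := hnz _ hj
            have h7 := h2 _ hj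
            omega
          have hp1 : i + 1 + 1 ∈ S.P := by
            rw [show i + 1 + 1 = i + 2 by ring, ← hqi]
            exact hq
          have hex : S.ex (2 * (i + 1) + 1) := by
            rw [show 2 * (i + 1) + 1 = 2 * i + 3 by ring]
            exact hk.e2
          rcases served_right hj hp1 hex with hh | ⟨hh1, hh2⟩
          · have := hin _ hp1 _ hh (hk.k0 _ (Or.inr (Or.inl (by ring))))
            rw [hQe] at this
            exact absurd this (Finset.notMem_empty _)
          · have := hin _ hh1 _ hh2 (hk.k0 _ (Or.inl (by ring)))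
            rw [hQe] at this
            exact absurd this (Finset.notMem_empty _)
        · -- neither is hit
          push Not at h4
          have hun := unhit h (a := 2 * i + 1) (b := 2 * i + 6) (by omega) (by
            intro p hp hh
            have h6 := hnz _ hp
            have h7 := h2 _ hp
            have h8 := h4 _ hp
            omega)
          rw [F3_hull] at hun
          linarith
    · -- exactly one slot of value zero
      have hc1' : Q.card = 1 := by omega
      rw [hc1']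
      push_cast
      by_contra hcon
      have hz1' : 1 - 2 * S.δ < S.z (2 * i + 1) := by linarith
      have hz5' : 1 - 2 * S.δ < S.z (2 * i + 5) := by linarith
      obtain ⟨p, hp, htp⟩ : ∃ p ∈ S.P, S.t p = 2 * i + 1 := by
        by_contra hno
        push Not at hno
        have := F3_unhit h hno
        linarith
      obtain ⟨q, hq, htq⟩ : ∃ q ∈ S.P, S.t q = 2 * i + 5 := by
        by_contra hno
        push Not at hno
        have := F3_unhit h hno
        linarith
      have hpq : p ≠ q := by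
        intro e
        rw [e, htq] at htp
        omega
      have := F3_two (hhit p hp (Or.inl htp)) (hhit q hq (Or.inr (Or.inr htq))) hpq
      omega
  · have hc' : (2 : ℝ) ≤ (Q.card : ℝ) := by exact_mod_cast hc
    linarith

/-- `hsZ`: if some block of `Z` is hit, `m(Z) + ε ≤ 2 + 3 * ε < 3`; otherwise
`z (2 * i + 1) ≤ 1 - 2 * δ` and `z (2 * i + 3) + z (2 * i + 5) ≤ 1 + ε`. -/
theorem fsh3_hs (h : S.Ok) {k : ℤ → ℕ} {r i : ℤ} (hO : S.Own k r) (hk : FSh3 S k i) :
    S.Hs k ≤ r + 1 := by
  have hhalf := F3_half h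
  have hd := h.δε
  have hd0 := h.δ0
  have he0 := h.ε0
  have hs1 := F3_star1 h i
  have hs2 := F3_star2 h i
  have hz2 := h.z0 (2 * i + 2)
  have hz3 := h.z0 (2 * i + 3)
  have hz4 := h.z0 (2 * i + 4)
  set Q : Finset ℤ := S.P.filter fun q => k (S.t q) = 0 with hQdef
  have hQ : Q ⊆ S.P := Finset.filter_subset _ _
  have hQ0 : ∀ q ∈ Q, k (S.t q) = 0 := fun q hq => (Finset.mem_filter.1 hq).2
  refine hsZ h hO (F3_01 hk) (F3_Z hk) hQ hQ0 ?_
  rw [F3_sum]
  by_cases h1 : ∃ p ∈ S.P, S.t p = 2 * i + 1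
  · obtain ⟨p, hp, htp⟩ := h1
    have hpQ : p ∈ Q := Finset.mem_filter.2 ⟨hp, hk.k0 _ (Or.inl htp)⟩
    have hc : 1 ≤ Q.card := Finset.card_pos.2 ⟨p, hpQ⟩
    have hc' : (1 : ℝ) ≤ (Q.card : ℝ) := by exact_mod_cast hc
    linarith [h.z0 (2 * i + 1), h.z0 (2 * i + 5)]
  · push Not at h1
    have h2 := F3_unhit h h1
    have hc' : (0 : ℝ) ≤ (Q.card : ℝ) := Nat.cast_nonneg _
    linarith [h.z0 (2 * i + 1), h.z0 (2 * i + 5)]

end Pool.Agent.H.MP_ebc13b_lc.h61b
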