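import Pool.Agent.H.MP_ebc13b_lc.h61b.L2.ReflA

/-!
# Level 2: the mirror image of a slot system, rows
-/

namespace Pool.Agent.H.MP_ebc13b_lc.h61b

open Finset

variable {S : Sys}

private theorem Refl_sumP (f : ℤ → ℤ) : ∑ p ∈ S.refl.P, f (-p) = ∑ p ∈ S.P, f p := by
  show ∑ p ∈ S.P.image (fun p => -p), f (-p) = _
  rw [Finset.sum_image (fun a _ b _ hab => neg_injective hab)]
  refine Finset.sum_congr rfl fun p _ => ?_
  rw [neg_neg]

theorem w_refl (v : ℤ → ℕ) (p : ℤ) : S.refl.w (fun x => v (-x)) p = S.w v (-p) := by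
  unfold Sys.w
  congr 1
  ext n
  constructor
  · rintro ⟨b, hb, hn⟩
    exact ⟨-b, O_refl.1 hb, hn⟩
  · rintro ⟨b, hb, hn⟩
    refine ⟨-b, O_refl.2 (by rwa [neg_neg]), ?_⟩
    show v (-(-b)) = n
    rwa [neg_neg]

theorem own_refl {v : ℤ → ℕ} {r : ℤ} : S.refl.Own (fun x => v (-x)) r ↔ S.Own v r := by
  have h : ∑ x ∈ Icc (-S.K) S.K, (v (-x) : ℝ) * S.z (-x) =
      ∑ x ∈ Icc (-S.K) S.K, (v x : ℝ) * S.z x := by
    apply Finset.sum_nbij' (fun x => -x) (fun x => -x)
    · intro x hx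
      rw [Finset.mem_Icc] at hx ⊢
      omega
    · intro x hx
      rw [Finset.mem_Icc] at hx ⊢
      omega
    · intro x _
      exact neg_neg x
    · intro x _
      exact neg_neg x
    · intro x _
      rfl
  show ∑ x ∈ Icc (-S.K) S.K, (v (-x) : ℝ) * S.z (-x) ≤ r + S.ε ↔ _
  rw [h]
  rfl

theorem row_refl {v : ℤ → ℕ} {r : ℤ} : S.refl.Row (fun x => v (-x)) r ↔ S.Row v r := by
  unfold Sys.Row
  simp only [w_refl]
  rw [Refl_sumP (fun p => (S.w v p : ℤ))]

theorem hs_refl (v : ℤ → ℕ) : S.refl.Hs (fun x => v (-x)) = S.Hs v := by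
  unfold Sys.Hs
  rw [← Refl_sumP (fun p => (v (S.t p) : ℤ))]
  refine Finset.sum_congr rfl fun p _ => ?_
  show (v (-(-S.t (-p))) : ℤ) = _
  rw [neg_neg]

theorem free_refl {j : ℤ} : S.refl.Free j ↔ S.Free (-j) := by
  unfold Sys.Free
  constructor
  · intro h p hp
    have h1 := h (-p) (mem_refl.2 (by rwa [neg_neg]))
    have h2 : S.refl.t (-p) = -S.t p := by
      show -S.t (-(-p)) = _
      rw [neg_neg]
    rw [h2] at h1
    omega
  · intro h p hp
    have h1 := h (-p) (mem_refl.1 hp)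
    have h2 : S.refl.t p = -S.t (-p) := rfl
    rw [h2]
    omega

theorem lam_refl {X : LEnd} {x : ℤ} : rho X.refl x ↔ lam X (-x) := by
  cases X with
  | n a => show 1 - a ≤ x ↔ -x < a; omega
  | E j => show (2 * (-j) - 1 < x ∧ x ≠ 2 * (-j) + 1) ↔ (-x < 2 * j + 1 ∧ -x ≠ 2 * j - 1); omega
  | U i =>
    show (2 * (-i - 1) - 2 < x ∧ x ≠ 2 * (-i - 1) + 2 ∧ x ≠ 2 * (-i - 1) + 3) ↔
      (-x < 2 * i + 4 ∧ -x ≠ 2 * i - 1 ∧ -x ≠ 2 * i)
    omega

theorem rho_refl {Y : REnd} {x : ℤ} : lam Y.refl x ↔ rho Y (-x) := by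
  cases Y with
  | n b => show x < 1 - b ↔ b ≤ -x; omega
  | E j => show (x < 2 * (-j) + 1 ∧ x ≠ 2 * (-j) - 1) ↔ (2 * j - 1 < -x ∧ -x ≠ 2 * j + 1); omega
  | L l =>
    show (x < 2 * (-l - 1) + 4 ∧ x ≠ 2 * (-l - 1) - 1 ∧ x ≠ 2 * (-l - 1)) ↔
      (2 * l - 2 < -x ∧ -x ≠ 2 * l + 2 ∧ -x ≠ 2 * l + 3)
    omega

private theorem Refl_ex {a b : ℤ} (h : -a = b) : S.refl.ex a ↔ S.ex b := by
  rw [← h]
  rfl

theorem lval_refl {X : LEnd} : X.refl.Val S.refl ↔ X.Val S := by
  cases X with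
  | n a => exact Iff.rfl
  | E j => exact Refl_ex (by ring)
  | U i => exact Refl_ex (by ring)

theorem rval_refl {Y : REnd} : Y.refl.Val S.refl ↔ Y.Val S := by
  cases Y with
  | n a => exact Iff.rfl
  | E j => exact Refl_ex (by ring)
  | L l => exact Refl_ex (by ring)

theorem one_refl {v : ℤ → ℕ} {X : LEnd} {Y : REnd} (h : One S v X Y) :
    One S.refl (fun x => v (-x)) Y.refl X.refl := by
  intro x hx
  obtain ⟨h1, h2⟩ := h (-x) hx
  rw [rho_refl, lam_refl]
  exact ⟨fun h3 => h1 h3.symm, fun h3 h4 => h2 h4 h3⟩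

theorem two_refl {v : ℤ → ℕ} {X : LEnd} {Y : REnd} (h : Two S v X Y) :
    Two S.refl (fun x => v (-x)) Y.refl X.refl := by
  intro x hx
  obtain ⟨h1, h2, h3, h4⟩ := h (-x) hx
  rw [rho_refl, lam_refl]
  exact ⟨fun a b => h1 b a, fun a b => h3 b a, fun a b => h2 b a, fun a b => h4 b a⟩

theorem compat1_refl {X : LEnd} {Y : REnd} (h : Compat1 S X Y) :
    Compat1 S.refl Y.refl X.refl := by
  cases X with
  | n a =>
    cases Y with
    | n b => trivial
    | E j =>
      intro x hx hex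
      have h1 := h (-x) (by omega) hex
      omega
    | L l =>
      intro x hx hex
      have h1 := h (-x) (by omega) hex
      omega
  | E j =>
    cases Y with
    | n b =>
      intro x hx hex
      have h1 := h (-x) (by omega) hex
      omega
    | E j' =>
      have h' : j + 1 ≤ j' := h
      show -j' + 1 ≤ -j
      omega
    | L l =>
      have h' : j + 2 ≤ l ∨ (l = j + 1 ∧ ¬ S.ex (2 * j + 1)) := h
      show (-l - 1) + 3 ≤ -j ∨ (-j = (-l - 1) + 2 ∧ ¬ S.refl.ex (2 * (-l - 1) + 3))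
      rcases h' with h' | ⟨h1, h2⟩
      · left; omega
      · right
        refine ⟨by omega, ?_⟩
        rw [Refl_ex (b := 2 * j + 1) (by rw [h1]; ring)]
        exact h2
  | U i =>
    cases Y with
    | n b =>
      intro x hx hex
      have h1 := h (-x) (by omega) hex
      omega
    | E j =>
      have h' : i + 3 ≤ j ∨ (j = i + 2 ∧ ¬ S.ex (2 * i + 3)) := h
      show (-j) + 2 ≤ -i - 1 ∨ (-i - 1 = -j + 1 ∧ ¬ S.refl.ex (2 * (-j) + 1))
      rcases h' with h' | ⟨h1, h2⟩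
      · left; omega
      · right
        refine ⟨by omega, ?_⟩
        rw [Refl_ex (b := 2 * i + 3) (by rw [h1]; ring)]
        exact h2
    | L l =>
      have h' : i + 3 ≤ l ∨ (l = i + 2 ∧ ¬ S.ex (2 * i + 3)) := h
      show (-l - 1) + 3 ≤ -i - 1 ∨ (-i - 1 = (-l - 1) + 2 ∧ ¬ S.refl.ex (2 * (-l - 1) + 3))
      rcases h' with h' | ⟨h1, h2⟩
      · left; omega
      · right
        refine ⟨by omega, ?_⟩
        rw [Refl_ex (b := 2 * i + 3) (by rw [h1]; ring)]
        exact h2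

theorem compat2_refl {X : LEnd} {Y : REnd} (h : Compat2 X Y) : Compat2 Y.refl X.refl := by
  cases X with
  | n a =>
    cases Y with
    | n b =>
      have h' : b ≤ a := h
      show 1 - a ≤ 1 - b
      omega
    | E j =>
      have h' : 2 * j + 1 ≤ a := h
      show 1 - a ≤ 2 * (-j)
      omega
    | L l =>
      have h' : 2 * l + 2 ≤ a := h
      show 1 - a ≤ 2 * (-l - 1) + 1
      omega
  | E j =>
    cases Y with
    | n b =>
      have h' : b ≤ 2 * j := h
      show 2 * (-j) + 1 ≤ 1 - b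
      omega
    | E j' =>
      have h' : j' + 1 ≤ j := h
      show -j + 1 ≤ -j'
      omega
    | L l =>
      have h' : l + 2 ≤ j := h
      show -j ≤ (-l - 1) - 1
      omega
  | U i =>
    cases Y with
    | n b =>
      have h' : b ≤ 2 * i + 1 := h
      show 2 * (-i - 1) + 2 ≤ 1 - b
      omega
    | E j =>
      have h' : j ≤ i - 1 := h
      show (-i - 1) + 2 ≤ -j
      omega
    | L l =>
      have h' : l ≤ i - 2 ∨ l = i + 1 := h
      show -i - 1 ≤ (-l - 1) - 2 ∨ -i - 1 = (-l - 1) + 1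
      omega

theorem hx_refl {X : LEnd} {Y : REnd} (h : HX S Y X) : HY S.refl Y.refl X.refl := by
  cases X with
  | n a => trivial
  | E j =>
    intro h1 h2 x hx hex
    rw [rho_refl] at h2 ⊢
    have e : -(2 * (-j) + 1) = 2 * j - 1 := by ring
    refine h ?_ ?_ (-x) ?_ hex
    · exact (Refl_ex e).1 h1
    · rwa [e] at h2
    · omega
  | U i =>
    intro h1 h2 x hx hex
    rw [rho_refl] at h2 ⊢
    have e : -(2 * (-i - 1) + 3) = 2 * i - 1 := by ring
    refine h ?_ ?_ (-x) ?_ hex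
    · exact (Refl_ex e).1 h1
    · rwa [e] at h2
    · omega

theorem hy_refl {X : LEnd} {Y : REnd} (h : HY S X Y) : HX S.refl X.refl Y.refl := by
  cases Y with
  | n a => trivial
  | E j =>
    intro h1 h2 x hx hex
    rw [lam_refl] at h2 ⊢
    have e : -(2 * (-j) - 1) = 2 * j + 1 := by ring
    refine h ?_ ?_ (-x) ?_ hex
    · exact (Refl_ex e).1 h1
    · rwa [e] at h2
    · omega
  | L l =>
    intro h1 h2 x hx hex
    rw [lam_refl] at h2 ⊢
    have e : -(2 * (-l - 1) - 1) = 2 * l + 3 := by ring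
    refine h ?_ ?_ (-x) ?_ hex
    · exact (Refl_ex e).1 h1
    · rwa [e] at h2
    · omega

end Pool.Agent.H.MP_ebc13b_lc.h61b
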