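import Pool.Agent.H.MP_ebc13b_lc.h61b.L2.Low
import Pool.Agent.H.MP_ebc13b_lc.h61b.L2.Refl

/-!
# Level 2: lower bound for the slack of the hits, one-class sets
-/

namespace Pool.Agent.H.MP_ebc13b_lc.h61b

open Finset

variable {S : Sys}

/-- `low3` with `c = 0`: the value is the indicator function of the interval between the outermost
blocks of value `1` minus the indicator functions of the gaps.  In detail:
* ends `n a`, `n b`: the interval `[a, max a b)`.
* ends `U i`, `n b`: `[2 * i - 1, B)` with `B = max b (2 * i + 4)`, minus `[2 * i + 1, 2 * i + 4)`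
  (if `b < 2 * i + 4`, then by `Compat1` no block of `[b, 2 * i + 4)` exists).
* ends `E j`, `n b`: `[2 * j - 1, B)` with `B = max b (2 * j + 2)`, minus `[2 * j, 2 * j + 1)`.
* ends `U i`, `L l`: `[2 * i - 1, 2 * l + 4)` minus `[2 * i + 1, 2 * i + 4)` minus
  `[2 * l - 1, 2 * l + 2)` (if `l = i + 2` these intervals overlap in the block `2 * i + 3`, which does
  not exist).
* ends `U i`, `E j`: `[2 * i - 1, 2 * j + 2)` minus `[2 * i + 1, 2 * i + 4)` minus
  `[2 * j, 2 * j + 1)`.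
* ends `E j`, `E j'`: `[2 * j - 1, 2 * j' + 2)` minus `[2 * j, 2 * j + 1)` minus
  `[2 * j', 2 * j' + 1)`.
The remaining cases are mirror images (`Refl.lean`), or are treated in the same way. -/
theorem low_one (h : S.Ok) {v : ℤ → ℕ} {r : ℤ} (hO : S.Own v r) {X : LEnd} {Y : REnd}
    (hc : Compat1 S X Y) (hv : One S v X Y) : S.Hs v ≤ r + 2 := by
  have k0 : |(0 : ℤ)| ≤ 1 := by norm_num
  have k1 : |(1 : ℤ)| ≤ 1 := by norm_num
  have k2 : |(-1 : ℤ)| ≤ 1 := by norm_num
  cases X with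
  | n a =>
    cases Y with
    | n b =>
      refine low3 h hO (c := 0) (s₁ := 1) (s₂ := 0) (s₃ := 0) (a₁ := a) (b₁ := max a b)
        (a₂ := 0) (b₂ := 0) (a₃ := 0) (b₃ := 0) k1 k0 k0 (le_max_left _ _) (le_refl _)
        (le_refl _) ?_
      intro x hx
      have h1 := hv x hx
      simp only [lam, rho] at h1
      split_ifs <;> omega
    | E j =>
      refine low3 h hO (c := 0) (s₁ := 1) (s₂ := -1) (s₃ := 0) (a₁ := min a (2 * j - 1))
        (b₁ := 2 * j + 2) (a₂ := 2 * j) (b₂ := 2 * j + 1) (a₃ := 0) (b₃ := 0) k1 k2 k0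
        (by omega) (by omega) (le_refl _) ?_
      intro x hx
      have h1 := hv x hx
      have h2 : 2 * j - 1 ≤ x → a ≤ x := fun h3 => hc x h3 hx
      simp only [lam, rho] at h1
      split_ifs <;> omega
    | L l =>
      refine low3 h hO (c := 0) (s₁ := 1) (s₂ := -1) (s₃ := 0) (a₁ := min a (2 * l - 1))
        (b₁ := 2 * l + 4) (a₂ := 2 * l - 1) (b₂ := 2 * l + 2) (a₃ := 0) (b₃ := 0) k1 k2 k0
        (by omega) (by omega) (le_refl _) ?_
      intro x hx
      have h1 := hv x hx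
      have h2 : 2 * l - 1 ≤ x → a ≤ x := fun h3 => hc x h3 hx
      simp only [lam, rho] at h1
      split_ifs <;> omega
  | E j =>
    cases Y with
    | n b =>
      refine low3 h hO (c := 0) (s₁ := 1) (s₂ := -1) (s₃ := 0) (a₁ := 2 * j - 1)
        (b₁ := max b (2 * j + 2)) (a₂ := 2 * j) (b₂ := 2 * j + 1) (a₃ := 0) (b₃ := 0) k1 k2 k0
        (by omega) (by omega) (le_refl _) ?_
      intro x hx
      have h1 := hv x hx
      have h2 : x ≤ 2 * j + 1 → x < b := fun h3 => hc x h3 hx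
      simp only [lam, rho] at h1
      split_ifs <;> omega
    | E j' =>
      have hc' : j + 1 ≤ j' := hc
      refine low3 h hO (c := 0) (s₁ := 1) (s₂ := -1) (s₃ := -1) (a₁ := 2 * j - 1)
        (b₁ := 2 * j' + 2) (a₂ := 2 * j) (b₂ := 2 * j + 1) (a₃ := 2 * j') (b₃ := 2 * j' + 1)
        k1 k2 k2 (by omega) (by omega) (by omega) ?_
      intro x hx
      have h1 := hv x hx
      simp only [lam, rho] at h1
      split_ifs <;> omega
    | L l =>
      have hc' : j + 1 ≤ l := by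
        have h3 : j + 2 ≤ l ∨ (l = j + 1 ∧ ¬ S.ex (2 * j + 1)) := hc
        rcases h3 with h3 | ⟨h3, _⟩ <;> omega
      refine low3 h hO (c := 0) (s₁ := 1) (s₂ := -1) (s₃ := -1) (a₁ := 2 * j - 1)
        (b₁ := 2 * l + 4) (a₂ := 2 * j) (b₂ := 2 * j + 1) (a₃ := 2 * l - 1) (b₃ := 2 * l + 2)
        k1 k2 k2 (by omega) (by omega) (by omega) ?_
      intro x hx
      have h1 := hv x hx
      simp only [lam, rho] at h1
      split_ifs <;> omega
  | U i =>
    cases Y with
    | n b =>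
      refine low3 h hO (c := 0) (s₁ := 1) (s₂ := -1) (s₃ := 0) (a₁ := 2 * i - 1)
        (b₁ := max b (2 * i + 4)) (a₂ := 2 * i + 1) (b₂ := 2 * i + 4) (a₃ := 0) (b₃ := 0)
        k1 k2 k0 (by omega) (by omega) (le_refl _) ?_
      intro x hx
      have h1 := hv x hx
      have h2 : x ≤ 2 * i + 3 → x < b := fun h3 => hc x h3 hx
      simp only [lam, rho] at h1
      split_ifs <;> omega
    | E j =>
      have hc' : i + 2 ≤ j := by
        have h3 : i + 3 ≤ j ∨ (j = i + 2 ∧ ¬ S.ex (2 * i + 3)) := hc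
        rcases h3 with h3 | ⟨h3, _⟩ <;> omega
      refine low3 h hO (c := 0) (s₁ := 1) (s₂ := -1) (s₃ := -1) (a₁ := 2 * i - 1)
        (b₁ := 2 * j + 2) (a₂ := 2 * i + 1) (b₂ := 2 * i + 4) (a₃ := 2 * j) (b₃ := 2 * j + 1)
        k1 k2 k2 (by omega) (by omega) (by omega) ?_
      intro x hx
      have h1 := hv x hx
      simp only [lam, rho] at h1
      split_ifs <;> omega
    | L l =>
      have hc' : i + 2 ≤ l := by
        have h3 : i + 3 ≤ l ∨ (l = i + 2 ∧ ¬ S.ex (2 * i + 3)) := hc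
        rcases h3 with h3 | ⟨h3, _⟩ <;> omega
      refine low3 h hO (c := 0) (s₁ := 1) (s₂ := -1) (s₃ := -1) (a₁ := 2 * i - 1)
        (b₁ := 2 * l + 4) (a₂ := 2 * i + 1) (b₂ := 2 * i + 4) (a₃ := 2 * l - 1)
        (b₃ := 2 * l + 2) k1 k2 k2 (by omega) (by omega) (by omega) ?_
      intro x hx
      have h1 := hv x hx
      have h2 : ¬ (l = i + 2 ∧ x = 2 * i + 3) := by
        rintro ⟨h4, h5⟩
        have h3 : i + 3 ≤ l ∨ (l = i + 2 ∧ ¬ S.ex (2 * i + 3)) := hc
        rcases h3 with h3 | ⟨_, h3⟩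
        · omega
        · exact h3 (h5 ▸ hx)
      simp only [lam, rho] at h1
      split_ifs <;> omega

end Pool.Agent.H.MP_ebc13b_lc.h61b
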