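import Pool.Agent.H.MP_ebc13b_lc.h61b.L2.Low
import Pool.Agent.H.MP_ebc13b_lc.h61b.L2.Refl

/-!
# Level 2: lower bound for the slack of the hits, two-class sets
-/

namespace Pool.Agent.H.MP_ebc13b_lc.h61b

open Finset

variable {S : Sys}

private theorem LowTwo_pair (v : ℤ → ℕ) (a : ℤ) : ∃ s c d : ℤ, |s| ≤ 1 ∧ c ≤ d ∧
    ∀ x, s * (if c ≤ x ∧ x < d then 1 else 0) =
      if (x = a ∨ x = a + 1) ∧ v x = 2 then 1 else 0 := by
  have k0 : |(0 : ℤ)| ≤ 1 := by norm_num
  have k1 : |(1 : ℤ)| ≤ 1 := by norm_num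
  by_cases h1 : v a = 2
  · by_cases h2 : v (a + 1) = 2
    · refine ⟨1, a, a + 2, k1, by omega, fun x => ?_⟩
      by_cases hx : x = a
      · subst hx
        simp [h1]
      · by_cases hx' : x = a + 1
        · subst hx'
          simp [h2]
        · have h3 : ¬ (a ≤ x ∧ x < a + 2) := by omega
          rw [if_neg h3]
          simp [hx, hx']
    · refine ⟨1, a, a + 1, k1, by omega, fun x => ?_⟩
      by_cases hx : x = a
      · subst hx
        simp [h1]
      · by_cases hx' : x = a + 1
        · subst hx'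
          simp [h2]
        · have h3 : ¬ (a ≤ x ∧ x < a + 1) := by omega
          rw [if_neg h3]
          simp [hx, hx']
  · by_cases h2 : v (a + 1) = 2
    · refine ⟨1, a + 1, a + 2, k1, by omega, fun x => ?_⟩
      by_cases hx : x = a
      · subst hx
        simp [h1]
      · by_cases hx' : x = a + 1
        · subst hx'
          simp [h2]
        · have h3 : ¬ (a + 1 ≤ x ∧ x < a + 2) := by omega
          rw [if_neg h3]
          simp [hx, hx']
    · refine ⟨0, 0, 0, k0, le_refl _, fun x => ?_⟩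
      by_cases hx : x = a
      · subst hx
        simp [h1]
      · by_cases hx' : x = a + 1
        · subst hx'
          simp [h2]
        · simp [hx, hx']

private theorem LowTwo_single (v : ℤ → ℕ) (a : ℤ) : ∃ s c d : ℤ, |s| ≤ 1 ∧ c ≤ d ∧
    ∀ x, s * (if c ≤ x ∧ x < d then 1 else 0) = if x = a ∧ v x = 2 then 1 else 0 := by
  have k0 : |(0 : ℤ)| ≤ 1 := by norm_num
  have k1 : |(1 : ℤ)| ≤ 1 := by norm_num
  by_cases h1 : v a = 2
  · refine ⟨1, a, a + 1, k1, by omega, fun x => ?_⟩
    by_cases hx : x = a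
    · subst hx
      simp [h1]
    · have h3 : ¬ (a ≤ x ∧ x < a + 1) := by omega
      rw [if_neg h3]
      simp [hx]
  · refine ⟨0, 0, 0, k0, le_refl _, fun x => ?_⟩
    by_cases hx : x = a
    · subst hx
      simp [h1]
    · simp [hx]

/-- `low3` with `c = 1`: the value is `1` minus the indicator functions of the intervals of zeros plus
the indicator functions of the intervals of twos.  In detail:
* ends `n a`, `n b`: `1` minus `[b, a)`.
* ends `U i`, `n b`, `b ≤ 2 * i + 1`.  If `b ≤ 2 * i - 1`: `1` minus `[b, 2 * i - 1)` minus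
  `[2 * i + 1, 2 * i + 4)`.  If `b ∈ {2 * i, 2 * i + 1}`: zeros: the star of `i + 1`; twos: a subset of
  `{2 * i - 1, 2 * i}`, which is an interval.
* ends `E j`, `n b`, `b ≤ 2 * j`: if `b ≤ 2 * j - 1`: zeros `[b, 2 * j - 1)` and `2 * j`; if
  `b = 2 * j`: zero `2 * j`, and the value of `2 * j - 1` may be `2`.
* ends `U i`, `L l`: `l = i + 1`: zeros: the star of `i + 1`, twos: a subset of `{2 * i - 1, 2 * i}` and
  a subset of `{2 * i + 4, 2 * i + 5}`.  `l ≤ i - 2`: zeros: the stars of `l`, `i + 1` and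
  `[2 * l + 4, 2 * i - 1)` (empty if `l = i - 2`), and if `l = i - 2` the value of the block
  `2 * i - 1 = 2 * l + 3` may be `2` (and `2 * i - 2 = 2 * l + 2` has value `1`): three intervals in
  both cases.
* ends `U i`, `E j`, `j ≤ i - 1`: zeros: `2 * j`, `[2 * j + 2, 2 * i - 1)` and the star of `i + 1`; if
  `j = i - 1` the middle interval is empty and `2 * i - 1 = 2 * j + 1` may have the value `2`.
* ends `E j`, `E j'`, `j' + 1 ≤ j`: zeros: `2 * j'`, `[2 * j' + 2, 2 * j - 1)`, `2 * j`; if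
  `j' = j - 1` the middle interval is empty and `2 * j - 1` may have the value `2`.
The remaining cases are mirror images (`Refl.lean`), or are treated in the same way. -/
theorem low_two (h : S.Ok) {v : ℤ → ℕ} {r : ℤ} (hO : S.Own v r) {X : LEnd} {Y : REnd}
    (hX : X.Val S) (hY : Y.Val S) (hc : Compat2 X Y) (hv : Two S v X Y) : S.Hs v ≤ r + 2 := by
  have k0 : |(0 : ℤ)| ≤ 1 := by norm_num
  have k1 : |(1 : ℤ)| ≤ 1 := by norm_num
  have k2 : |(-1 : ℤ)| ≤ 1 := by norm_num
  cases X with
  | n a =>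
    cases Y with
    | n b =>
      have hc' : b ≤ a := hc
      refine low3 h hO (c := 1) (s₁ := -1) (s₂ := 0) (s₃ := 0) (a₁ := b) (b₁ := a)
        (a₂ := 0) (b₂ := 0) (a₃ := 0) (b₃ := 0) k2 k0 k0 hc' (le_refl _) (le_refl _) ?_
      intro x hx
      have h1 := hv x hx
      simp only [lam, rho] at h1
      split_ifs <;> omega
    | E j =>
      have hc' : 2 * j + 1 ≤ a := hc
      obtain ⟨s, c, d, hs, hcd, hsd⟩ := LowTwo_single v (2 * j + 1)
      refine low3 h hO (c := 1) (s₁ := -1) (s₂ := -1) (s₃ := s) (a₁ := 2 * j) (b₁ := 2 * j + 1)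
        (a₂ := 2 * j + 2) (b₂ := max a (2 * j + 2)) (a₃ := c) (b₃ := d) k2 k2 hs
        (by omega) (by omega) hcd ?_
      intro x hx
      have h1 := hv x hx
      simp only [lam, rho] at h1
      rw [hsd x]
      split_ifs <;> omega
    | L l =>
      have hc' : 2 * l + 2 ≤ a := hc
      obtain ⟨s, c, d, hs, hcd, hsd⟩ := LowTwo_pair v (2 * l + 2)
      refine low3 h hO (c := 1) (s₁ := -1) (s₂ := -1) (s₃ := s) (a₁ := 2 * l - 1)
        (b₁ := 2 * l + 2) (a₂ := 2 * l + 4) (b₂ := max a (2 * l + 4)) (a₃ := c) (b₃ := d)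
        k2 k2 hs (by omega) (by omega) hcd ?_
      intro x hx
      have h1 := hv x hx
      simp only [lam, rho] at h1
      rw [hsd x]
      split_ifs <;> omega
  | E j =>
    cases Y with
    | n b =>
      have hc' : b ≤ 2 * j := hc
      obtain ⟨s, c, d, hs, hcd, hsd⟩ := LowTwo_single v (2 * j - 1)
      refine low3 h hO (c := 1) (s₁ := -1) (s₂ := -1) (s₃ := s) (a₁ := min b (2 * j - 1))
        (b₁ := 2 * j - 1) (a₂ := 2 * j) (b₂ := 2 * j + 1) (a₃ := c) (b₃ := d) k2 k2 hs
        (by omega) (by omega) hcd ?_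
      intro x hx
      have h1 := hv x hx
      simp only [lam, rho] at h1
      rw [hsd x]
      split_ifs <;> omega
    | E j' =>
      have hc' : j' + 1 ≤ j := hc
      by_cases hj : j' = j - 1
      · obtain ⟨s, c, d, hs, hcd, hsd⟩ := LowTwo_single v (2 * j - 1)
        refine low3 h hO (c := 1) (s₁ := -1) (s₂ := -1) (s₃ := s) (a₁ := 2 * j')
          (b₁ := 2 * j' + 1) (a₂ := 2 * j) (b₂ := 2 * j + 1) (a₃ := c) (b₃ := d) k2 k2 hs
          (by omega) (by omega) hcd ?_
        intro x hx
        have h1 := hv x hx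
        simp only [lam, rho] at h1
        rw [hsd x]
        split_ifs <;> omega
      · refine low3 h hO (c := 1) (s₁ := -1) (s₂ := -1) (s₃ := -1) (a₁ := 2 * j')
          (b₁ := 2 * j' + 1) (a₂ := 2 * j) (b₂ := 2 * j + 1) (a₃ := 2 * j' + 2)
          (b₃ := 2 * j - 1) k2 k2 k2 (by omega) (by omega) (by omega) ?_
        intro x hx
        have h1 := hv x hx
        simp only [lam, rho] at h1
        split_ifs <;> omega
    | L l =>
      have hc' : l + 2 ≤ j := hc
      by_cases hj : j = l + 2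
      · obtain ⟨s, c, d, hs, hcd, hsd⟩ := LowTwo_single v (2 * j - 1)
        refine low3 h hO (c := 1) (s₁ := -1) (s₂ := -1) (s₃ := s) (a₁ := 2 * l - 1)
          (b₁ := 2 * l + 2) (a₂ := 2 * j) (b₂ := 2 * j + 1) (a₃ := c) (b₃ := d) k2 k2 hs
          (by omega) (by omega) hcd ?_
        intro x hx
        have h1 := hv x hx
        simp only [lam, rho] at h1
        rw [hsd x]
        split_ifs <;> omega
      · refine low3 h hO (c := 1) (s₁ := -1) (s₂ := -1) (s₃ := -1) (a₁ := 2 * l - 1)
          (b₁ := 2 * l + 2) (a₂ := 2 * j) (b₂ := 2 * j + 1) (a₃ := 2 * l + 4)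
          (b₃ := 2 * j - 1) k2 k2 k2 (by omega) (by omega) (by omega) ?_
        intro x hx
        have h1 := hv x hx
        simp only [lam, rho] at h1
        split_ifs <;> omega
  | U i =>
    cases Y with
    | n b =>
      have hc' : b ≤ 2 * i + 1 := hc
      obtain ⟨s, c, d, hs, hcd, hsd⟩ := LowTwo_pair v (2 * i - 1)
      refine low3 h hO (c := 1) (s₁ := -1) (s₂ := -1) (s₃ := s) (a₁ := min b (2 * i - 1))
        (b₁ := 2 * i - 1) (a₂ := 2 * i + 1) (b₂ := 2 * i + 4) (a₃ := c) (b₃ := d) k2 k2 hs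
        (by omega) (by omega) hcd ?_
      intro x hx
      have h1 := hv x hx
      simp only [lam, rho] at h1
      rw [hsd x]
      split_ifs <;> omega
    | E j =>
      have hc' : j ≤ i - 1 := hc
      by_cases hj : j = i - 1
      · obtain ⟨s, c, d, hs, hcd, hsd⟩ := LowTwo_single v (2 * i - 1)
        refine low3 h hO (c := 1) (s₁ := -1) (s₂ := -1) (s₃ := s) (a₁ := 2 * j)
          (b₁ := 2 * j + 1) (a₂ := 2 * i + 1) (b₂ := 2 * i + 4) (a₃ := c) (b₃ := d) k2 k2 hs
          (by omega) (by omega) hcd ?_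
        intro x hx
        have h1 := hv x hx
        simp only [lam, rho] at h1
        rw [hsd x]
        split_ifs <;> omega
      · refine low3 h hO (c := 1) (s₁ := -1) (s₂ := -1) (s₃ := -1) (a₁ := 2 * j)
          (b₁ := 2 * j + 1) (a₂ := 2 * i + 1) (b₂ := 2 * i + 4) (a₃ := 2 * j + 2)
          (b₃ := 2 * i - 1) k2 k2 k2 (by omega) (by omega) (by omega) ?_
        intro x hx
        have h1 := hv x hx
        simp only [lam, rho] at h1
        split_ifs <;> omega
    | L l =>
      have hc' : l ≤ i - 2 ∨ l = i + 1 := hc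
      by_cases hl : l = i + 1
      · obtain ⟨s, c, d, hs, hcd, hsd⟩ := LowTwo_pair v (2 * i - 1)
        obtain ⟨s', c', d', hs', hcd', hsd'⟩ := LowTwo_pair v (2 * i + 4)
        refine low3 h hO (c := 1) (s₁ := -1) (s₂ := s) (s₃ := s') (a₁ := 2 * i + 1)
          (b₁ := 2 * i + 4) (a₂ := c) (b₂ := d) (a₃ := c') (b₃ := d') k2 hs hs'
          (by omega) hcd hcd' ?_
        intro x hx
        have h1 := hv x hx
        simp only [lam, rho] at h1
        rw [hsd x, hsd' x]
        split_ifs <;> omega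
      · by_cases hj : l = i - 2
        · obtain ⟨s, c, d, hs, hcd, hsd⟩ := LowTwo_single v (2 * i - 1)
          refine low3 h hO (c := 1) (s₁ := -1) (s₂ := -1) (s₃ := s) (a₁ := 2 * l - 1)
            (b₁ := 2 * l + 2) (a₂ := 2 * i + 1) (b₂ := 2 * i + 4) (a₃ := c) (b₃ := d) k2 k2 hs
            (by omega) (by omega) hcd ?_
          intro x hx
          have h1 := hv x hx
          simp only [lam, rho] at h1
          rw [hsd x]
          split_ifs <;> omega
        · refine low3 h hO (c := 1) (s₁ := -1) (s₂ := -1) (s₃ := -1) (a₁ := 2 * l - 1)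
            (b₁ := 2 * l + 2) (a₂ := 2 * i + 1) (b₂ := 2 * i + 4) (a₃ := 2 * l + 4)
            (b₃ := 2 * i - 1) k2 k2 k2 (by omega) (by omega) (by omega) ?_
          intro x hx
          have h1 := hv x hx
          simp only [lam, rho] at h1
          split_ifs <;> omega

end Pool.Agent.H.MP_ebc13b_lc.h61b
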