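import Pool.Agent.H.MP_ebc13b_lc.h61b.L2.EndU
import Pool.Agent.H.MP_ebc13b_lc.h61b.L2.Refl

/-!
# Level 2: special right ends (mirror images of `EndU.lean`)
-/

namespace Pool.Agent.H.MP_ebc13b_lc.h61b

open Finset

variable {S : Sys}

/-- **The end `L l`** (gap = star of the hub `l`; reflected blocks `2 * l + 2`, `2 * l + 3`): apply
`endU` to `S.refl`, `fun x => v (-x)` and `i = -l - 1`, and translate back with `mem_refl`,
`w_refl`. -/
theorem endL (h : S.Ok) {v : ℤ → ℕ} {l : ℤ} (hl : S.ex (2 * l + 1))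
    (h0 : ∀ x, (x = 2 * l - 1 ∨ x = 2 * l ∨ x = 2 * l + 1) → S.ex x → v x = 0)
    (hx : S.ex (2 * l + 3) → ∀ x, (x = 2 * l + 4 ∨ x = 2 * l + 5) → S.ex x → v x = 0) :
    (∀ p ∈ S.P, 2 * l - 1 ≤ S.t p → S.t p < 2 * l + 4 → S.w v p = 0) ∨
    (∃ q ∈ S.P, S.w v q = 0 ∧ 2 * l - 3 ≤ S.t q ∧ S.t q ≤ 2 * l + 3 ∧
      (q = l + 1 ∨ q = l ∨ (q = l - 1 ∧ S.ex (2 * l - 1)))) := by
  have e1 : ∀ x, S.refl.ex x ↔ S.ex (-x) := fun x => Iff.rfl
  have e2 : ∀ p, S.refl.t p = -S.t (-p) := fun p => rfl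
  have key := endU (S := S.refl) (ok_refl h) (v := fun x => v (-x)) (i := -l - 1)
    (by rw [e1]; convert hl using 1; ring)
    (by
      intro x hx' hex
      rw [e1] at hex
      exact h0 (-x) (by omega) hex)
    (by
      intro hex x hx' hex'
      rw [e1] at hex hex'
      refine hx ?_ (-x) (by omega) hex'
      convert hex using 1
      ring)
  rcases key with key | ⟨q, hq, hw, h1, h2, h3⟩
  · left
    intro p hp hp1 hp2
    have := key (-p) (by rw [mem_refl, neg_neg]; exact hp) (by rw [e2, neg_neg]; omega)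
      (by rw [e2, neg_neg]; omega)
    rwa [w_refl, neg_neg] at this
  · right
    rw [e2] at h1 h2
    rw [mem_refl] at hq
    rw [w_refl] at hw
    refine ⟨-q, hq, hw, by omega, by omega, ?_⟩
    rcases h3 with h3 | h3 | ⟨h3, h4⟩
    · left; omega
    · right; left; omega
    · right; right
      refine ⟨by omega, ?_⟩
      rw [e1] at h4
      convert h4 using 1
      ring

/-- **The end `E j` on the right** (gap = block `2 * j`; reflected block `2 * j + 1`): apply `endE` to
the mirror image. -/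
theorem endE' (h : S.Ok) {v : ℤ → ℕ} {j : ℤ} (hj : S.ex (2 * j)) (h0 : v (2 * j) = 0)
    (hx : S.ex (2 * j + 1) → ∀ x, (x = 2 * j + 2 ∨ x = 2 * j + 3) → S.ex x → v x = 0) :
    (∀ p ∈ S.P, 2 * j ≤ S.t p → S.t p < 2 * j + 2 → S.w v p = 0) ∨
    (j ∈ S.P ∧ S.w v j = 0) := by
  have e1 : ∀ x, S.refl.ex x ↔ S.ex (-x) := fun x => Iff.rfl
  have e2 : ∀ p, S.refl.t p = -S.t (-p) := fun p => rfl
  have key := endE (S := S.refl) (ok_refl h) (v := fun x => v (-x)) (j := -j)
    (by rw [e1]; convert hj using 1; ring)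
    (by
      show v (-(2 * -j)) = 0
      convert h0 using 2
      ring)
    (by
      intro hex x hx' hex'
      rw [e1] at hex hex'
      refine hx ?_ (-x) (by omega) hex'
      convert hex using 1
      ring)
  rcases key with key | ⟨hq, hw⟩
  · left
    intro p hp hp1 hp2
    have := key (-p) (by rw [mem_refl, neg_neg]; exact hp) (by rw [e2, neg_neg]; omega)
      (by rw [e2, neg_neg]; omega)
    rwa [w_refl, neg_neg] at this
  · right
    rw [mem_refl, neg_neg] at hq
    rw [w_refl, neg_neg] at hw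
    exact ⟨hq, hw⟩

end Pool.Agent.H.MP_ebc13b_lc.h61b
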