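import Pool.Agent.H.MP_ebc13b_lc.h61b.L2.Asm
import Pool.Agent.H.MP_ebc13b_lc.h61b.L2.EndL

/-!
# Level 2: rows of one-class sets with an end `E`
-/

namespace Pool.Agent.H.MP_ebc13b_lc.h61b

open Finset

variable {S : Sys}

/-- A slot whose hit has the value zero has `w = 0`. -/
private theorem OneUE_w0 (h : S.Ok) {v : ℤ → ℕ} {p : ℤ} (hp : p ∈ S.P) (h0 : v (S.t p) = 0) :
    S.w v p = 0 := by
  have h1 := w_le (v := v) (h.tO p hp)
  omega

/-- The mass of an interval is at most the left hand side of the row plus the mass of two gaps. -/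
private theorem OneUE_mass (h : S.Ok) {v : ℤ → ℕ} {A B a b c d : ℤ}
    (hv : ∀ x, S.ex x → A ≤ x → x < B → ¬ (a ≤ x ∧ x < b) → ¬ (c ≤ x ∧ x < d) → 1 ≤ v x) :
    S.m A B ≤ ∑ x ∈ Icc (-S.K) S.K, (v x : ℝ) * S.z x + S.m a b + S.m c d := by
  rw [← sum_ind h (a := A), ← sum_ind h (a := a), ← sum_ind h (a := c), ← sum_add_distrib,
    ← sum_add_distrib]
  refine sum_le_sum fun x _ => ?_
  have hz := h.z0 x
  have hvz : 0 ≤ (v x : ℝ) * S.z x := mul_nonneg (Nat.cast_nonneg _) hz
  by_cases hx : S.ex x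
  · by_cases h1 : A ≤ x ∧ x < B
    · by_cases h2 : a ≤ x ∧ x < b
      · rw [if_pos h1, if_pos h2]
        split_ifs <;> linarith
      · by_cases h3 : c ≤ x ∧ x < d
        · rw [if_pos h1, if_neg h2, if_pos h3]
          linarith
        · rw [if_pos h1, if_neg h2, if_neg h3]
          have h4 : (1 : ℝ) ≤ (v x : ℝ) := by exact_mod_cast hv x hx h1.1 h1.2 h2 h3
          nlinarith
    · rw [if_neg h1]
      split_ifs <;> linarith
  · rw [h.zex x hx]
    simp

private theorem OneUE_one (h : S.Ok) (j : ℤ) : S.m (2 * j) (2 * j + 1) ≤ 1 + S.ε := by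
  rw [m_one]
  have h1 := h.star j
  have h2 := h.z0 (2 * j - 1)
  have h3 := h.z0 (2 * j + 1)
  linarith

private theorem OneUE_gap (h : S.Ok) (i : ℤ) : S.m (2 * i + 1) (2 * i + 4) ≤ 1 + S.ε := by
  have h1 := star_le h (i + 1)
  have e1 : 2 * (i + 1) - 1 = 2 * i + 1 := by ring
  have e2 : 2 * (i + 1) + 2 = 2 * i + 4 := by ring
  rwa [e1, e2] at h1

private theorem OneUE_nil (a : ℤ) : S.m a a = 0 := by
  simp [Sys.m]

/-- `v = 1` on the existing blocks of `{2 * i - 1, 2 * i}`, `[2 * i + 4, 2 * j)` and `{2 * j + 1}`,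
and `0` elsewhere.  Use `endU` and `endE'`, and `asm1` with
`A = 2 * i + 4` or (second alternative, slot `q`) `A = 2 * i - 1`,
`B = 2 * j` or (second alternative, slot `j`) `B = 2 * j + 2`.
`q ≠ j`: `q ∈ {i, i + 1}` or `q = i + 2` and `2 * i + 3` exists, whereas `j ≥ i + 3` or `j = i + 2`
and `2 * i + 3` does not exist.  The hit of `q` is `≤ 2 * i + 5 < 2 * j` if `j ≥ i + 3`, and
`≤ 2 * i + 3 < 2 * j` if `j = i + 2`.  The hit of `j` exists and is `≥ 2 * j - 1`, so `≥ 2 * i + 4`.
The gaps are the star of `i + 1` and the block `2 * j`. -/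
theorem one_UE (h : S.Ok) {v : ℤ → ℕ} {r : ℤ} (hO : S.Own v r) {i j : ℤ}
    (hi : S.ex (2 * i + 1)) (hj : S.ex (2 * j))
    (hc : i + 3 ≤ j ∨ (j = i + 2 ∧ ¬ S.ex (2 * i + 3)))
    (hv : One S v (.U i) (.E j)) : S.Row v r := by
  have hij : i + 2 ≤ j := by omega
  have hv0 : ∀ x, S.ex x → (x < 2 * i - 1 ∨ (2 * i + 1 ≤ x ∧ x < 2 * i + 4) ∨ x = 2 * j ∨
      2 * j + 2 ≤ x) → v x = 0 := by
    intro x hx hx2
    refine (hv x hx).1 ?_
    simp only [lam, rho]
    omega
  have hv1 : ∀ x, S.ex x → v x ≤ 1 := by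
    intro x hx
    by_cases h1 : lam (.U i) x ∨ rho (.E j) x
    · rw [(hv x hx).1 h1]
      exact Nat.zero_le _
    · push Not at h1
      rw [(hv x hx).2 h1.1 h1.2]
  have hv2 : ∀ x, S.ex x → 2 * i - 1 ≤ x → x < 2 * j + 2 → ¬ (2 * i + 1 ≤ x ∧ x < 2 * i + 4) →
      ¬ (2 * j ≤ x ∧ x < 2 * j + 1) → 1 ≤ v x := by
    intro x hx h1 h2 h3 h4
    refine le_of_eq ((hv x hx).2 ?_ ?_).symm
    · simp only [lam]
      omega
    · simp only [rho]
      omega
  have hw1 : ∀ p ∈ S.P, S.w v p ≤ 1 := fun p hp =>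
    (w_le (h.tO p hp)).trans (hv1 _ (t_range h hp).2.2)
  have g1 := OneUE_gap h i
  have g2 := OneUE_one h j
  have tj : j ∈ S.P → 2 * i + 4 ≤ S.t j ∧ S.t j < 2 * j + 2 := by
    intro hjP
    obtain ⟨h1, h2, h3⟩ := t_range h hjP
    refine ⟨?_, by omega⟩
    rcases hc with hc | ⟨hc, hc'⟩
    · omega
    · by_contra h4
      apply hc'
      have e : 2 * i + 3 = S.t j := by omega
      rw [e]
      exact h3
  have tq : ∀ q ∈ S.P, (q = i ∨ q = i + 1 ∨ (q = i + 2 ∧ S.ex (2 * i + 3))) →
      S.t q < 2 * j ∧ q ≠ j := by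
    intro q hq hq3
    obtain ⟨h1, h2, h3⟩ := t_range h hq
    rcases hc with hc | ⟨hc, hc'⟩
    · rcases hq3 with hq3 | hq3 | ⟨hq3, _⟩ <;> omega
    · rcases hq3 with hq3 | hq3 | ⟨hq3, hq4⟩
      · omega
      · omega
      · exact absurd hq4 hc'
  rcases endU h hi (fun x hx hx2 => hv0 x hx2 (by omega)) (fun _ x hx hx2 => hv0 x hx2 (by omega))
    with hL | ⟨q, hqP, hqw, hq1, hq2, hq3⟩
  · rcases endE' h hj (hv0 _ hj (by omega)) (fun _ x hx hx2 => hv0 x hx2 (by omega))
      with hR | ⟨hjP, hjw⟩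
    · refine asm1 h hO (A := 2 * i + 4) (B := 2 * j) (Q := ∅) (by omega) ?_ hw1 (by simp)
        (by simp) (by simp) ?_
      · intro p hp hp2
        have h3 := (t_range h hp).2.2
        by_cases h4 : S.t p < 2 * i - 1 ∨ 2 * j + 2 ≤ S.t p
        · exact OneUE_w0 h hp (hv0 _ h3 (by omega))
        · rcases hp2 with hp2 | hp2
          · exact hL p hp (by omega) hp2
          · exact hR p hp hp2 (by omega)
      · have := OneUE_mass h (v := v) (A := 2 * i + 4) (B := 2 * j) (a := 0) (b := 0) (c := 0)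
          (d := 0) (fun x hx h1 h2 _ _ => hv2 x hx (by omega) (by omega) (by omega) (by omega))
        rw [OneUE_nil] at this
        simp only [card_empty, Nat.cast_zero, zero_mul]
        linarith
    · have htj := tj hjP
      refine asm1 h hO (A := 2 * i + 4) (B := 2 * j + 2) (Q := {j}) (by omega) ?_ hw1
        (by simpa using hjP) (by simp) ?_ ?_
      · intro p hp hp2
        have h3 := (t_range h hp).2.2
        by_cases h4 : S.t p < 2 * i - 1 ∨ 2 * j + 2 ≤ S.t p
        · exact OneUE_w0 h hp (hv0 _ h3 (by omega))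
        · exact hL p hp (by omega) (by omega)
      · intro q hq
        rw [mem_singleton] at hq
        subst hq
        exact ⟨hjw, htj.1, htj.2⟩
      · have := OneUE_mass h (v := v) (A := 2 * i + 4) (B := 2 * j + 2) (a := 2 * j)
          (b := 2 * j + 1) (c := 0) (d := 0)
          (fun x hx h1 h2 h3 _ => hv2 x hx (by omega) (by omega) (by omega) h3)
        rw [OneUE_nil] at this
        simp only [card_singleton, Nat.cast_one, one_mul]
        linarith
  · have htq := tq q hqP hq3
    rcases endE' h hj (hv0 _ hj (by omega)) (fun _ x hx hx2 => hv0 x hx2 (by omega))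
      with hR | ⟨hjP, hjw⟩
    · refine asm1 h hO (A := 2 * i - 1) (B := 2 * j) (Q := {q}) (by omega) ?_ hw1
        (by simpa using hqP) (by simp) ?_ ?_
      · intro p hp hp2
        have h3 := (t_range h hp).2.2
        by_cases h4 : S.t p < 2 * i - 1 ∨ 2 * j + 2 ≤ S.t p
        · exact OneUE_w0 h hp (hv0 _ h3 (by omega))
        · exact hR p hp (by omega) (by omega)
      · intro q' hq'
        rw [mem_singleton] at hq'
        subst hq'
        exact ⟨hqw, hq1, htq.1⟩
      · have := OneUE_mass h (v := v) (A := 2 * i - 1) (B := 2 * j) (a := 2 * i + 1)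
          (b := 2 * i + 4) (c := 0) (d := 0)
          (fun x hx h1 h2 h3 _ => hv2 x hx (by omega) (by omega) h3 (by omega))
        rw [OneUE_nil] at this
        simp only [card_singleton, Nat.cast_one, one_mul]
        linarith
    · have htj := tj hjP
      refine asm1 h hO (A := 2 * i - 1) (B := 2 * j + 2) (Q := {q, j}) (by omega) ?_ hw1
        ?_ card_le_two ?_ ?_
      · intro p hp hp2
        exact OneUE_w0 h hp (hv0 _ (t_range h hp).2.2 (by omega))
      · intro x hx
        rw [mem_insert, mem_singleton] at hx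
        rcases hx with rfl | rfl
        · exact hqP
        · exact hjP
      · intro x hx
        rw [mem_insert, mem_singleton] at hx
        rcases hx with rfl | rfl
        · exact ⟨hqw, hq1, by omega⟩
        · exact ⟨hjw, by omega, htj.2⟩
      · have := OneUE_mass h (v := v) (A := 2 * i - 1) (B := 2 * j + 2) (a := 2 * i + 1)
          (b := 2 * i + 4) (c := 2 * j) (d := 2 * j + 1)
          (fun x hx h1 h2 h3 h4 => hv2 x hx h1 h2 h3 h4)
        rw [card_pair htq.2]
        push_cast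
        linarith

/-- `v = 1` on the existing blocks of `{2 * j - 1}`, `[2 * j + 1, 2 * j')` and `{2 * j' + 1}`, and
`0` elsewhere, `j < j'`.  Use `endE` for `j` and `endE'` for `j'`, and `asm1` with
`A = 2 * j + 1` or (slot `j`) `A = 2 * j - 1`, `B = 2 * j'` or (slot `j'`) `B = 2 * j' + 2`. -/
theorem one_EE (h : S.Ok) {v : ℤ → ℕ} {r : ℤ} (hO : S.Own v r) {j j' : ℤ}
    (hj : S.ex (2 * j)) (hj' : S.ex (2 * j')) (hc : j + 1 ≤ j')
    (hv : One S v (.E j) (.E j')) : S.Row v r := by
  have hv0 : ∀ x, S.ex x → (x < 2 * j - 1 ∨ x = 2 * j ∨ x = 2 * j' ∨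
      2 * j' + 2 ≤ x) → v x = 0 := by
    intro x hx hx2
    refine (hv x hx).1 ?_
    simp only [lam, rho]
    omega
  have hv1 : ∀ x, S.ex x → v x ≤ 1 := by
    intro x hx
    by_cases h1 : lam (.E j) x ∨ rho (.E j') x
    · rw [(hv x hx).1 h1]
      exact Nat.zero_le _
    · push Not at h1
      rw [(hv x hx).2 h1.1 h1.2]
  have hv2 : ∀ x, S.ex x → 2 * j - 1 ≤ x → x < 2 * j' + 2 → ¬ (2 * j ≤ x ∧ x < 2 * j + 1) →
      ¬ (2 * j' ≤ x ∧ x < 2 * j' + 1) → 1 ≤ v x := by
    intro x hx h1 h2 h3 h4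
    refine le_of_eq ((hv x hx).2 ?_ ?_).symm
    · simp only [lam]
      omega
    · simp only [rho]
      omega
  have hw1 : ∀ p ∈ S.P, S.w v p ≤ 1 := fun p hp =>
    (w_le (h.tO p hp)).trans (hv1 _ (t_range h hp).2.2)
  have g1 := OneUE_one h j
  have g2 := OneUE_one h j'
  rcases endE h hj (hv0 _ hj (by omega)) (fun _ x hx hx2 => hv0 x hx2 (by omega))
    with hL | ⟨hjP, hjw⟩
  · rcases endE' h hj' (hv0 _ hj' (by omega)) (fun _ x hx hx2 => hv0 x hx2 (by omega))
      with hR | ⟨hjP', hjw'⟩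
    · refine asm1 h hO (A := 2 * j + 1) (B := 2 * j') (Q := ∅) (by omega) ?_ hw1 (by simp)
        (by simp) (by simp) ?_
      · intro p hp hp2
        have h3 := (t_range h hp).2.2
        by_cases h4 : S.t p < 2 * j - 1 ∨ 2 * j' + 2 ≤ S.t p
        · exact OneUE_w0 h hp (hv0 _ h3 (by omega))
        · rcases hp2 with hp2 | hp2
          · exact hL p hp (by omega) hp2
          · exact hR p hp hp2 (by omega)
      · have := OneUE_mass h (v := v) (A := 2 * j + 1) (B := 2 * j') (a := 0) (b := 0) (c := 0)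
          (d := 0) (fun x hx h1 h2 _ _ => hv2 x hx (by omega) (by omega) (by omega) (by omega))
        rw [OneUE_nil] at this
        simp only [card_empty, Nat.cast_zero, zero_mul]
        linarith
    · obtain ⟨t1, t2, -⟩ := t_range h hjP'
      refine asm1 h hO (A := 2 * j + 1) (B := 2 * j' + 2) (Q := {j'}) (by omega) ?_ hw1
        (by simpa using hjP') (by simp) ?_ ?_
      · intro p hp hp2
        have h3 := (t_range h hp).2.2
        by_cases h4 : S.t p < 2 * j - 1 ∨ 2 * j' + 2 ≤ S.t p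
        · exact OneUE_w0 h hp (hv0 _ h3 (by omega))
        · exact hL p hp (by omega) (by omega)
      · intro q hq
        rw [mem_singleton] at hq
        subst hq
        exact ⟨hjw', by omega, by omega⟩
      · have := OneUE_mass h (v := v) (A := 2 * j + 1) (B := 2 * j' + 2) (a := 2 * j')
          (b := 2 * j' + 1) (c := 0) (d := 0)
          (fun x hx h1 h2 h3 _ => hv2 x hx (by omega) (by omega) (by omega) h3)
        rw [OneUE_nil] at this
        simp only [card_singleton, Nat.cast_one, one_mul]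
        linarith
  · obtain ⟨s1, s2, -⟩ := t_range h hjP
    rcases endE' h hj' (hv0 _ hj' (by omega)) (fun _ x hx hx2 => hv0 x hx2 (by omega))
      with hR | ⟨hjP', hjw'⟩
    · refine asm1 h hO (A := 2 * j - 1) (B := 2 * j') (Q := {j}) (by omega) ?_ hw1
        (by simpa using hjP) (by simp) ?_ ?_
      · intro p hp hp2
        have h3 := (t_range h hp).2.2
        by_cases h4 : S.t p < 2 * j - 1 ∨ 2 * j' + 2 ≤ S.t p
        · exact OneUE_w0 h hp (hv0 _ h3 (by omega))
        · exact hR p hp (by omega) (by omega)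
      · intro q hq
        rw [mem_singleton] at hq
        subst hq
        exact ⟨hjw, by omega, by omega⟩
      · have := OneUE_mass h (v := v) (A := 2 * j - 1) (B := 2 * j') (a := 2 * j)
          (b := 2 * j + 1) (c := 0) (d := 0)
          (fun x hx h1 h2 h3 _ => hv2 x hx (by omega) (by omega) h3 (by omega))
        rw [OneUE_nil] at this
        simp only [card_singleton, Nat.cast_one, one_mul]
        linarith
    · obtain ⟨t1, t2, -⟩ := t_range h hjP'
      refine asm1 h hO (A := 2 * j - 1) (B := 2 * j' + 2) (Q := {j, j'}) (by omega) ?_ hw1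
        ?_ card_le_two ?_ ?_
      · intro p hp hp2
        exact OneUE_w0 h hp (hv0 _ (t_range h hp).2.2 (by omega))
      · intro x hx
        rw [mem_insert, mem_singleton] at hx
        rcases hx with rfl | rfl
        · exact hjP
        · exact hjP'
      · intro x hx
        rw [mem_insert, mem_singleton] at hx
        rcases hx with rfl | rfl
        · exact ⟨hjw, by omega, by omega⟩
        · exact ⟨hjw', by omega, by omega⟩
      · have := OneUE_mass h (v := v) (A := 2 * j - 1) (B := 2 * j' + 2) (a := 2 * j)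
          (b := 2 * j + 1) (c := 2 * j') (d := 2 * j' + 1)
          (fun x hx h1 h2 h3 h4 => hv2 x hx h1 h2 h3 h4)
        rw [card_pair (by omega : j ≠ j')]
        push_cast
        linarith

end Pool.Agent.H.MP_ebc13b_lc.h61b
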