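import Pool.Agent.H.MP_ebc13b_lc.h61b.L2.Asm
import Pool.Agent.H.MP_ebc13b_lc.h61b.L2.EndL

/-!
# Level 2: rows of one-class sets with the ends `U i` and `L l`
-/

namespace Pool.Agent.H.MP_ebc13b_lc.h61b

open Finset

variable {S : Sys}

private theorem OneUL_zero {v : ℤ → ℕ} {i l x : ℤ} (hv : One S v (.U i) (.L l)) (hx : S.ex x)
    (h : (x < 2 * i + 4 ∧ x ≠ 2 * i - 1 ∧ x ≠ 2 * i) ∨
      (2 * l - 2 < x ∧ x ≠ 2 * l + 2 ∧ x ≠ 2 * l + 3)) : v x = 0 :=
  (hv x hx).1 (by simpa [lam, rho] using h)

private theorem OneUL_one {v : ℤ → ℕ} {i l x : ℤ} (hv : One S v (.U i) (.L l)) (hx : S.ex x)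
    (h : ¬ (x < 2 * i + 4 ∧ x ≠ 2 * i - 1 ∧ x ≠ 2 * i))
    (h' : ¬ (2 * l - 2 < x ∧ x ≠ 2 * l + 2 ∧ x ≠ 2 * l + 3)) : v x = 1 :=
  (hv x hx).2 (by simpa only [lam] using h) (by simpa only [rho] using h')

private theorem OneUL_le {v : ℤ → ℕ} {i l x : ℤ} (hv : One S v (.U i) (.L l)) (hx : S.ex x) :
    v x ≤ 1 := by
  by_cases h : (x < 2 * i + 4 ∧ x ≠ 2 * i - 1 ∧ x ≠ 2 * i)
  · rw [OneUL_zero hv hx (Or.inl h)]; omega
  · by_cases h' : (2 * l - 2 < x ∧ x ≠ 2 * l + 2 ∧ x ≠ 2 * l + 3)
    · rw [OneUL_zero hv hx (Or.inr h')]; omega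
    · rw [OneUL_one hv hx h h']

private theorem OneUL_core (h : S.Ok) {v : ℤ → ℕ} {r : ℤ} (hO : S.Own v r) {i l : ℤ}
    (hil : i + 2 ≤ l) (hv : One S v (.U i) (.L l)) (CL CR : ℤ → Prop)
    (hne : ∀ q q', CL q → CR q' → q ≠ q')
    (hL : (∀ p ∈ S.P, 2 * i - 1 ≤ S.t p → S.t p < 2 * i + 4 → S.w v p = 0) ∨
      ∃ q ∈ S.P, S.w v q = 0 ∧ 2 * i - 1 ≤ S.t q ∧ S.t q < 2 * l - 1 ∧ CL q)
    (hR : (∀ p ∈ S.P, 2 * l - 1 ≤ S.t p → S.t p < 2 * l + 4 → S.w v p = 0) ∨
      ∃ q ∈ S.P, S.w v q = 0 ∧ 2 * i + 4 ≤ S.t q ∧ S.t q < 2 * l + 4 ∧ CR q) :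
    S.Row v r := by
  classical
  have hwt : ∀ p ∈ S.P, S.w v p ≤ v (S.t p) := fun p hp => w_le (h.tO p hp)
  have hex : ∀ p ∈ S.P, S.ex (S.t p) := fun p hp => (t_range h hp).2.2
  have h1 : ∀ p ∈ S.P, S.w v p ≤ 1 := fun p hp => (hwt p hp).trans (OneUL_le hv (hex p hp))
  have hlo : ∀ p ∈ S.P, S.t p < 2 * i - 1 → S.w v p = 0 := by
    intro p hp hlt
    have h2 := hwt p hp
    rw [OneUL_zero hv (hex p hp) (Or.inl ⟨by omega, by omega, by omega⟩)] at h2
    omega
  have hhi : ∀ p ∈ S.P, 2 * l + 4 ≤ S.t p → S.w v p = 0 := by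
    intro p hp hlt
    have h2 := hwt p hp
    rw [OneUL_zero hv (hex p hp) (Or.inr ⟨by omega, by omega, by omega⟩)] at h2
    omega
  -- mass bound
  have hmass : ∀ A B : ℤ, ∀ eL eR : ℝ, (eL = 0 ∧ 2 * i + 4 ≤ A ∨ eL = 1 ∧ 2 * i - 1 ≤ A) →
      (eR = 0 ∧ B ≤ 2 * l - 1 ∨ eR = 1 ∧ B ≤ 2 * l + 4) →
      S.m A B ≤ ∑ x ∈ Icc (-S.K) S.K, (v x : ℝ) * S.z x + (eL + eR) * (1 + S.ε) := by
    intro A B eL eR hA hB
    have hs1 := star_le h (i + 1)
    have hs2 := star_le h l
    have hs1' : ∑ x ∈ Icc (-S.K) S.K,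
        (if 2 * (i + 1) - 1 ≤ x ∧ x < 2 * (i + 1) + 2 then S.z x else 0) ≤ 1 + S.ε := by
      rw [sum_ind h]; exact hs1
    have hs2' : ∑ x ∈ Icc (-S.K) S.K,
        (if 2 * l - 1 ≤ x ∧ x < 2 * l + 2 then S.z x else 0) ≤ 1 + S.ε := by
      rw [sum_ind h]; exact hs2
    have heL : 0 ≤ eL := by rcases hA with h | h <;> rw [h.1] <;> norm_num
    have heR : 0 ≤ eR := by rcases hB with h | h <;> rw [h.1] <;> norm_num
    have hle : S.m A B ≤ ∑ x ∈ Icc (-S.K) S.K, ((v x : ℝ) * S.z x +
        eL * (if 2 * (i + 1) - 1 ≤ x ∧ x < 2 * (i + 1) + 2 then S.z x else 0) +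
        eR * (if 2 * l - 1 ≤ x ∧ x < 2 * l + 2 then S.z x else 0)) := by
      rw [← sum_ind h]
      refine Finset.sum_le_sum fun x _ => ?_
      have hz := h.z0 x
      by_cases hxe : S.ex x
      · have hvx : (0 : ℝ) ≤ (v x : ℝ) * S.z x := by positivity
        have hg1 : 0 ≤ eL * (if 2 * (i + 1) - 1 ≤ x ∧ x < 2 * (i + 1) + 2 then S.z x else 0) := by
          split_ifs <;> positivity
        have hg2 : 0 ≤ eR * (if 2 * l - 1 ≤ x ∧ x < 2 * l + 2 then S.z x else 0) := by
          split_ifs <;> positivity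
        by_cases hAB : A ≤ x ∧ x < B
        · rw [if_pos hAB]
          by_cases hstar1 : 2 * (i + 1) - 1 ≤ x ∧ x < 2 * (i + 1) + 2
          · have : eL = 1 := by
              rcases hA with h | h
              · omega
              · exact h.1
            rw [if_pos hstar1, this] at *
            linarith
          · by_cases hstar2 : 2 * l - 1 ≤ x ∧ x < 2 * l + 2
            · have : eR = 1 := by
                rcases hB with h | h
                · omega
                · exact h.1
              rw [if_pos hstar2, this] at *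
              linarith
            · have hv1 : v x = 1 := by
                apply OneUL_one hv hxe
                · rcases hA with h | h <;> omega
                · rcases hB with h | h <;> omega
              rw [hv1]
              push_cast
              linarith
        · rw [if_neg hAB]
          linarith
      · have hz0 := h.zex x hxe
        simp [hz0]
    rw [Finset.sum_add_distrib, Finset.sum_add_distrib, ← Finset.mul_sum, ← Finset.mul_sum] at hle
    have e1 := mul_le_mul_of_nonneg_left hs1' heL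
    have e2 := mul_le_mul_of_nonneg_left hs2' heR
    linarith
  rcases hL with hL | ⟨q, hqP, hqw, hq1, hq2, hqC⟩
  · rcases hR with hR | ⟨q', hqP', hqw', hq1', hq2', hqC'⟩
    · by_cases hl : i + 3 ≤ l
      · refine asm1 h hO (A := 2 * i + 4) (B := 2 * l - 1) (by omega) ?_ h1
          (Q := ∅) (Finset.empty_subset _) (by simp) (by simp) ?_
        · intro p hp ht
          rcases ht with ht | ht
          · by_cases h3 : 2 * i - 1 ≤ S.t p
            · exact hL p hp h3 ht
            · exact hlo p hp (by omega)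
          · by_cases h3 : S.t p < 2 * l + 4
            · exact hR p hp ht h3
            · exact hhi p hp (by omega)
        · have := hmass (2 * i + 4) (2 * l - 1) 0 0 (Or.inl ⟨rfl, le_refl _⟩)
            (Or.inl ⟨rfl, le_refl _⟩)
          simpa using this
      · refine row_le_one h hO ?_
        have : ∑ p ∈ S.P, S.w v p = 0 := by
          refine Finset.sum_eq_zero fun p hp => ?_
          by_cases h4 : S.t p < 2 * i + 4
          · by_cases h3 : 2 * i - 1 ≤ S.t p
            · exact hL p hp h3 h4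
            · exact hlo p hp (by omega)
          · by_cases h3 : S.t p < 2 * l + 4
            · exact hR p hp (by omega) h3
            · exact hhi p hp (by omega)
        omega
    · refine asm1 h hO (A := 2 * i + 4) (B := 2 * l + 4) (by omega) ?_ h1
          (Q := {q'}) (by simpa using hqP') (by simp)
          (by intro x hx; rw [Finset.mem_singleton.1 hx]; exact ⟨hqw', hq1', hq2'⟩) ?_
      · intro p hp ht
        rcases ht with ht | ht
        · by_cases h3 : 2 * i - 1 ≤ S.t p
          · exact hL p hp h3 ht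
          · exact hlo p hp (by omega)
        · exact hhi p hp ht
      · have := hmass (2 * i + 4) (2 * l + 4) 0 1 (Or.inl ⟨rfl, le_refl _⟩)
            (Or.inr ⟨rfl, le_refl _⟩)
        simpa using this
  · rcases hR with hR | ⟨q', hqP', hqw', hq1', hq2', hqC'⟩
    · refine asm1 h hO (A := 2 * i - 1) (B := 2 * l - 1) (by omega) ?_ h1
          (Q := {q}) (by simpa using hqP) (by simp)
          (by intro x hx; rw [Finset.mem_singleton.1 hx]; exact ⟨hqw, hq1, hq2⟩) ?_
      · intro p hp ht
        rcases ht with ht | ht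
        · exact hlo p hp ht
        · by_cases h3 : S.t p < 2 * l + 4
          · exact hR p hp ht h3
          · exact hhi p hp (by omega)
      · have := hmass (2 * i - 1) (2 * l - 1) 1 0 (Or.inr ⟨rfl, le_refl _⟩)
            (Or.inl ⟨rfl, le_refl _⟩)
        simpa using this
    · have hqq : q ≠ q' := hne q q' hqC hqC'
      have hcard : ({q, q'} : Finset ℤ).card = 2 := Finset.card_pair hqq
      refine asm1 h hO (A := 2 * i - 1) (B := 2 * l + 4) (by omega) ?_ h1
          (Q := {q, q'}) ?_ (by rw [hcard]) ?_ ?_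
      · intro p hp ht
        rcases ht with ht | ht
        · exact hlo p hp ht
        · exact hhi p hp ht
      · intro x hx
        rcases Finset.mem_insert.1 hx with e | e
        · rw [e]; exact hqP
        · rw [Finset.mem_singleton.1 e]; exact hqP'
      · intro x hx
        rcases Finset.mem_insert.1 hx with e | e
        · rw [e]; exact ⟨hqw, hq1, by omega⟩
        · rw [Finset.mem_singleton.1 e]; exact ⟨hqw', by omega, hq2'⟩
      · have := hmass (2 * i - 1) (2 * l + 4) 1 1 (Or.inr ⟨rfl, le_refl _⟩)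
            (Or.inr ⟨rfl, le_refl _⟩)
        rw [hcard]
        push_cast
        linarith

/-- `v = 1` on the existing blocks of `{2 * i - 1, 2 * i}`, `[2 * i + 4, 2 * l - 1)` and
`{2 * l + 2, 2 * l + 3}`, and `0` elsewhere.  The double-centre case (`l = i + 3` and the blocks
`2 * i + 3`, `2 * i + 5` exist) is excluded here. -/
theorem one_UL (h : S.Ok) {v : ℤ → ℕ} {r : ℤ} (hO : S.Own v r) {i l : ℤ}
    (hi : S.ex (2 * i + 1)) (hl : S.ex (2 * l + 1))
    (hc : i + 3 ≤ l ∨ (l = i + 2 ∧ ¬ S.ex (2 * i + 3)))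
    (hdc : ¬ (l = i + 3 ∧ S.ex (2 * i + 3) ∧ S.ex (2 * i + 5)))
    (hv : One S v (.U i) (.L l)) : S.Row v r := by
  have hil : i + 2 ≤ l := by omega
  have hex : ∀ p ∈ S.P, S.ex (S.t p) := fun p hp => (t_range h hp).2.2
  have hU := endU h (v := v) hi
    (by
      intro x hx hxe
      exact OneUL_zero hv hxe (Or.inl ⟨by omega, by omega, by omega⟩))
    (by
      intro _ x hx hxe
      exact OneUL_zero hv hxe (Or.inl ⟨by omega, by omega, by omega⟩))
  have hR := endL h (v := v) hl
    (by
      intro x hx hxe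
      exact OneUL_zero hv hxe (Or.inr ⟨by omega, by omega, by omega⟩))
    (by
      intro _ x hx hxe
      exact OneUL_zero hv hxe (Or.inr ⟨by omega, by omega, by omega⟩))
  refine OneUL_core h hO hil hv (fun q => q = i ∨ q = i + 1 ∨ (q = i + 2 ∧ S.ex (2 * i + 3)))
    (fun q => q = l + 1 ∨ q = l ∨ (q = l - 1 ∧ S.ex (2 * l - 1))) ?_ ?_ ?_
  · intro q q' hq hq' e
    rcases hc with hc | ⟨hc, hn⟩
    · rcases hq with hq | hq | ⟨hq, hq2⟩
      · rcases hq' with hq' | hq' | ⟨hq', hq2'⟩ <;> omega
      · rcases hq' with hq' | hq' | ⟨hq', hq2'⟩ <;> omega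
      · rcases hq' with hq' | hq' | ⟨hq', hq2'⟩
        · omega
        · omega
        · have hl3 : l = i + 3 := by omega
          refine hdc ⟨hl3, hq2, ?_⟩
          have : 2 * l - 1 = 2 * i + 5 := by omega
          rwa [this] at hq2'
    · rcases hq with hq | hq | ⟨hq, hq2⟩
      · rcases hq' with hq' | hq' | ⟨hq', hq2'⟩ <;> omega
      · rcases hq' with hq' | hq' | ⟨hq', hq2'⟩
        · omega
        · omega
        · have : 2 * l - 1 = 2 * i + 3 := by omega
          rw [this] at hq2'
          exact hn hq2'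
      · exact hn hq2
  · rcases hU with hU | ⟨q, hqP, hqw, hq1, hq2, hqC⟩
    · exact Or.inl hU
    · refine Or.inr ⟨q, hqP, hqw, hq1, ?_, hqC⟩
      have hr := t_range h hqP
      have hx := hr.2.2
      rcases hc with hc | ⟨hc, hn⟩
      · rcases hqC with hq | hq | ⟨hq, hq3⟩
        · omega
        · omega
        · by_contra hcon
          have hl3 : l = i + 3 := by omega
          have ht : S.t q = 2 * i + 5 := by omega
          rw [ht] at hx
          exact hdc ⟨hl3, hq3, hx⟩
      · rcases hqC with hq | hq | ⟨hq, hq3⟩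
        · omega
        · by_contra hcon
          have ht : S.t q = 2 * i + 3 := by omega
          rw [ht] at hx
          exact hn hx
        · exact absurd hq3 hn
  · rcases hR with hR | ⟨q, hqP, hqw, hq1, hq2, hqC⟩
    · exact Or.inl hR
    · refine Or.inr ⟨q, hqP, hqw, ?_, by omega, hqC⟩
      have hr := t_range h hqP
      have hx := hr.2.2
      rcases hc with hc | ⟨hc, hn⟩
      · rcases hqC with hq | hq | ⟨hq, hq3⟩
        · omega
        · omega
        · by_contra hcon
          have hl3 : l = i + 3 := by omega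
          have ht : S.t q = 2 * i + 3 := by omega
          rw [ht] at hx
          have : 2 * l - 1 = 2 * i + 5 := by omega
          rw [this] at hq3
          exact hdc ⟨hl3, hx, hq3⟩
      · rcases hqC with hq | hq | ⟨hq, hq3⟩
        · omega
        · by_contra hcon
          have ht : S.t q = 2 * i + 3 := by omega
          rw [ht] at hx
          exact hn hx
        · have : 2 * l - 1 = 2 * i + 3 := by omega
          rw [this] at hq3
          exact absurd hq3 hn

/-- **The double-centre case.**  `v = 1` on the existing blocks of `{2 * i - 1, 2 * i}`,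
`{2 * i + 4}` and `{2 * i + 8, 2 * i + 9}`, `0` elsewhere.  The gaps are the stars of `i + 1` and
`i + 3`.  The hypotheses `hl`, `hr` say that the demands are met. -/
theorem one_dc (h : S.Ok) {v : ℤ → ℕ} {r : ℤ} (hO : S.Own v r) {i : ℤ}
    (hl : S.Free (i + 1) → (∃ p ∈ S.P, S.t p = 2 * i - 1 ∨ S.t p = 2 * i) →
      i ∈ S.P ∧ S.O i (2 * i + 1))
    (hr : S.Free (i + 3) → (∃ p ∈ S.P, S.t p = 2 * i + 8 ∨ S.t p = 2 * i + 9) →
      i + 4 ∈ S.P ∧ S.O (i + 4) (2 * i + 7))
    (hv : One S v (.U i) (.L (i + 3))) : S.Row v r := by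
  have hex : ∀ p ∈ S.P, S.ex (S.t p) := fun p hp => (t_range h hp).2.2
  refine OneUL_core h hO (by omega) hv (fun q => S.t q ≤ 2 * i + 3)
    (fun q => 2 * i + 5 ≤ S.t q) ?_ ?_ ?_
  · intro q q' hq hq' e
    rw [e] at hq
    omega
  · by_cases hf : S.Free (i + 1)
    · by_cases hh : ∃ p ∈ S.P, S.t p = 2 * i - 1 ∨ S.t p = 2 * i
      · obtain ⟨hiP, hiO⟩ := hl hf hh
        have hr1 := t_range h hiP
        refine Or.inr ⟨i, hiP, ?_, by omega, by omega, by omega⟩
        have h2 := w_le (v := v) hiO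
        rw [OneUL_zero hv hiO.1 (Or.inl ⟨by omega, by omega, by omega⟩)] at h2
        omega
      · refine Or.inl fun p hp h1 h2 => ?_
        exfalso
        have h3 := hf p hp
        apply hh
        refine ⟨p, hp, ?_⟩
        omega
    · unfold Sys.Free at hf
      push Not at hf
      obtain ⟨p, hp, hpt⟩ := hf
      have ht : 2 * i + 1 ≤ S.t p ∧ S.t p ≤ 2 * i + 3 := by
        by_contra hcon
        by_cases e1 : S.t p = 2 * (i + 1) - 1
        · omega
        · by_cases e2 : S.t p = 2 * (i + 1)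
          · omega
          · have := hpt e1 e2
            omega
      refine Or.inr ⟨p, hp, ?_, by omega, by omega, by omega⟩
      have h2 := w_le (v := v) (h.tO p hp)
      rw [OneUL_zero hv (hex p hp) (Or.inl ⟨by omega, by omega, by omega⟩)] at h2
      omega
  · by_cases hf : S.Free (i + 3)
    · by_cases hh : ∃ p ∈ S.P, S.t p = 2 * i + 8 ∨ S.t p = 2 * i + 9
      · obtain ⟨hiP, hiO⟩ := hr hf hh
        have hr1 := t_range h hiP
        refine Or.inr ⟨i + 4, hiP, ?_, by omega, by omega, by omega⟩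
        have h2 := w_le (v := v) hiO
        rw [OneUL_zero hv hiO.1 (Or.inr ⟨by omega, by omega, by omega⟩)] at h2
        omega
      · refine Or.inl fun p hp h1 h2 => ?_
        exfalso
        have h3 := hf p hp
        apply hh
        refine ⟨p, hp, ?_⟩
        omega
    · unfold Sys.Free at hf
      push Not at hf
      obtain ⟨p, hp, hpt⟩ := hf
      have ht : 2 * i + 5 ≤ S.t p ∧ S.t p ≤ 2 * i + 7 := by
        by_contra hcon
        by_cases e1 : S.t p = 2 * (i + 3) - 1
        · omega
        · by_cases e2 : S.t p = 2 * (i + 3)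
          · omega
          · have := hpt e1 e2
            omega
      refine Or.inr ⟨p, hp, ?_, by omega, by omega, by omega⟩
      have h2 := w_le (v := v) (h.tO p hp)
      rw [OneUL_zero hv (hex p hp) (Or.inr ⟨by omega, by omega, by omega⟩)] at h2
      omega

end Pool.Agent.H.MP_ebc13b_lc.h61b
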