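import Pool.Agent.H.MP_ebc13b_lc.h61b.L2.OneUn
import Pool.Agent.H.MP_ebc13b_lc.h61b.L2.OneUL
import Pool.Agent.H.MP_ebc13b_lc.h61b.L2.OneUE
import Pool.Agent.H.MP_ebc13b_lc.h61b.L2.Refl

/-!
# Level 2: rows of one-class sets
-/

namespace Pool.Agent.H.MP_ebc13b_lc.h61b

open Finset

variable {S : Sys}

/-- **Rows of one-class sets.**  Case distinction on the ends: `one_nn`, `one_Un`, `one_En`, the
mirror images of `one_Un`, `one_En` (via `ok_refl`, `own_refl`, `one_refl`, `compat1_refl`,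
`rval_refl`, `row_refl`), `one_UL`, `one_dc`, `one_UE`, the mirror image of `one_UE`, `one_EE`. -/
theorem one_class (h : S.Ok) {v : ℤ → ℕ} {r : ℤ} (hO : S.Own v r) {X : LEnd} {Y : REnd}
    (hX : X.Val S) (hY : Y.Val S) (hc : Compat1 S X Y) (hv : One S v X Y)
    (hdc : ∀ i, X = .U i → Y = .L (i + 3) →
      (S.Free (i + 1) → (∃ p ∈ S.P, S.t p = 2 * i - 1 ∨ S.t p = 2 * i) →
        i ∈ S.P ∧ S.O i (2 * i + 1)) ∧
      (S.Free (i + 3) → (∃ p ∈ S.P, S.t p = 2 * i + 8 ∨ S.t p = 2 * i + 9) →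
        i + 4 ∈ S.P ∧ S.O (i + 4) (2 * i + 7))) :
    S.Row v r := by
  cases X with
  | n a =>
    cases Y with
    | n b => exact one_nn h hO hv
    | E j =>
      exact row_refl.mp (one_En (S := S.refl) (ok_refl h) (own_refl.mpr hO) (j := -j) (b := 1 - a)
        (rval_refl.mpr hY) (compat1_refl hc) (one_refl hv))
    | L l =>
      exact row_refl.mp (one_Un (S := S.refl) (ok_refl h) (own_refl.mpr hO) (i := -l - 1)
        (b := 1 - a) (rval_refl.mpr hY) (compat1_refl hc) (one_refl hv))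
  | E j =>
    cases Y with
    | n b => exact one_En h hO hX hc hv
    | E j' => exact one_EE h hO hX hY hc hv
    | L l =>
      exact row_refl.mp (one_UE (S := S.refl) (ok_refl h) (own_refl.mpr hO) (i := -l - 1)
        (j := -j) (rval_refl.mpr hY) (lval_refl.mpr hX) (compat1_refl hc) (one_refl hv))
  | U i =>
    cases Y with
    | n b => exact one_Un h hO hX hc hv
    | E j => exact one_UE h hO hX hY hc hv
    | L l =>
      by_cases hd : l = i + 3 ∧ S.ex (2 * i + 3) ∧ S.ex (2 * i + 5)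
      · obtain ⟨rfl, -, -⟩ := hd
        exact one_dc h hO (hdc i rfl rfl).1 (hdc i rfl rfl).2 hv
      · exact one_UL h hO hX hY hc hd hv

end Pool.Agent.H.MP_ebc13b_lc.h61b
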