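import Pool.Agent.H.MP_ebc13b_lc.h61b.L2.Asm
import Pool.Agent.H.MP_ebc13b_lc.h61b.L2.Refl

/-!
# Level 2: one star of zeros, values `2` next to it
-/

namespace Pool.Agent.H.MP_ebc13b_lc.h61b

open Finset

variable {S : Sys}

/-- Situation of this file: `v = 0` on the star of `c`, `v ∈ {1, 2}` elsewhere, `2` only on
`2 * c - 3`, `2 * c - 2` (if `2 * c - 1` exists) and on `2 * c + 2`, `2 * c + 3` (if `2 * c + 1`
exists). -/
structure G1h (S : Sys) (v : ℤ → ℕ) (c : ℤ) : Prop where
  h0 : ∀ x, S.ex x → 2 * c - 1 ≤ x → x ≤ 2 * c + 1 → v x = 0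
  h1 : ∀ x, S.ex x → (x < 2 * c - 1 ∨ 2 * c + 1 < x) → v x = 1 ∨ v x = 2
  h2 : ∀ x, S.ex x → v x = 2 → ((x = 2 * c - 3 ∨ x = 2 * c - 2) ∧ S.ex (2 * c - 1)) ∨
    ((x = 2 * c + 2 ∨ x = 2 * c + 3) ∧ S.ex (2 * c + 1))

private theorem G1_sum (h : S.Ok) (a b a1 b1 a2 b2 : ℤ) :
    ∑ x ∈ Icc (-S.K) S.K, ((1 : ℝ) - (if a ≤ x ∧ x < b then 1 else 0)
      + (if a1 ≤ x ∧ x < b1 then 1 else 0) + (if a2 ≤ x ∧ x < b2 then 1 else 0)) * S.z x
      = (S.P.card : ℝ) - S.m a b + S.m a1 b1 + S.m a2 b2 := by
  rw [← sum_ind h (a := a) (b := b), ← sum_ind h (a := a1) (b := b1),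
    ← sum_ind h (a := a2) (b := b2), ← h.tot, ← Finset.sum_sub_distrib,
    ← Finset.sum_add_distrib, ← Finset.sum_add_distrib]
  refine Finset.sum_congr rfl fun x _ => ?_
  split_ifs <;> ring

private theorem G1_w0 (h : S.Ok) {v : ℤ → ℕ} {c : ℤ} (hG : G1h S v c) {q : ℤ} (hq : q ∈ S.P)
    (h1 : 2 * c - 1 ≤ S.t q) (h2 : S.t q ≤ 2 * c + 1) : S.w v q = 0 := by
  have h3 := w_le (v := v) (h.tO q hq)
  rw [hG.h0 _ (t_range h hq).2.2 h1 h2] at h3
  omega

/-- A slot with `w = 2` on the left is `c - 1`, or it is `c - 2` with the hit `2 * c - 3`, and then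
the block `2 * c - 2` does not exist.  In both cases `c` is a slot, or `c + 1` is a slot with the
option `2 * c + 1`.

Proof.  The hit has value `2` (`w ≤ v (t p)`, values at most `2`), so by `h2` and `hp` it is
`2 * c - 3` or `2 * c - 2` and `2 * c - 1` exists; by `t_range`, `p = c - 1`, or `p = c - 2` and
`t p = 2 * c - 3`.
If `p = c - 1` and `c ∉ P`: `2 * c - 1` is not an option of `p` (value `0`), so by `served_left` the
slot `c + 1` has the option `2 * c + 1`.
If `p = c - 2`: `WL`; another option `b ≠ 2 * p + 1` is `2 * c - 4` or `2 * c - 5`, of value `1` by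
`h1`, `h2`, contradicting `w = 2`.  So `2 * c - 2` does not exist and `c ∈ P` or (`2 * c + 1` exists
and `c + 1 ∈ P`); if `c ∉ P` use `served_right` and `c - 1 ∉ P` (the star of `c - 1` contains the
hit `2 * c - 3` of `c - 2`; `one_star`). -/
theorem g1_left (h : S.Ok) {v : ℤ → ℕ} {c : ℤ} (hG : G1h S v c) {p : ℤ} (hp : p ∈ S.P)
    (hw : S.w v p = 2) (hl : S.t p < 2 * c - 1) :
    ((p = c - 1 ∧ (S.t p = 2 * c - 3 ∨ S.t p = 2 * c - 2)) ∨
      (p = c - 2 ∧ S.t p = 2 * c - 3 ∧ ¬ S.ex (2 * c - 2))) ∧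
    (c ∈ S.P ∨ (c + 1 ∈ S.P ∧ S.O (c + 1) (2 * c + 1))) := by
  obtain ⟨r1, r2, r3⟩ := t_range h hp
  have hwle := w_le (v := v) (h.tO p hp)
  rw [hw] at hwle
  have hv2 : v (S.t p) = 2 := by
    rcases hG.h1 _ r3 (Or.inl hl) with h5 | h5
    · omega
    · exact h5
  have hex : (S.t p = 2 * c - 3 ∨ S.t p = 2 * c - 2) ∧ S.ex (2 * c - 1) := by
    rcases hG.h2 _ r3 hv2 with h5 | h5
    · exact h5
    · exfalso
      rcases h5.1 with h6 | h6 <;> omega
  have hv0 : v (2 * c - 1) = 0 := hG.h0 _ hex.2 (by omega) (by omega)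
  by_cases hpc : p = c - 1
  · refine ⟨Or.inl ⟨hpc, hex.1⟩, ?_⟩
    by_cases hc : c ∈ S.P
    · exact Or.inl hc
    · rcases served_left hc (hpc ▸ hp) hex.2 with h5 | h5
      · exfalso
        have h6 := w_le (v := v) h5
        rw [← hpc, hw, hv0] at h6
        omega
      · exact Or.inr h5
  · have ht : S.t p = 2 * c - 3 := by
      rcases hex.1 with h5 | h5 <;> omega
    have hpc2 : p = c - 2 := by omega
    have hcon : ∀ b, b ≠ 2 * p + 1 → S.O p b → False := by
      intro b hb hOb
      obtain ⟨s1, s2, s3⟩ := O_range hOb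
      have h6 := w_le (v := v) hOb
      rw [hw] at h6
      rcases hG.h1 b s3 (Or.inl (by omega)) with h7 | h7
      · omega
      · rcases hG.h2 b s3 h7 with h8 | h8
        · rcases h8.1 with h9 | h9 <;> omega
        · rcases h8.1 with h9 | h9 <;> omega
    rcases h.WL p hp (by omega) with ⟨b, hb, hOb⟩ | ⟨hne, h5⟩
    · exact absurd hOb (fun h6 => hcon b hb h6)
    · have hne' : ¬ S.ex (2 * c - 2) := by
        rwa [show 2 * p + 2 = 2 * c - 2 by omega] at hne
      refine ⟨Or.inr ⟨hpc2, ht, hne'⟩, ?_⟩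
      by_cases hc : c ∈ S.P
      · exact Or.inl hc
      · rcases h5 with h5 | ⟨h5, h6⟩
        · exact absurd (by rwa [show p + 2 = c by omega] at h5) hc
        · rw [show 2 * p + 5 = 2 * c + 1 by omega] at h5
          rw [show p + 3 = c + 1 by omega] at h6
          rcases served_right hc h6 h5 with h7 | ⟨h7, h8⟩
          · exact Or.inr ⟨h6, h7⟩
          · exfalso
            obtain ⟨s1, s2, s3⟩ := t_range h h7
            have := one_star h (j := c - 1) hp h7 (by omega) (by omega) (by omega) (by omega)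
            omega

/-- mirror image of `g1_left` (via `Refl.lean`) -/
theorem g1_right (h : S.Ok) {v : ℤ → ℕ} {c : ℤ} (hG : G1h S v c) {p : ℤ} (hp : p ∈ S.P)
    (hw : S.w v p = 2) (hl : 2 * c + 1 < S.t p) :
    ((p = c + 1 ∧ (S.t p = 2 * c + 3 ∨ S.t p = 2 * c + 2)) ∨
      (p = c + 2 ∧ S.t p = 2 * c + 3 ∧ ¬ S.ex (2 * c + 2))) ∧
    (c ∈ S.P ∨ (c - 1 ∈ S.P ∧ S.O (c - 1) (2 * c - 1))) := by
  have hG' : G1h S.refl (fun x => v (-x)) (-c) := by
    refine ⟨?_, ?_, ?_⟩
    · intro x hx h1 h2
      exact hG.h0 (-x) hx (by omega) (by omega)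
    · intro x hx h1
      exact hG.h1 (-x) hx (by omega)
    · intro x hx h1
      rcases hG.h2 (-x) hx h1 with ⟨h5, h6⟩ | ⟨h5, h6⟩
      · refine Or.inr ⟨by omega, ?_⟩
        change S.ex (-(2 * -c + 1))
        rwa [show -(2 * -c + 1) = 2 * c - 1 by ring]
      · refine Or.inl ⟨by omega, ?_⟩
        change S.ex (-(2 * -c - 1))
        rwa [show -(2 * -c - 1) = 2 * c + 1 by ring]
  have hp' : -p ∈ S.refl.P := by
    rw [mem_refl, neg_neg]
    exact hp
  have hw' : S.refl.w (fun x => v (-x)) (-p) = 2 := by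
    rw [w_refl, neg_neg]
    exact hw
  have ht : S.refl.t (-p) = -S.t p := by
    change -S.t (-(-p)) = -S.t p
    rw [neg_neg]
  obtain ⟨h1, h2⟩ := g1_left (ok_refl h) hG' hp' hw' (by rw [ht]; omega)
  rw [ht] at h1
  constructor
  · rcases h1 with ⟨h3, h4⟩ | ⟨h3, h4, h5⟩
    · left
      constructor <;> omega
    · right
      refine ⟨by omega, by omega, ?_⟩
      change ¬ S.ex (-(2 * -c - 2)) at h5
      rwa [show -(2 * -c - 2) = 2 * c + 2 by ring] at h5
  · rcases h2 with h3 | ⟨h3, h4⟩
    · left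
      rw [mem_refl, neg_neg] at h3
      exact h3
    · right
      rw [mem_refl] at h3
      rw [O_refl] at h4
      rw [show -(-c + 1) = c - 1 by ring] at h3 h4
      rw [show -(2 * -c + 1) = 2 * c - 1 by ring] at h4
      exact ⟨h3, h4⟩

/-- If there are a left slot `p` and a right slot `p'` with `w = 2`, then `c` is a slot and the
left hand side of the row is `> |P|`: `m [t p, t p' + 1) ≥ 2 + 2 * δ` because it contains the three
hits of `p`, `c`, `p'` (`cnt1`), all existing blocks of this interval outside the star of `c` have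
value `2` (if `t p = 2 * c - 3` and `2 * c - 2` exists then `p = c - 1` and `2 * c - 2` is an option of
it; symmetric on the right), the star has mass at most `1 + ε`, and all other blocks outside the
star have value at least `1`.
`c` is a slot: otherwise `c + 1` is a slot with the option `2 * c + 1` of value `0` by `g1_left`, so
`p' ≠ c + 1`, `p' = c + 2` with the hit `2 * c + 3`, which lies in the star of `c + 1`: `one_star`. -/
theorem g1_both (h : S.Ok) {v : ℤ → ℕ} {r : ℤ} (hO : S.Own v r) {c : ℤ} (hG : G1h S v c)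
    {p p' : ℤ} (hp : p ∈ S.P) (hw : S.w v p = 2) (hl : S.t p < 2 * c - 1)
    (hp' : p' ∈ S.P) (hw' : S.w v p' = 2) (hl' : 2 * c + 1 < S.t p') :
    c ∈ S.P ∧ (S.P.card : ℤ) + 1 ≤ r := by
  obtain ⟨hL1, hL2⟩ := g1_left h hG hp hw hl
  obtain ⟨hR1, hR2⟩ := g1_right h hG hp' hw' hl'
  have hc : c ∈ S.P := by
    rcases hL2 with h1 | ⟨h1, h2⟩
    · exact h1
    · exfalso
      have hex := (O_range h2).2.2
      have h3 := w_le (v := v) h2
      rw [hG.h0 _ hex (by omega) (by omega)] at h3
      rcases hR1 with ⟨h4, h5⟩ | ⟨h4, h5, h6⟩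
      · rw [← h4, hw'] at h3
        omega
      · obtain ⟨s1, s2, s3⟩ := t_range h h1
        have := one_star h (j := c + 1) hp' h1 (by omega) (by omega) (by omega) (by omega)
        omega
  refine ⟨hc, ?_⟩
  obtain ⟨c1, c2, c3⟩ := t_range h hc
  obtain ⟨p1, p2, p3⟩ := t_range h hp
  obtain ⟨q1, q2, q3⟩ := t_range h hp'
  -- three hits
  have hN : (3 : ℤ) ≤ S.N (S.t p) (S.t p' + 1) := by
    have hsub : ({p, c, p'} : Finset ℤ) ⊆
        S.P.filter fun q => S.t p ≤ S.t q ∧ S.t q < S.t p' + 1 := by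
      intro q hq
      simp only [Finset.mem_insert, Finset.mem_singleton] at hq
      rw [Finset.mem_filter]
      rcases hq with rfl | rfl | rfl
      · exact ⟨hp, by omega, by omega⟩
      · exact ⟨hc, by omega, by omega⟩
      · exact ⟨hp', by omega, by omega⟩
    have h1 : p ≠ c := by
      rintro rfl
      omega
    have h2 : p ≠ p' := by
      rintro rfl
      omega
    have h3 : c ≠ p' := by
      rintro rfl
      omega
    have hcard : ({p, c, p'} : Finset ℤ).card = 3 := by
      rw [Finset.card_insert_of_notMem (by simp [h1, h2]),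
        Finset.card_insert_of_notMem (by simp [h3]), Finset.card_singleton]
    have := Finset.card_le_card hsub
    rw [hcard] at this
    unfold Sys.N
    exact_mod_cast this
  have hm := h.cnt1 (S.t p) (S.t p' + 1) (by omega)
  have hN' : (3 : ℝ) ≤ (S.N (S.t p) (S.t p' + 1) : ℝ) := by exact_mod_cast hN
  have hs1 := m_split (S := S) (a := S.t p) (b := 2 * c - 1) (c := S.t p' + 1)
    (by omega) (by omega)
  have hs2 := m_split (S := S) (a := 2 * c - 1) (b := 2 * c + 2) (c := S.t p' + 1)
    (by omega) (by omega)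
  have hstar := star_le h c
  -- values
  have hv2 : ∀ x, S.ex x → S.t p ≤ x → x < 2 * c - 1 → 2 ≤ v x := by
    intro x hx h1 h2
    have hOx : S.O p x := by
      by_cases hxt : x = S.t p
      · rw [hxt]
        exact h.tO p hp
      · rcases hL1 with ⟨h4, h5⟩ | ⟨h4, h5, h6⟩
        · have : x = 2 * p := by omega
          exact ⟨hx, Or.inl this⟩
        · exfalso
          apply h6
          rwa [show x = 2 * c - 2 by omega] at hx
    have := w_le (v := v) hOx
    omega
  have hv2' : ∀ x, S.ex x → 2 * c + 2 ≤ x → x < S.t p' + 1 → 2 ≤ v x := by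
    intro x hx h1 h2
    have hOx : S.O p' x := by
      by_cases hxt : x = S.t p'
      · rw [hxt]
        exact h.tO p' hp'
      · rcases hR1 with ⟨h4, h5⟩ | ⟨h4, h5, h6⟩
        · have : x = 2 * p' := by omega
          exact ⟨hx, Or.inl this⟩
        · exfalso
          apply h6
          rwa [show x = 2 * c + 2 by omega] at hx
    have := w_le (v := v) hOx
    omega
  have key := own_mono h hO (g := fun x => (1 : ℝ) - (if 2 * c - 1 ≤ x ∧ x < 2 * c + 2 then 1 else 0)
      + (if S.t p ≤ x ∧ x < 2 * c - 1 then 1 else 0)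
      + (if 2 * c + 2 ≤ x ∧ x < S.t p' + 1 then 1 else 0)) (by
    intro x hx
    by_cases h1 : 2 * c - 1 ≤ x ∧ x < 2 * c + 2
    · rw [if_pos h1, if_neg (by omega), if_neg (by omega)]
      have : (0 : ℝ) ≤ (v x : ℝ) := Nat.cast_nonneg _
      linarith
    · rw [if_neg h1]
      have h1v : 1 ≤ v x := by
        rcases hG.h1 x hx (by omega) with h5 | h5 <;> omega
      by_cases h2 : S.t p ≤ x ∧ x < 2 * c - 1
      · rw [if_pos h2, if_neg (by omega)]
        have := hv2 x hx h2.1 h2.2
        have : (2 : ℝ) ≤ (v x : ℝ) := by exact_mod_cast this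
        linarith
      · rw [if_neg h2]
        by_cases h3 : 2 * c + 2 ≤ x ∧ x < S.t p' + 1
        · rw [if_pos h3]
          have := hv2' x hx h3.1 h3.2
          have : (2 : ℝ) ≤ (v x : ℝ) := by exact_mod_cast this
          linarith
        · rw [if_neg h3]
          have : (1 : ℝ) ≤ (v x : ℝ) := by exact_mod_cast h1v
          linarith)
  rw [G1_sum h] at key
  have hδ := h.δε
  have hδ0 := h.δ0
  have hε0 := h.ε0
  have hfin : (S.P.card : ℝ) < r := by linarith
  have : ((S.P.card : ℤ) : ℝ) < (r : ℝ) := by exact_mod_cast hfin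
  have := Int.cast_lt.1 this
  omega

/-- **One star of zeros.**  Let `n0`, `n2` be the numbers of slots with `w = 0`, `w = 2`;
`∑ w ≤ |P| - n0 + n2`.  There is at most one slot with `w = 2` on the left and at most one on the
right (`g1_left`, `g1_right`, `one_star` for the stars of `c - 1`, `c + 1`).
* `n2 = 0`: if `n0 > 0` use `r ≥ |P| - 1` (`lhs_ge`: the star has mass `≤ 1 + ε`).  If `n0 = 0` the
  star of `c` has no hit (value `0`), so its mass is at most `1 - 2 * δ` and `r ≥ |P|`.
* `n2 = 1`: by `g1_left` (`g1_right`) there is a slot with `w = 0` (`c`, whose hit has value `0`, or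
  `c + 1` resp. `c - 1`), so `∑ w ≤ |P|`; by `lhs_ge'` with `e` the hit (mass `≥ 2 * δ`), `r ≥ |P|`.
* `n2 = 2`: `g1_both`, and `∑ w ≤ |P| - 1 + 2`. -/
theorem row_G1 (h : S.Ok) {v : ℤ → ℕ} {r : ℤ} (hO : S.Own v r) {c : ℤ} (hG : G1h S v c) :
    S.Row v r := by
  have hδ1 : 2 * S.δ ≤ 1 := by
    have h1 := h.cnt1 0 0 le_rfl
    have h2 : S.m 0 0 = 0 := by simp [Sys.m]
    have h3 : (0 : ℝ) ≤ (S.N 0 0 : ℝ) := by
      unfold Sys.N
      positivity
    rw [h2] at h1
    linarith
  have hδ := h.δε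
  have hδ0 := h.δ0
  have hε0 := h.ε0
  have hstar := star_le h c
  have hemp : S.m (2 * c + 2) (2 * c + 2) = 0 := by simp [Sys.m]
  have hv1 : ∀ x, S.ex x → (x < 2 * c - 1 ∨ 2 * c + 2 ≤ x) → 1 ≤ v x := by
    intro x hx h1
    rcases hG.h1 x hx (by omega) with h5 | h5 <;> omega
  have hw2 : ∀ p ∈ S.P, S.w v p ≤ 2 := by
    intro p hp
    have h1 := w_le (v := v) (h.tO p hp)
    have h3 := (t_range h hp).2.2
    by_cases h2 : 2 * c - 1 ≤ S.t p ∧ S.t p ≤ 2 * c + 1
    · rw [hG.h0 _ h3 h2.1 h2.2] at h1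
      omega
    · rcases hG.h1 _ h3 (by omega) with h4 | h4 <;> omega
  have hside : ∀ p ∈ S.P, S.w v p = 2 → S.t p < 2 * c - 1 ∨ 2 * c + 1 < S.t p := by
    intro p hp h1
    by_contra h2
    have := G1_w0 h hG hp (by omega) (by omega)
    omega
  have huL : ∀ p ∈ S.P, S.w v p = 2 → S.t p < 2 * c - 1 → ∀ q ∈ S.P, S.w v q = 2 →
      S.t q < 2 * c - 1 → p = q := by
    intro p hp h1 h2 q hq h3 h4
    obtain ⟨h5, -⟩ := g1_left h hG hp h1 h2
    obtain ⟨h6, -⟩ := g1_left h hG hq h3 h4
    exact one_star h (j := c - 1) hp hq (by omega) (by omega) (by omega) (by omega)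
  have huR : ∀ p ∈ S.P, S.w v p = 2 → 2 * c + 1 < S.t p → ∀ q ∈ S.P, S.w v q = 2 →
      2 * c + 1 < S.t q → p = q := by
    intro p hp h1 h2 q hq h3 h4
    obtain ⟨h5, -⟩ := g1_right h hG hp h1 h2
    obtain ⟨h6, -⟩ := g1_right h hG hq h3 h4
    exact one_star h (j := c + 1) hp hq (by omega) (by omega) (by omega) (by omega)
  have hcard : ∑ _p ∈ S.P, (1 : ℤ) = S.P.card := by simp
  have hsum : ∀ q ∈ S.P, ∑ p ∈ S.P, (if p = q then (1 : ℤ) else 0) = 1 := by
    intro q hq
    rw [Finset.sum_ite_eq' S.P q, if_pos hq]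
  -- one slot with value two
  have hone : ∀ p ∈ S.P, S.w v p = 2 → (∀ q ∈ S.P, S.w v q = 2 → q = p) →
      (∃ q ∈ S.P, S.w v q = 0) → S.Row v r := by
    intro p hp h1 h2 ⟨q, hq, hq0⟩
    have hb : ∑ p ∈ S.P, (S.w v p : ℤ) ≤ S.P.card := by
      calc ∑ x ∈ S.P, (S.w v x : ℤ)
          ≤ ∑ x ∈ S.P, (1 + (if x = p then (1 : ℤ) else 0) - (if x = q then 1 else 0)) := by
            apply Finset.sum_le_sum
            intro x hx
            have h3 := hw2 x hx
            by_cases h4 : x = p
            · have h5 : x ≠ q := by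
                rintro rfl
                rw [h4, h1] at hq0
                omega
              rw [if_pos h4, if_neg h5]
              push_cast
              omega
            · rw [if_neg h4]
              by_cases h5 : x = q
              · rw [if_pos h5, h5, hq0]
                simp
              · rw [if_neg h5]
                have : S.w v x ≠ 2 := fun h6 => h4 (h2 x hx h6)
                omega
        _ = S.P.card := by
            rw [Finset.sum_sub_distrib, Finset.sum_add_distrib, hcard, hsum p hp, hsum q hq]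
            ring
    have hside' := hside p hp h1
    have h3 := w_le (v := v) (h.tO p hp)
    rw [h1] at h3
    have h4 := lhs_ge' h (v := v) (a := 2 * c - 1) (b := 2 * c + 2) (c := 2 * c + 2)
      (d := 2 * c + 2) (e := S.t p) (by omega) le_rfl le_rfl
      (fun x hx h5 _ => hv1 x hx h5) ⟨by omega, by omega⟩ (fun _ => h3)
    have h5 := zpos h hp
    have h6 : ∑ x ∈ Icc (-S.K) S.K, (v x : ℝ) * S.z x ≤ r + S.ε := hO
    rw [hemp] at h4
    have h7 : (S.P.card : ℝ) < r + 1 := by linarith
    have h8 : ((S.P.card : ℤ) : ℝ) < ((r + 1 : ℤ) : ℝ) := by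
      push_cast
      exact_mod_cast h7
    have h9 := Int.cast_lt.1 h8
    unfold Sys.Row
    omega
  by_cases hex2 : ∃ p ∈ S.P, S.w v p = 2
  · obtain ⟨p, hp, hw⟩ := hex2
    by_cases hLx : ∃ p ∈ S.P, S.w v p = 2 ∧ S.t p < 2 * c - 1
    · obtain ⟨a, ha, haw, hal⟩ := hLx
      by_cases hRx : ∃ p ∈ S.P, S.w v p = 2 ∧ 2 * c + 1 < S.t p
      · obtain ⟨b, hb, hbw, hbl⟩ := hRx
        obtain ⟨hc, hr⟩ := g1_both h hO hG ha haw hal hb hbw hbl
        obtain ⟨c1, c2, c3⟩ := t_range h hc
        have hc0 : S.w v c = 0 := G1_w0 h hG hc (by omega) (by omega)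
        have hb1 : ∑ x ∈ S.P, (S.w v x : ℤ) ≤ S.P.card + 1 := by
          calc ∑ x ∈ S.P, (S.w v x : ℤ)
              ≤ ∑ x ∈ S.P, (1 + (if x = a then (1 : ℤ) else 0) + (if x = b then (1 : ℤ) else 0)
                - (if x = c then 1 else 0)) := by
                apply Finset.sum_le_sum
                intro x hx
                have h3 := hw2 x hx
                by_cases h4 : x = c
                · rw [if_pos h4, h4, hc0]
                  split_ifs <;> simp
                · rw [if_neg h4]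
                  by_cases h5 : S.w v x = 2
                  · rcases hside x hx h5 with h6 | h6
                    · rw [if_pos (huL x hx h5 h6 a ha haw hal), h5]
                      split_ifs <;> simp
                    · rw [if_pos (huR x hx h5 h6 b hb hbw hbl), h5]
                      split_ifs <;> simp
                  · split_ifs <;> omega
            _ = S.P.card + 1 := by
                rw [Finset.sum_sub_distrib, Finset.sum_add_distrib, Finset.sum_add_distrib, hcard,
                  hsum a ha, hsum b hb, hsum c hc]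
                ring
        unfold Sys.Row
        omega
      · refine hone a ha haw ?_ ?_
        · intro q hq hqw
          rcases hside q hq hqw with h6 | h6
          · exact huL q hq hqw h6 a ha haw hal
          · exact absurd ⟨q, hq, hqw, h6⟩ hRx
        · obtain ⟨-, h5 | ⟨h5, h6⟩⟩ := g1_left h hG ha haw hal
          · obtain ⟨c1, c2, c3⟩ := t_range h h5
            exact ⟨c, h5, G1_w0 h hG h5 (by omega) (by omega)⟩
          · refine ⟨c + 1, h5, ?_⟩
            have h7 := w_le (v := v) h6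
            rw [hG.h0 _ (O_range h6).2.2 (by omega) (by omega)] at h7
            omega
    · have hpr : 2 * c + 1 < S.t p := by
        rcases hside p hp hw with h6 | h6
        · exact absurd ⟨p, hp, hw, h6⟩ hLx
        · exact h6
      refine hone p hp hw ?_ ?_
      · intro q hq hqw
        rcases hside q hq hqw with h6 | h6
        · exact absurd ⟨q, hq, hqw, h6⟩ hLx
        · exact huR q hq hqw h6 p hp hw hpr
      · obtain ⟨-, h5 | ⟨h5, h6⟩⟩ := g1_right h hG hp hw hpr
        · obtain ⟨c1, c2, c3⟩ := t_range h h5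
          exact ⟨c, h5, G1_w0 h hG h5 (by omega) (by omega)⟩
        · refine ⟨c - 1, h5, ?_⟩
          have h7 := w_le (v := v) h6
          rw [hG.h0 _ (O_range h6).2.2 (by omega) (by omega)] at h7
          omega
  · have hle1 : ∀ p ∈ S.P, S.w v p ≤ 1 := by
      intro p hp
      have h1 := hw2 p hp
      have h2 : S.w v p ≠ 2 := fun h3 => hex2 ⟨p, hp, h3⟩
      omega
    have h4 := lhs_ge h (v := v) (a := 2 * c - 1) (b := 2 * c + 2) (c := 2 * c + 2)
      (d := 2 * c + 2) (by omega) le_rfl le_rfl (fun x hx h5 _ => hv1 x hx h5)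
    rw [hemp] at h4
    have h6 : ∑ x ∈ Icc (-S.K) S.K, (v x : ℝ) * S.z x ≤ r + S.ε := hO
    by_cases hex0 : ∃ q ∈ S.P, S.w v q = 0
    · obtain ⟨q, hq, hq0⟩ := hex0
      have hb : ∑ p ∈ S.P, (S.w v p : ℤ) ≤ S.P.card - 1 := by
        calc ∑ x ∈ S.P, (S.w v x : ℤ)
            ≤ ∑ x ∈ S.P, (1 - (if x = q then (1 : ℤ) else 0)) := by
              apply Finset.sum_le_sum
              intro x hx
              have h3 := hle1 x hx
              by_cases h5 : x = q
              · rw [if_pos h5, h5, hq0]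
                simp
              · rw [if_neg h5]
                omega
          _ = S.P.card - 1 := by
              rw [Finset.sum_sub_distrib, hcard, hsum q hq]
      have h7 : (S.P.card : ℝ) < r + 2 := by linarith
      have h8 : ((S.P.card : ℤ) : ℝ) < ((r + 2 : ℤ) : ℝ) := by
        push_cast
        exact h7
      have h9 := Int.cast_lt.1 h8
      unfold Sys.Row
      omega
    · have hun := unhit h (a := 2 * c - 1) (b := 2 * c + 2) (by omega) (by
        intro p hp h1
        exact hex0 ⟨p, hp, G1_w0 h hG hp (by omega) (by omega)⟩)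
      have hb : ∑ p ∈ S.P, (S.w v p : ℤ) ≤ S.P.card := by
        calc ∑ x ∈ S.P, (S.w v x : ℤ) ≤ ∑ _x ∈ S.P, (1 : ℤ) := by
              apply Finset.sum_le_sum
              intro x hx
              have := hle1 x hx
              omega
          _ = S.P.card := hcard
      have h7 : (S.P.card : ℝ) < r + 1 := by linarith
      have h8 : ((S.P.card : ℤ) : ℝ) < ((r + 1 : ℤ) : ℝ) := by
        push_cast
        exact_mod_cast h7
      have h9 := Int.cast_lt.1 h8
      unfold Sys.Row
      omega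

end Pool.Agent.H.MP_ebc13b_lc.h61b
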