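import Pool.Agent.H.MP_ebc13b_lc.h61b.L2.Asm

/-!
# Level 2: further rows with values `2`
-/

namespace Pool.Agent.H.MP_ebc13b_lc.h61b

open Finset

variable {S : Sys}

/-- `ε` and `δ` are small. -/
theorem G2_small (h : S.Ok) : S.ε ≤ 1 / 16 ∧ S.δ ≤ 1 / 2 := by
  have h1 := unhit h (a := 0) (b := 0) le_rfl (fun p _ hh => by omega)
  have h2 := m_nonneg h 0 0
  have h3 := h.δε
  constructor <;> linarith

/-- If all `w ≤ 1` and `w = 0` on `Q`, it is enough that the left hand side of the row is larger
than `|P| - |Q| - 1 + ε`. -/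
theorem G2_core {v : ℤ → ℕ} {r : ℤ} (hO : S.Own v r) (h1 : ∀ p ∈ S.P, S.w v p ≤ 1)
    {Q : Finset ℤ} (hQ : Q ⊆ S.P) (hQ0 : ∀ q ∈ Q, S.w v q = 0)
    (hm : (S.P.card : ℝ) - Q.card - 1 + S.ε < ∑ x ∈ Icc (-S.K) S.K, (v x : ℝ) * S.z x) :
    S.Row v r := by
  have h2 : ∑ p ∈ S.P, (S.w v p : ℤ) ≤ (S.P.card : ℤ) - Q.card := by
    rw [← Finset.sum_sdiff hQ]
    have h3 : ∑ p ∈ Q, (S.w v p : ℤ) = 0 :=
      Finset.sum_eq_zero fun q hq => by rw [hQ0 q hq]; rfl
    have h4 : ∑ p ∈ S.P \ Q, (S.w v p : ℤ) ≤ ∑ p ∈ S.P \ Q, (1 : ℤ) :=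
      Finset.sum_le_sum fun p hp => by
        have := h1 p (Finset.mem_sdiff.1 hp).1
        exact_mod_cast this
    have h5 : ((S.P \ Q).card : ℤ) = (S.P.card : ℤ) - Q.card := by
      rw [Finset.card_sdiff_of_subset hQ]
      have := Finset.card_le_card hQ
      omega
    rw [h3, add_zero]
    refine h4.trans ?_
    simp only [Finset.sum_const, nsmul_eq_mul, mul_one]
    exact h5.le
  have h3 : (S.P.card : ℝ) - Q.card - 1 < r := by
    have := hO
    unfold Sys.Own at this
    linarith
  have h4 : (S.P.card : ℤ) - Q.card - 1 < r := by exact_mod_cast h3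
  unfold Sys.Row
  omega

/-- The mass of one block is at most `1 + ε`. -/
theorem G2_zle (h : S.Ok) (j : ℤ) : S.m (2 * j) (2 * j + 1) ≤ 1 + S.ε := by
  rw [m_one]
  have h1 := h.star j
  have h2 := h.z0 (2 * j - 1)
  have h3 := h.z0 (2 * j + 1)
  linarith

/-- The own block of a slot is an option of it. -/
theorem G2_own {p : ℤ} (he : S.ex (2 * p)) : S.O p (2 * p) := ⟨he, Or.inl rfl⟩

/-- **G2**: the block `2 * j` exists and has value `0`, the blocks `2 * j - 1`, `2 * j + 1` have values
in `{1, 2}`, all other blocks have value `1`.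

No slot has `w = 2`: its hit would be `2 * j - 1` or `2 * j + 1`.  If it is `2 * j - 1` the slot is `j`
(option `2 * j` of value `0`) or `p = j - 1`, and by `WL` (`2 * p + 2 = 2 * j` exists) there is another
option, of value `1`.  If it is `2 * j + 1` use `WR` for `p = j + 1`.
If `j` is a slot, `∑ w ≤ |P| - 1` and `r ≥ |P| - 1` (`z (2 * j) ≤ 1 + ε` by `star`, `z0`); otherwise
`2 * j` is not hit, `z (2 * j) ≤ 1 - 2 * δ` (`unhit`), `r ≥ |P|` and `∑ w ≤ |P|`. -/
theorem row_G2 (h : S.Ok) {v : ℤ → ℕ} {r : ℤ} (hO : S.Own v r) {j : ℤ} (hj : S.ex (2 * j))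
    (h0 : v (2 * j) = 0)
    (h1 : ∀ x, S.ex x → x ≠ 2 * j → v x = 1 ∨ (v x = 2 ∧ (x = 2 * j - 1 ∨ x = 2 * j + 1))) :
    S.Row v r := by
  obtain ⟨hε, hδ⟩ := G2_small h
  have hε0 := h.ε0
  have hδ0 := h.δ0
  have hδε := h.δε
  have hw1 : ∀ p ∈ S.P, S.w v p ≤ 1 := by
    intro p hp
    obtain ⟨t1, t2, t3⟩ := t_range h hp
    have hwt := w_le (v := v) (h.tO p hp)
    by_cases hpj : p = j
    · have := w_le (v := v) (G2_own (p := p) (by rw [hpj]; exact hj))
      rw [hpj, h0] at this
      rw [hpj]
      omega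
    by_cases ht : S.t p = 2 * j
    · rw [ht, h0] at hwt
      omega
    rcases h1 _ t3 ht with h2 | ⟨h2, h3 | h3⟩
    · omega
    · rcases h.WL p hp (by omega) with ⟨b, hb, hOb⟩ | ⟨hb, _⟩
      · obtain ⟨b1, b2, b3⟩ := O_range hOb
        have hwb := w_le (v := v) hOb
        rcases h1 b b3 (by omega) with h4 | ⟨_, h4⟩
        · omega
        · exfalso; omega
      · exact absurd (by
          have : 2 * p + 2 = 2 * j := by omega
          rw [this]; exact hj) hb
    · rcases h.WR p hp (by omega) with ⟨b, hb, hOb⟩ | ⟨hb, _⟩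
      · obtain ⟨b1, b2, b3⟩ := O_range hOb
        have hwb := w_le (v := v) hOb
        rcases h1 b b3 (by omega) with h4 | ⟨_, h4⟩
        · omega
        · exfalso; omega
      · exact absurd (by
          have : 2 * p - 2 = 2 * j := by omega
          rw [this]; exact hj) hb
  have hl := lhs_ge h (v := v) (a := 2 * j) (b := 2 * j + 1) (c := 2 * j + 1) (d := 2 * j + 1)
    (by omega) le_rfl le_rfl (fun x hx h2 h3 => by
      rcases h1 x hx (by omega) with h4 | ⟨h4, _⟩ <;> omega)
  have hz : S.m (2 * j + 1) (2 * j + 1) = 0 := by simp [Sys.m]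
  rw [hz] at hl
  by_cases hp : j ∈ S.P
  · refine G2_core hO hw1 (Q := {j}) (by simpa using hp) ?_ ?_
    · intro q hq
      rw [Finset.mem_singleton] at hq
      subst hq
      have := w_le (v := v) (G2_own hj)
      omega
    · have := G2_zle h j
      rw [Finset.card_singleton]
      push_cast
      linarith
  · refine G2_core hO hw1 (Q := ∅) (by simp) (by simp) ?_
    have := unhit h (a := 2 * j) (b := 2 * j + 1) (by omega) (by
      intro q hq hh
      obtain ⟨t1, t2, t3⟩ := t_range h hq
      have : q = j := by omega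
      exact hp (this ▸ hq))
    simp only [Finset.card_empty, Nat.cast_zero]
    linarith

/-- **G5**: the blocks `2 * j - 2`, `2 * j` exist and have value `0`, the block `2 * j - 1` has a value
in `{1, 2}`, all other blocks have value `1`.

No slot has `w = 2`: its hit would be `2 * j - 1` and the slot `j - 1` or `j`, with the option
`2 * j - 2` resp. `2 * j`.  If both `j - 1` and `j` are slots, `∑ w ≤ |P| - 2` and `r ≥ |P| - 2`
(the blocks `2 * j - 2` and `2 * j` have mass `≤ 1 + ε`).  If exactly one of them is a slot, the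
block of the other one is not hit and has mass `≤ 1 - 2 * δ`, so `r ≥ |P| - 1`.  If none is a slot
the interval `[2 * j - 2, 2 * j + 1)` has no hit, so its mass is `≤ 1 - 2 * δ` and `r ≥ |P|`. -/
theorem row_G5 (h : S.Ok) {v : ℤ → ℕ} {r : ℤ} (hO : S.Own v r) {j : ℤ}
    (hj : S.ex (2 * j)) (hj' : S.ex (2 * j - 2)) (h0 : v (2 * j) = 0) (h0' : v (2 * j - 2) = 0)
    (h1 : ∀ x, S.ex x → x ≠ 2 * j → x ≠ 2 * j - 2 → v x = 1 ∨ (v x = 2 ∧ x = 2 * j - 1)) :
    S.Row v r := by
  obtain ⟨hε, hδ⟩ := G2_small h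
  have hε0 := h.ε0
  have hδ0 := h.δ0
  have hδε := h.δε
  have hwj : S.w v j = 0 := by
    have := w_le (v := v) (G2_own hj)
    omega
  have e1 : 2 * j - 2 = 2 * (j - 1) := by ring
  have hwj' : S.w v (j - 1) = 0 := by
    have := w_le (v := v) (G2_own (p := j - 1) (by rw [← e1]; exact hj'))
    rw [← e1] at this
    omega
  have hw1 : ∀ p ∈ S.P, S.w v p ≤ 1 := by
    intro p hp
    obtain ⟨t1, t2, t3⟩ := t_range h hp
    have hwt := w_le (v := v) (h.tO p hp)
    by_cases hpj : p = j
    · rw [hpj]; omega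
    by_cases hpj' : p = j - 1
    · rw [hpj']; omega
    rcases h1 _ t3 (by omega) (by omega) with h2 | ⟨h2, h3⟩
    · omega
    · exfalso; omega
  have hz1 : S.m (2 * j - 2) (2 * j - 1) ≤ 1 + S.ε := by
    have := G2_zle h (j - 1)
    have e2 : 2 * (j - 1) + 1 = 2 * j - 1 := by ring
    rwa [e2, ← e1] at this
  have hz2 := G2_zle h j
  have hl := lhs_ge h (v := v) (a := 2 * j - 2) (b := 2 * j - 1) (c := 2 * j) (d := 2 * j + 1)
    (by omega) (by omega) (by omega) (fun x hx h2 h3 => by
      rcases h1 x hx (by omega) (by omega) with h4 | ⟨h4, _⟩ <;> omega)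
  by_cases hp : j ∈ S.P
  · by_cases hp' : j - 1 ∈ S.P
    · refine G2_core hO hw1 (Q := {j - 1, j}) ?_ ?_ ?_
      · intro q hq
        rw [Finset.mem_insert, Finset.mem_singleton] at hq
        rcases hq with hq | hq
        · rw [hq]; exact hp'
        · rw [hq]; exact hp
      · intro q hq
        rw [Finset.mem_insert, Finset.mem_singleton] at hq
        rcases hq with hq | hq
        · rw [hq]; exact hwj'
        · rw [hq]; exact hwj
      · rw [Finset.card_pair (by omega)]
        push_cast
        linarith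
    · refine G2_core hO hw1 (Q := {j}) (by simpa using hp) ?_ ?_
      · intro q hq
        rw [Finset.mem_singleton] at hq
        rw [hq]; exact hwj
      · have := unhit h (a := 2 * j - 2) (b := 2 * j - 1) (by omega) (by
          intro q hq hh
          obtain ⟨t1, t2, t3⟩ := t_range h hq
          have : q = j - 1 := by omega
          exact hp' (this ▸ hq))
        rw [Finset.card_singleton]
        push_cast
        linarith
  · by_cases hp' : j - 1 ∈ S.P
    · refine G2_core hO hw1 (Q := {j - 1}) (by simpa using hp') ?_ ?_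
      · intro q hq
        rw [Finset.mem_singleton] at hq
        rw [hq]; exact hwj'
      · have := unhit h (a := 2 * j) (b := 2 * j + 1) (by omega) (by
          intro q hq hh
          obtain ⟨t1, t2, t3⟩ := t_range h hq
          have : q = j := by omega
          exact hp (this ▸ hq))
        rw [Finset.card_singleton]
        push_cast
        linarith
    · refine G2_core hO hw1 (Q := ∅) (by simp) (by simp) ?_
      have hun := unhit h (a := 2 * j - 2) (b := 2 * j + 1) (by omega) (by
        intro q hq hh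
        obtain ⟨t1, t2, t3⟩ := t_range h hq
        have h5 : q = j ∨ q = j - 1 := by omega
        rcases h5 with h5 | h5
        · exact hp (h5 ▸ hq)
        · exact hp' (h5 ▸ hq))
      have hs1 := m_split (S := S) (a := 2 * j - 2) (b := 2 * j - 1) (c := 2 * j + 1)
        (by omega) (by omega)
      have hs2 := m_split (S := S) (a := 2 * j - 1) (b := 2 * j) (c := 2 * j + 1)
        (by omega) (by omega)
      have hs3 := m_nonneg h (2 * j - 1) (2 * j)
      simp only [Finset.card_empty, Nat.cast_zero]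
      linarith

/-- **G4**: the block `2 * i - 2` exists and has value `0`, the blocks of the star of `i + 1` have
value `0`, the block `2 * i - 1` has a value in `{1, 2}`, all other blocks have value `1`; the block
`2 * i + 1` exists.

No slot has `w = 2`: its hit would be `2 * i - 1`; the slot `i - 1` has the option `2 * i - 2`; for
the slot `p = i` use `WR`: `2 * p - 2` exists, so there is another option, of value at most `1`.
Call `i + 1` served if `i + 1 ∈ P`, or `i ∈ P`, or `2 * i + 3` exists and `i + 2 ∈ P`; then some slot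
`q ∈ {i, i + 1, i + 2}` has `w q = 0` (`served`; if `q = i + 1` its hit has value `0`).
* `i - 1 ∈ P` and `i + 1` served: `∑ w ≤ |P| - 2`, `r ≥ |P| - 2`.
* `i - 1 ∈ P`, not served: the star of `i + 1` has no hit, mass `≤ 1 - 2 * δ`: `r ≥ |P| - 1`,
  `∑ w ≤ |P| - 1`.
* `i - 1 ∉ P`, served: the block `2 * i - 2` is not hit: the same.
* `i - 1 ∉ P`, not served: `[2 * i - 2, 2 * i + 4)` has no hit, mass `≤ 1 - 2 * δ`: `r ≥ |P|`. -/
theorem row_G4 (h : S.Ok) {v : ℤ → ℕ} {r : ℤ} (hO : S.Own v r) {i : ℤ}
    (hi : S.ex (2 * i + 1)) (hj : S.ex (2 * i - 2)) (h0 : v (2 * i - 2) = 0)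
    (h0' : ∀ x, S.ex x → 2 * i + 1 ≤ x → x ≤ 2 * i + 3 → v x = 0)
    (h1 : ∀ x, S.ex x → x ≠ 2 * i - 2 → (x < 2 * i + 1 ∨ 2 * i + 3 < x) →
      v x = 1 ∨ (v x = 2 ∧ x = 2 * i - 1)) :
    S.Row v r := by
  obtain ⟨hε, hδ⟩ := G2_small h
  have hε0 := h.ε0
  have hδ0 := h.δ0
  have hδε := h.δε
  have e1 : 2 * i - 2 = 2 * (i - 1) := by ring
  have hwj : S.w v (i - 1) = 0 := by
    have := w_le (v := v) (G2_own (p := i - 1) (by rw [← e1]; exact hj))
    rw [← e1] at this
    omega
  have hw1 : ∀ p ∈ S.P, S.w v p ≤ 1 := by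
    intro p hp
    obtain ⟨t1, t2, t3⟩ := t_range h hp
    have hwt := w_le (v := v) (h.tO p hp)
    by_cases hpi : p = i - 1
    · rw [hpi]; omega
    by_cases hr : 2 * i + 1 ≤ S.t p ∧ S.t p ≤ 2 * i + 3
    · have := h0' _ t3 hr.1 hr.2
      omega
    rcases h1 _ t3 (by omega) (by omega) with h2 | ⟨h2, h3⟩
    · omega
    · rcases h.WR p hp (by omega) with ⟨b, hb, hOb⟩ | ⟨hb, _⟩
      · obtain ⟨b1, b2, b3⟩ := O_range hOb
        have hwb := w_le (v := v) hOb
        by_cases hb' : b = 2 * i + 1
        · have := h0' b b3 (by omega) (by omega)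
          omega
        · rcases h1 b b3 (by omega) (by omega) with h4 | ⟨_, h4⟩
          · omega
          · exfalso; omega
      · exact absurd (by
          have : 2 * p - 2 = 2 * i - 2 := by omega
          rw [this]; exact hj) hb
  have hz1 : S.m (2 * i - 2) (2 * i - 1) ≤ 1 + S.ε := by
    have := G2_zle h (i - 1)
    have e2 : 2 * (i - 1) + 1 = 2 * i - 1 := by ring
    rwa [e2, ← e1] at this
  have hz2 : S.m (2 * i + 1) (2 * i + 4) ≤ 1 + S.ε := by
    have := star_le h (i + 1)
    have e2 : 2 * (i + 1) - 1 = 2 * i + 1 := by ring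
    have e3 : 2 * (i + 1) + 2 = 2 * i + 4 := by ring
    rwa [e2, e3] at this
  have hl := lhs_ge h (v := v) (a := 2 * i - 2) (b := 2 * i - 1) (c := 2 * i + 1)
    (d := 2 * i + 4)
    (by omega) (by omega) (by omega) (fun x hx h2 h3 => by
      rcases h1 x hx (by omega) (by omega) with h4 | ⟨h4, _⟩ <;> omega)
  have e4 : 2 * (i + 1) - 1 = 2 * i + 1 := by ring
  have e5 : 2 * (i + 1) + 1 = 2 * i + 3 := by ring
  have e6 : i + 1 - 1 = i := by ring
  have e7 : i + 1 + 1 = i + 2 := by ring
  by_cases hs : i + 1 ∈ S.P ∨ i ∈ S.P ∨ (S.ex (2 * i + 3) ∧ i + 2 ∈ S.P)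
  · obtain ⟨q, hq, hq3⟩ := served (S := S) (j := i + 1) (by
      rw [e4, e5, e6, e7]
      rcases hs with hs | hs | hs
      · exact Or.inl hs
      · exact Or.inr (Or.inl ⟨hi, hs⟩)
      · exact Or.inr (Or.inr hs))
    rw [e4, e5, e6, e7] at hq3
    have hwq : S.w v q = 0 := by
      rcases hq3 with hq3 | ⟨hq3, hOq⟩ | ⟨hq3, hOq⟩
      · obtain ⟨t1, t2, t3⟩ := t_range h hq
        have h2 := w_le (v := v) (h.tO q hq)
        have h3 := h0' _ t3 (by omega) (by omega)
        omega
      · have h2 := w_le (v := v) hOq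
        have h3 := h0' _ (O_range hOq).2.2 (by omega) (by omega)
        omega
      · have h2 := w_le (v := v) hOq
        have h3 := h0' _ (O_range hOq).2.2 (by omega) (by omega)
        omega
    by_cases hp : i - 1 ∈ S.P
    · refine G2_core hO hw1 (Q := {i - 1, q}) ?_ ?_ ?_
      · intro p hp'
        rw [Finset.mem_insert, Finset.mem_singleton] at hp'
        rcases hp' with hp' | hp'
        · rw [hp']; exact hp
        · rw [hp']; exact hq
      · intro p hp'
        rw [Finset.mem_insert, Finset.mem_singleton] at hp'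
        rcases hp' with hp' | hp'
        · rw [hp']; exact hwj
        · rw [hp']; exact hwq
      · rw [Finset.card_pair (by omega)]
        push_cast
        linarith
    · refine G2_core hO hw1 (Q := {q}) (by simpa using hq) ?_ ?_
      · intro p hp'
        rw [Finset.mem_singleton] at hp'
        rw [hp']; exact hwq
      · have := unhit h (a := 2 * i - 2) (b := 2 * i - 1) (by omega) (by
          intro p hp' hh
          obtain ⟨t1, t2, t3⟩ := t_range h hp'
          have : p = i - 1 := by omega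
          exact hp (this ▸ hp'))
        rw [Finset.card_singleton]
        push_cast
        linarith
  · have hno : ∀ p ∈ S.P, ¬ (2 * i ≤ S.t p ∧ S.t p < 2 * i + 4) := by
      intro p hp hh
      obtain ⟨t1, t2, t3⟩ := t_range h hp
      have h5 : p = i ∨ p = i + 1 ∨ (p = i + 2 ∧ S.t p = 2 * i + 3) := by omega
      rcases h5 with h5 | h5 | ⟨h5, h6⟩
      · exact hs (Or.inr (Or.inl (h5 ▸ hp)))
      · exact hs (Or.inl (h5 ▸ hp))
      · exact hs (Or.inr (Or.inr ⟨h6 ▸ t3, h5 ▸ hp⟩))
    by_cases hp : i - 1 ∈ S.P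
    · refine G2_core hO hw1 (Q := {i - 1}) (by simpa using hp) ?_ ?_
      · intro p hp'
        rw [Finset.mem_singleton] at hp'
        rw [hp']; exact hwj
      · have := unhit h (a := 2 * i + 1) (b := 2 * i + 4) (by omega) (by
          intro p hp' hh
          exact hno p hp' (by omega))
        rw [Finset.card_singleton]
        push_cast
        linarith
    · refine G2_core hO hw1 (Q := ∅) (by simp) (by simp) ?_
      have hun := unhit h (a := 2 * i - 2) (b := 2 * i + 4) (by omega) (by
        intro p hp' hh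
        obtain ⟨t1, t2, t3⟩ := t_range h hp'
        by_cases h5 : 2 * i ≤ S.t p
        · exact hno p hp' (by omega)
        · have h6 : p = i - 1 ∨ p = i := by omega
          rcases h6 with h6 | h6
          · exact hp (h6 ▸ hp')
          · exact hs (Or.inr (Or.inl (h6 ▸ hp'))))
      have hs1 := m_split (S := S) (a := 2 * i - 2) (b := 2 * i - 1) (c := 2 * i + 4)
        (by omega) (by omega)
      have hs2 := m_split (S := S) (a := 2 * i - 1) (b := 2 * i + 1) (c := 2 * i + 4)
        (by omega) (by omega)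
      have hs3 := m_nonneg h (2 * i - 1) (2 * i + 1)
      simp only [Finset.card_empty, Nat.cast_zero]
      linarith

end Pool.Agent.H.MP_ebc13b_lc.h61b
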