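import Pool.Agent.H.MP_ebc13b_lc.h61b.L2.Asm
import Pool.Agent.H.MP_ebc13b_lc.h61b.L2.Refl

/-!
# Level 2: two stars of zeros at distance 3, value `2` between them
-/

namespace Pool.Agent.H.MP_ebc13b_lc.h61b

open Finset

variable {S : Sys}

/-- Situation of this file: `v = 0` on the stars of `i - 2` and `i + 1`, `v (2 * i - 1) ∈ {1, 2}`,
`v = 1` elsewhere; the blocks `2 * i - 3`, `2 * i - 1`, `2 * i + 1` exist.  (The mirror image with
`i` replaced by `-i + 1` is of the same form: `2 * i - 1` becomes `-2 * i + 1 = 2 * (1 - i) - 1`.) -/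
structure G3h (S : Sys) (v : ℤ → ℕ) (i : ℤ) : Prop where
  e1 : S.ex (2 * i - 3)
  e2 : S.ex (2 * i - 1)
  e3 : S.ex (2 * i + 1)
  h0 : ∀ x, S.ex x → 2 * i - 5 ≤ x → x ≤ 2 * i - 3 → v x = 0
  h0' : ∀ x, S.ex x → 2 * i + 1 ≤ x → x ≤ 2 * i + 3 → v x = 0
  h1 : ∀ x, S.ex x → (x < 2 * i - 5 ∨ (2 * i - 3 < x ∧ x < 2 * i + 1) ∨ 2 * i + 3 < x) →
    v x = 1 ∨ (v x = 2 ∧ x = 2 * i - 1)

private theorem G3_w0 (h : S.Ok) {v : ℤ → ℕ} {i : ℤ} (hG : G3h S v i) {q : ℤ} (hq : q ∈ S.P)
    (h1 : (2 * i - 5 ≤ S.t q ∧ S.t q ≤ 2 * i - 3) ∨ (2 * i + 1 ≤ S.t q ∧ S.t q ≤ 2 * i + 3)) :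
    S.w v q = 0 := by
  have h3 := w_le (v := v) (h.tO q hq)
  have h4 := (t_range h hq).2.2
  rcases h1 with h1 | h1
  · rw [hG.h0 _ h4 h1.1 h1.2] at h3
    omega
  · rw [hG.h0' _ h4 h1.1 h1.2] at h3
    omega

private theorem G3_right_served (h : S.Ok) {v : ℤ → ℕ} {i : ℤ} (hG : G3h S v i)
    (hyp : i + 1 ∈ S.P ∨ i ∈ S.P ∨ (S.ex (2 * i + 3) ∧ i + 2 ∈ S.P)) :
    ∃ q ∈ S.P, S.w v q = 0 ∧ i ≤ q ∧ (q = i → S.O i (2 * i + 1)) := by
  have hyp' : (i + 1) ∈ S.P ∨ (S.ex (2 * (i + 1) - 1) ∧ (i + 1) - 1 ∈ S.P) ∨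
      (S.ex (2 * (i + 1) + 1) ∧ (i + 1) + 1 ∈ S.P) := by
    rw [show 2 * (i + 1) - 1 = 2 * i + 1 by ring, show i + 1 - 1 = i by ring,
      show 2 * (i + 1) + 1 = 2 * i + 3 by ring, show i + 1 + 1 = i + 2 by ring]
    rcases hyp with h1 | h1 | h1
    · exact Or.inl h1
    · exact Or.inr (Or.inl ⟨hG.e3, h1⟩)
    · exact Or.inr (Or.inr h1)
  obtain ⟨q, hq, h1 | ⟨h1, h2⟩ | ⟨h1, h2⟩⟩ := served hyp'
  · obtain ⟨s1, s2, s3⟩ := t_range h hq
    exact ⟨q, hq, G3_w0 h hG hq (by omega), by omega, by omega⟩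
  · have h3 := w_le (v := v) h2
    rw [hG.h0' _ (O_range h2).2.2 (by omega) (by omega)] at h3
    refine ⟨q, hq, by omega, by omega, fun h4 => ?_⟩
    rw [h4] at h2
    rwa [show 2 * (i + 1) - 1 = 2 * i + 1 by ring] at h2
  · have h3 := w_le (v := v) h2
    rw [hG.h0' _ (O_range h2).2.2 (by omega) (by omega)] at h3
    exact ⟨q, hq, by omega, by omega, by omega⟩

private theorem G3_left_served (h : S.Ok) {v : ℤ → ℕ} {i : ℤ} (hG : G3h S v i)
    (hyp : i - 2 ∈ S.P ∨ i - 1 ∈ S.P ∨ (S.ex (2 * i - 5) ∧ i - 3 ∈ S.P)) :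
    ∃ q ∈ S.P, S.w v q = 0 ∧ q ≤ i - 1 ∧ (q = i - 1 → S.O (i - 1) (2 * i - 3)) := by
  have hyp' : (i - 2) ∈ S.P ∨ (S.ex (2 * (i - 2) - 1) ∧ (i - 2) - 1 ∈ S.P) ∨
      (S.ex (2 * (i - 2) + 1) ∧ (i - 2) + 1 ∈ S.P) := by
    rw [show 2 * (i - 2) - 1 = 2 * i - 5 by ring, show i - 2 - 1 = i - 3 by ring,
      show 2 * (i - 2) + 1 = 2 * i - 3 by ring, show i - 2 + 1 = i - 1 by ring]
    rcases hyp with h1 | h1 | h1
    · exact Or.inl h1
    · exact Or.inr (Or.inr ⟨hG.e1, h1⟩)
    · exact Or.inr (Or.inl h1)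
  obtain ⟨q, hq, h1 | ⟨h1, h2⟩ | ⟨h1, h2⟩⟩ := served hyp'
  · obtain ⟨s1, s2, s3⟩ := t_range h hq
    exact ⟨q, hq, G3_w0 h hG hq (by omega), by omega, by omega⟩
  · have h3 := w_le (v := v) h2
    rw [hG.h0 _ (O_range h2).2.2 (by omega) (by omega)] at h3
    exact ⟨q, hq, by omega, by omega, by omega⟩
  · have h3 := w_le (v := v) h2
    rw [hG.h0 _ (O_range h2).2.2 (by omega) (by omega)] at h3
    refine ⟨q, hq, by omega, by omega, fun h4 => ?_⟩
    rw [h4] at h2
    rwa [show 2 * (i - 2) + 1 = 2 * i - 3 by ring] at h2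

private theorem G3_refl {v : ℤ → ℕ} {i : ℤ} (hG : G3h S v i) :
    G3h S.refl (fun x => v (-x)) (1 - i) := by
  refine ⟨?_, ?_, ?_, ?_, ?_, ?_⟩
  · change S.ex (-(2 * (1 - i) - 3))
    rw [show -(2 * (1 - i) - 3) = 2 * i + 1 by ring]
    exact hG.e3
  · change S.ex (-(2 * (1 - i) - 1))
    rw [show -(2 * (1 - i) - 1) = 2 * i - 1 by ring]
    exact hG.e2
  · change S.ex (-(2 * (1 - i) + 1))
    rw [show -(2 * (1 - i) + 1) = 2 * i - 3 by ring]
    exact hG.e1
  · intro x hx h1 h2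
    exact hG.h0' (-x) hx (by omega) (by omega)
  · intro x hx h1 h2
    exact hG.h0 (-x) hx (by omega) (by omega)
  · intro x hx h1
    rcases hG.h1 (-x) hx (by omega) with h2 | ⟨h2, h3⟩
    · exact Or.inl h2
    · exact Or.inr ⟨h2, by omega⟩

/-- If the slot `i - 1` has `w = 2` then there are slots `q ∈ {i - 3, i - 2}` and
`q' ∈ {i + 1, i + 2}` with `w = 0`.

Proof.  `w = 2` implies that the hit of `i - 1` is `2 * i - 1`, and that there is no other option
(value `≤ 1`).  `i ∉ P` by `one_star` for the star of `i`.  `WL`: `i + 1 ∈ P`, or `2 * i + 3` exists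
and `i + 2 ∈ P`: `served` for `j = i + 1` gives `q'` (`q' = i` is impossible).  `served` for
`j = i - 2` (`2 * i - 3` exists, `i - 1 ∈ P`) gives `q`; `q = i - 1` with the option `2 * i - 3` of
value `0` is impossible. -/
theorem g3_left (h : S.Ok) {v : ℤ → ℕ} {i : ℤ} (hG : G3h S v i) (hp : i - 1 ∈ S.P)
    (hw : S.w v (i - 1) = 2) :
    (∃ q ∈ S.P, S.w v q = 0 ∧ q ≤ i - 2) ∧ (∃ q ∈ S.P, S.w v q = 0 ∧ i + 1 ≤ q) := by
  obtain ⟨r1, r2, r3⟩ := t_range h hp
  have hwle := w_le (v := v) (h.tO _ hp)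
  rw [hw] at hwle
  have hlow : ∀ b, S.ex b → 2 * i - 3 ≤ b → b ≤ 2 * i - 2 → v b ≤ 1 := by
    intro b hb h1 h2
    by_cases h3 : b = 2 * i - 3
    · rw [hG.h0 b hb (by omega) (by omega)]
      omega
    · rcases hG.h1 b hb (by omega) with h4 | ⟨h4, h5⟩
      · omega
      · omega
  have ht : S.t (i - 1) = 2 * i - 1 := by
    by_contra h1
    have := hlow _ r3 (by omega) (by omega)
    omega
  have hiP : i ∉ S.P := by
    intro hi
    obtain ⟨s1, s2, s3⟩ := t_range h hi
    have := one_star h (j := i) hp hi (by omega) (by omega) (by omega) (by omega)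
    omega
  have hW : i + 1 ∈ S.P ∨ (S.ex (2 * i + 3) ∧ i + 2 ∈ S.P) := by
    rcases h.WL _ hp (by omega) with ⟨b, hb, hOb⟩ | ⟨-, h5⟩
    · exfalso
      obtain ⟨s1, s2, s3⟩ := O_range hOb
      have h6 := w_le (v := v) hOb
      rw [hw] at h6
      have := hlow b s3 (by omega) (by omega)
      omega
    · rw [show i - 1 + 2 = i + 1 by ring, show 2 * (i - 1) + 5 = 2 * i + 3 by ring,
        show i - 1 + 3 = i + 2 by ring] at h5
      exact h5
  constructor
  · obtain ⟨q, hq, hq0, hq1, hq2⟩ := G3_left_served h hG (Or.inr (Or.inl hp))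
    refine ⟨q, hq, hq0, ?_⟩
    have : q ≠ i - 1 := by
      rintro rfl
      omega
    omega
  · obtain ⟨q, hq, hq0, hq1, hq2⟩ := G3_right_served h hG (by
      rcases hW with h1 | h1
      · exact Or.inl h1
      · exact Or.inr (Or.inr h1))
    refine ⟨q, hq, hq0, ?_⟩
    have : q ≠ i := by
      rintro rfl
      exact hiP hq
    omega

/-- mirror image: the slot `i` -/
theorem g3_right (h : S.Ok) {v : ℤ → ℕ} {i : ℤ} (hG : G3h S v i) (hp : i ∈ S.P)
    (hw : S.w v i = 2) :
    (∃ q ∈ S.P, S.w v q = 0 ∧ q ≤ i - 2) ∧ (∃ q ∈ S.P, S.w v q = 0 ∧ i + 1 ≤ q) := by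
  have hp' : (1 - i) - 1 ∈ S.refl.P := by
    rw [mem_refl, show -(1 - i - 1) = i by ring]
    exact hp
  have hw' : S.refl.w (fun x => v (-x)) (1 - i - 1) = 2 := by
    rw [w_refl, show -(1 - i - 1) = i by ring]
    exact hw
  obtain ⟨⟨q, hq, hq0, hq1⟩, ⟨q', hq', hq0', hq1'⟩⟩ := g3_left (ok_refl h) (G3_refl hG) hp' hw'
  rw [w_refl] at hq0 hq0'
  rw [mem_refl] at hq hq'
  exact ⟨⟨-q', hq', hq0', by omega⟩, ⟨-q, hq, hq0, by omega⟩⟩

/-- **G3.**  A slot with `w = 2` has the hit `2 * i - 1`, so there is at most one.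
* There is one: it is `i - 1` or `i`, and by `g3_left`, `g3_right` two slots have `w = 0`, so
  `∑ w ≤ |P| - 1`; and `v (2 * i - 1) = 2`, so `lhs_ge'` gives `r ≥ |P| - 1`
  (`|P| - 2 * (1 + ε) + 2 * δ > |P| - 2`).
* There is none: call `i + 1` served if `i + 1 ∈ P` or `i ∈ P` or (`2 * i + 3` exists and
  `i + 2 ∈ P`), and `i - 2` served if `i - 2 ∈ P` or `i - 1 ∈ P` or (`2 * i - 5` exists and
  `i - 3 ∈ P`); `served` gives a slot with `w = 0` in `{i, i + 1, i + 2}` resp.
  `{i - 3, i - 2, i - 1}`.  Both served: `∑ w ≤ |P| - 2`, `r ≥ |P| - 2`.  Exactly one served: the star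
  of the other one has no hit, so `r ≥ |P| - 1`, `∑ w ≤ |P| - 1`.  None served: the interval
  `[2 * i - 5, 2 * i + 4)` has no hit, so its mass is `≤ 1 - 2 * δ` and `r ≥ |P|`. -/
theorem row_G3 (h : S.Ok) {v : ℤ → ℕ} {r : ℤ} (hO : S.Own v r) {i : ℤ} (hG : G3h S v i) :
    S.Row v r := by
  have hδ := h.δε
  have hδ0 := h.δ0
  have hε0 := h.ε0
  have hδ1 : 2 * S.δ ≤ 1 := by
    have h1 := h.cnt1 0 0 le_rfl
    have h2 : S.m 0 0 = 0 := by simp [Sys.m]
    have h3 : (0 : ℝ) ≤ (S.N 0 0 : ℝ) := by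
      unfold Sys.N
      positivity
    rw [h2] at h1
    linarith
  have hs1 := star_le h (i - 2)
  have hs2 := star_le h (i + 1)
  rw [show 2 * (i - 2) - 1 = 2 * i - 5 by ring, show 2 * (i - 2) + 2 = 2 * i - 2 by ring] at hs1
  rw [show 2 * (i + 1) - 1 = 2 * i + 1 by ring, show 2 * (i + 1) + 2 = 2 * i + 4 by ring] at hs2
  have hv1 : ∀ x, S.ex x → (x < 2 * i - 5 ∨ 2 * i - 2 ≤ x) → (x < 2 * i + 1 ∨ 2 * i + 4 ≤ x) →
      1 ≤ v x := by
    intro x hx h1 h2
    rcases hG.h1 x hx (by omega) with h5 | ⟨h5, -⟩ <;> omega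
  have h6 : ∑ x ∈ Icc (-S.K) S.K, (v x : ℝ) * S.z x ≤ r + S.ε := hO
  have hw2 : ∀ p ∈ S.P, S.w v p ≤ 1 ∨ (S.w v p = 2 ∧ S.t p = 2 * i - 1) := by
    intro p hp
    have h1 := w_le (v := v) (h.tO p hp)
    have h3 := (t_range h hp).2.2
    by_cases h2 : (2 * i - 5 ≤ S.t p ∧ S.t p ≤ 2 * i - 3) ∨ (2 * i + 1 ≤ S.t p ∧ S.t p ≤ 2 * i + 3)
    · left
      rw [G3_w0 h hG hp h2]
      omega
    · rcases hG.h1 _ h3 (by omega) with h4 | ⟨h4, h5⟩
      · left
        omega
      · by_cases h7 : S.w v p = 2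
        · exact Or.inr ⟨h7, h5⟩
        · left
          omega
  have hcard : ∑ _p ∈ S.P, (1 : ℤ) = S.P.card := by simp
  have hsum : ∀ q ∈ S.P, ∑ p ∈ S.P, (if p = q then (1 : ℤ) else 0) = 1 := by
    intro q hq
    rw [Finset.sum_ite_eq' S.P q, if_pos hq]
  have hfin : ∀ (k : ℤ), (S.P.card : ℝ) < r + (k + 1 : ℤ) →
      ∑ p ∈ S.P, (S.w v p : ℤ) ≤ S.P.card - k → S.Row v r := by
    intro k h7 h10
    have h8 : ((S.P.card : ℤ) : ℝ) < ((r + (k + 1) : ℤ) : ℝ) := by
      rw [Int.cast_add]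
      exact h7
    have h9 := Int.cast_lt.1 h8
    unfold Sys.Row
    omega
  by_cases hex2 : ∃ p ∈ S.P, S.w v p = 2
  · obtain ⟨p, hp, hw⟩ := hex2
    have htp : S.t p = 2 * i - 1 := by
      rcases hw2 p hp with h1 | h1
      · omega
      · exact h1.2
    have huniq : ∀ x ∈ S.P, S.w v x = 2 → x = p := by
      intro x hx hxw
      rcases hw2 x hx with h1 | h1
      · omega
      · exact t_inj h hx hp (by rw [h1.2, htp])
    obtain ⟨s1, s2, s3⟩ := t_range h hp
    obtain ⟨⟨q, hq, hq0, hq1⟩, ⟨q', hq', hq0', hq1'⟩⟩ :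
        (∃ q ∈ S.P, S.w v q = 0 ∧ q ≤ i - 2) ∧ (∃ q ∈ S.P, S.w v q = 0 ∧ i + 1 ≤ q) := by
      have : p = i - 1 ∨ p = i := by omega
      rcases this with rfl | rfl
      · exact g3_left h hG hp hw
      · exact g3_right h hG hp hw
    have hb : ∑ x ∈ S.P, (S.w v x : ℤ) ≤ S.P.card - 1 := by
      calc ∑ x ∈ S.P, (S.w v x : ℤ)
          ≤ ∑ x ∈ S.P, (1 + (if x = p then (1 : ℤ) else 0) - (if x = q then 1 else 0)
            - (if x = q' then 1 else 0)) := by
            apply Finset.sum_le_sum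
            intro x hx
            by_cases h4 : x = p
            · have h5 : x ≠ q := by
                rintro rfl
                rw [h4, hw] at hq0
                omega
              have h5' : x ≠ q' := by
                rintro rfl
                rw [h4, hw] at hq0'
                omega
              rw [if_pos h4, if_neg h5, if_neg h5', h4, hw]
              simp
            · rw [if_neg h4]
              have h3 : S.w v x ≤ 1 := by
                rcases hw2 x hx with h7 | h7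
                · exact h7
                · exact absurd (huniq x hx h7.1) h4
              by_cases h5 : x = q
              · rw [if_pos h5, h5, hq0, if_neg (by omega)]
                simp
              · rw [if_neg h5]
                by_cases h7 : x = q'
                · rw [if_pos h7, h7, hq0']
                  simp
                · rw [if_neg h7]
                  omega
        _ = S.P.card - 1 := by
            rw [Finset.sum_sub_distrib, Finset.sum_sub_distrib, Finset.sum_add_distrib, hcard,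
              hsum p hp, hsum q hq, hsum q' hq']
            ring
    have h3 := w_le (v := v) (h.tO p hp)
    rw [hw, htp] at h3
    have h4 := lhs_ge' h (v := v) (a := 2 * i - 5) (b := 2 * i - 2) (c := 2 * i + 1)
      (d := 2 * i + 4) (e := 2 * i - 1) (by omega) (by omega) (by omega)
      hv1 ⟨by omega, by omega⟩ (fun _ => h3)
    have h5 := zpos h hp
    rw [htp] at h5
    refine hfin 1 ?_ hb
    push_cast
    linarith
  · have hle1 : ∀ p ∈ S.P, S.w v p ≤ 1 := by
      intro p hp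
      rcases hw2 p hp with h7 | h7
      · exact h7
      · exact absurd ⟨p, hp, h7.1⟩ hex2
    have hone : ∀ q ∈ S.P, S.w v q = 0 → ∑ p ∈ S.P, (S.w v p : ℤ) ≤ S.P.card - 1 := by
      intro q hq hq0
      calc ∑ x ∈ S.P, (S.w v x : ℤ)
          ≤ ∑ x ∈ S.P, (1 - (if x = q then (1 : ℤ) else 0)) := by
            apply Finset.sum_le_sum
            intro x hx
            have h3 := hle1 x hx
            by_cases h5 : x = q
            · rw [if_pos h5, h5, hq0]
              simp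
            · rw [if_neg h5]
              omega
        _ = S.P.card - 1 := by
            rw [Finset.sum_sub_distrib, hcard, hsum q hq]
    -- hits in the two stars
    have hR : ∀ p ∈ S.P, 2 * i + 1 ≤ S.t p → S.t p < 2 * i + 4 →
        (i + 1 ∈ S.P ∨ i ∈ S.P ∨ (S.ex (2 * i + 3) ∧ i + 2 ∈ S.P)) := by
      intro p hp h1 h2
      obtain ⟨s1, s2, s3⟩ := t_range h hp
      have : p = i ∨ p = i + 1 ∨ p = i + 2 := by omega
      rcases this with rfl | rfl | rfl
      · exact Or.inr (Or.inl hp)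
      · exact Or.inl hp
      · refine Or.inr (Or.inr ⟨?_, hp⟩)
        rwa [show S.t (i + 2) = 2 * i + 3 by omega] at s3
    have hL : ∀ p ∈ S.P, 2 * i - 5 ≤ S.t p → S.t p < 2 * i - 2 →
        (i - 2 ∈ S.P ∨ i - 1 ∈ S.P ∨ (S.ex (2 * i - 5) ∧ i - 3 ∈ S.P)) := by
      intro p hp h1 h2
      obtain ⟨s1, s2, s3⟩ := t_range h hp
      have : p = i - 1 ∨ p = i - 2 ∨ p = i - 3 := by omega
      rcases this with rfl | rfl | rfl
      · exact Or.inr (Or.inl hp)
      · exact Or.inl hp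
      · refine Or.inr (Or.inr ⟨?_, hp⟩)
        rwa [show S.t (i - 3) = 2 * i - 5 by omega] at s3
    have hge := lhs_ge h (v := v) (a := 2 * i - 5) (b := 2 * i - 2) (c := 2 * i + 1)
      (d := 2 * i + 4) (by omega) (by omega) (by omega) hv1
    by_cases hS1 : (i + 1 ∈ S.P ∨ i ∈ S.P ∨ (S.ex (2 * i + 3) ∧ i + 2 ∈ S.P))
    · obtain ⟨q, hq, hq0, hq1, -⟩ := G3_right_served h hG hS1
      by_cases hS2 : (i - 2 ∈ S.P ∨ i - 1 ∈ S.P ∨ (S.ex (2 * i - 5) ∧ i - 3 ∈ S.P))
      · obtain ⟨q', hq', hq0', hq1', -⟩ := G3_left_served h hG hS2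
        have hb : ∑ x ∈ S.P, (S.w v x : ℤ) ≤ S.P.card - 2 := by
          calc ∑ x ∈ S.P, (S.w v x : ℤ)
              ≤ ∑ x ∈ S.P, (1 - (if x = q then 1 else 0)
                - (if x = q' then (1 : ℤ) else 0)) := by
                apply Finset.sum_le_sum
                intro x hx
                have h3 := hle1 x hx
                by_cases h5 : x = q
                · rw [if_pos h5, h5, hq0, if_neg (by omega)]
                  simp
                · rw [if_neg h5]
                  by_cases h7 : x = q'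
                  · rw [if_pos h7, h7, hq0']
                    simp
                  · rw [if_neg h7]
                    omega
            _ = S.P.card - 2 := by
                rw [Finset.sum_sub_distrib, Finset.sum_sub_distrib, hcard, hsum q hq,
                  hsum q' hq']
                ring
        refine hfin 2 ?_ hb
        push_cast
        linarith
      · have hun := unhit h (a := 2 * i - 5) (b := 2 * i - 2) (by omega) (by
          intro p hp h1
          exact hS2 (hL p hp h1.1 h1.2))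
        refine hfin 1 ?_ (hone q hq hq0)
        push_cast
        linarith
    · by_cases hS2 : (i - 2 ∈ S.P ∨ i - 1 ∈ S.P ∨ (S.ex (2 * i - 5) ∧ i - 3 ∈ S.P))
      · obtain ⟨q', hq', hq0', hq1', -⟩ := G3_left_served h hG hS2
        have hun := unhit h (a := 2 * i + 1) (b := 2 * i + 4) (by omega) (by
          intro p hp h1
          exact hS1 (hR p hp h1.1 h1.2))
        refine hfin 1 ?_ (hone q' hq' hq0')
        push_cast
        linarith
      · have hun := unhit h (a := 2 * i - 5) (b := 2 * i + 4) (by omega) (by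
          intro p hp h1
          obtain ⟨s1, s2, s3⟩ := t_range h hp
          by_cases h2 : S.t p < 2 * i - 2
          · exact hS2 (hL p hp h1.1 h2)
          · by_cases h3 : 2 * i + 1 ≤ S.t p
            · exact hS1 (hR p hp h3 h1.2)
            · have : p = i - 1 ∨ p = i := by omega
              rcases this with rfl | rfl
              · exact hS2 (Or.inr (Or.inl hp))
              · exact hS1 (Or.inr (Or.inl hp)))
        have hge2 := lhs_ge h (v := v) (a := 2 * i - 5) (b := 2 * i + 4) (c := 2 * i + 4)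
          (d := 2 * i + 4) (by omega) le_rfl le_rfl (fun x hx h1 _ => hv1 x hx (by omega)
            (by omega))
        have hemp : S.m (2 * i + 4) (2 * i + 4) = 0 := by simp [Sys.m]
        rw [hemp] at hge2
        have hb : ∑ p ∈ S.P, (S.w v p : ℤ) ≤ S.P.card - 0 := by
          calc ∑ x ∈ S.P, (S.w v x : ℤ) ≤ ∑ _x ∈ S.P, (1 : ℤ) := by
                apply Finset.sum_le_sum
                intro x hx
                have := hle1 x hx
                omega
            _ = S.P.card - 0 := by rw [hcard, sub_zero]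
        refine hfin 0 ?_ hb
        push_cast
        linarith

end Pool.Agent.H.MP_ebc13b_lc.h61b
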