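import Pool.Agent.H.MP_ebc13b_lc.h61b.L2.Asm
import Pool.Agent.H.MP_ebc13b_lc.h61b.L2.EndL

/-!
# Level 2: rows of two-class sets without values `2`, two special ends
-/

namespace Pool.Agent.H.MP_ebc13b_lc.h61b

open Finset

variable {S : Sys}

/-- `lhs_ge` for three intervals. -/
theorem TwoUL_lhs3 (h : S.Ok) {v : ℤ → ℕ} {a b c d e f : ℤ} (hab : a ≤ b) (hbc : b ≤ c)
    (hcd : c ≤ d) (hde : d ≤ e) (hef : e ≤ f)
    (hv : ∀ x, S.ex x → (x < a ∨ b ≤ x) → (x < c ∨ d ≤ x) → (x < e ∨ f ≤ x) → 1 ≤ v x) :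
    (S.P.card : ℝ) - S.m a b - S.m c d - S.m e f ≤
      ∑ x ∈ Icc (-S.K) S.K, (v x : ℝ) * S.z x := by
  have h1 := lhs_ge (S := S) h (v := fun x => v x + (if c ≤ x ∧ x < d then 1 else 0))
    (a := a) (b := b) (c := e) (d := f) hab (by omega) hef (by
      intro x hx h1 h2
      by_cases hc : c ≤ x ∧ x < d
      · simp only [hc, and_self, if_true]
        omega
      · have := hv x hx h1 (by omega) h2
        show 1 ≤ v x + _
        omega)
  have h2 : ∑ x ∈ Icc (-S.K) S.K,
      ((((fun x => v x + (if c ≤ x ∧ x < d then 1 else 0)) x : ℕ) : ℝ)) * S.z x =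
      ∑ x ∈ Icc (-S.K) S.K, (v x : ℝ) * S.z x + S.m c d := by
    rw [← sum_ind h, ← Finset.sum_add_distrib]
    refine Finset.sum_congr rfl fun x _ => ?_
    by_cases hc : c ≤ x ∧ x < d
    · simp only [hc, and_self, if_true]
      push_cast
      ring
    · simp only [hc, if_false]
      push_cast
      ring
  rw [h2] at h1
  linarith

/-- The common form of the three rows. -/
theorem TwoUL_core (h : S.Ok) {v : ℤ → ℕ} {r : ℤ} (hO : S.Own v r)
    {B0 g1 B1 A1 g2 A0 c : ℤ} (e1 : B0 ≤ g1) (e2 : g1 ≤ B1) (e3 : B1 ≤ A1) (e4 : A1 ≤ g2)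
    (e5 : g2 ≤ A0)
    (hge : ∀ x, S.ex x → (x < B0 ∨ g1 ≤ x) → (x < B1 ∨ A1 ≤ x) → (x < g2 ∨ A0 ≤ x) → 1 ≤ v x)
    (hle : ∀ x, S.ex x → v x ≤ 1)
    (hz : ∀ x, S.ex x → B1 ≤ x → x < A1 → v x = 0)
    (m1 : S.m B0 g1 ≤ 1 + S.ε) (m2 : S.m g2 A0 ≤ 1 + S.ε)
    (hL : (∀ p ∈ S.P, B0 ≤ S.t p → S.t p < B1 → S.w v p = 0) ∨
      (∃ q ∈ S.P, S.w v q = 0 ∧ S.t q < B1 ∧ q < c))
    (hR : (∀ p ∈ S.P, A1 ≤ S.t p → S.t p < A0 → S.w v p = 0) ∨
      (∃ q ∈ S.P, S.w v q = 0 ∧ A1 ≤ S.t q ∧ c ≤ q)) : S.Row v r := by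
  have hw1 : ∀ p ∈ S.P, S.w v p ≤ 1 := fun p hp =>
    le_trans (w_le (h.tO p hp)) (hle _ (t_range h hp).2.2)
  have hw0 : ∀ p ∈ S.P, B1 ≤ S.t p → S.t p < A1 → S.w v p = 0 := by
    intro p hp h1 h2
    have h3 := w_le (v := v) (h.tO p hp)
    have h4 := hz _ (t_range h hp).2.2 h1 h2
    omega
  rcases hL with hL | ⟨q', hq', wq', tq', cq'⟩
  · rcases hR with hR | ⟨q, hq, wq, tq, cq⟩
    · refine asm2 h hO (A := A0) (B := B0) (by omega) ?_ hw1 (Q := ∅) (by simp) (by simp)
        (by simp) ?_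
      · intro p hp h1 h2
        by_cases h3 : S.t p < B1
        · exact hL p hp h1 h3
        · by_cases h4 : S.t p < A1
          · exact hw0 p hp (by omega) h4
          · exact hR p hp (by omega) h2
      · have h1 := lhs_ge h (v := v) (a := B0) (b := A0) (c := A0) (d := A0) (by omega) le_rfl
          le_rfl (fun x hx h1 h2 => hge x hx (by omega) (by omega) (by omega))
        have h2 : S.m A0 A0 = 0 := by simp [Sys.m]
        rw [h2] at h1
        simpa using h1
    · refine asm2 h hO (A := A1) (B := B0) (by omega) ?_ hw1 (Q := {q}) (by simpa using hq)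
        (by simp) ?_ ?_
      · intro p hp h1 h2
        by_cases h3 : S.t p < B1
        · exact hL p hp h1 h3
        · exact hw0 p hp (by omega) h2
      · intro p hp
        rw [Finset.mem_singleton] at hp
        subst hp
        exact ⟨wq, Or.inr tq⟩
      · have h1 := lhs_ge h (v := v) (a := B0) (b := A1) (c := g2) (d := A0) (by omega) e4
          e5 (fun x hx h1 h2 => hge x hx (by omega) (by omega) (by omega))
        rw [Finset.card_singleton]
        push_cast
        linarith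
  · rcases hR with hR | ⟨q, hq, wq, tq, cq⟩
    · refine asm2 h hO (A := A0) (B := B1) (by omega) ?_ hw1 (Q := {q'}) (by simpa using hq')
        (by simp) ?_ ?_
      · intro p hp h1 h2
        by_cases h4 : S.t p < A1
        · exact hw0 p hp (by omega) h4
        · exact hR p hp (by omega) h2
      · intro p hp
        rw [Finset.mem_singleton] at hp
        subst hp
        exact ⟨wq', Or.inl tq'⟩
      · have h1 := lhs_ge h (v := v) (a := B0) (b := g1) (c := B1) (d := A0) e1 e2
          (by omega) (fun x hx h1 h2 => hge x hx (by omega) (by omega) (by omega))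
        rw [Finset.card_singleton]
        push_cast
        linarith
    · have hne : q' ≠ q := by omega
      refine asm2 h hO (A := A1) (B := B1) e3 hw0 hw1 (Q := {q', q}) ?_ ?_ ?_ ?_
      · intro p hp
        rw [Finset.mem_insert, Finset.mem_singleton] at hp
        rcases hp with hp | hp
        · rw [hp]; exact hq'
        · rw [hp]; exact hq
      · rw [Finset.card_pair hne]
      · intro p hp
        rw [Finset.mem_insert, Finset.mem_singleton] at hp
        rcases hp with hp | hp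
        · rw [hp]; exact ⟨wq', Or.inl tq'⟩
        · rw [hp]; exact ⟨wq, Or.inr tq⟩
      · have h1 := TwoUL_lhs3 h (v := v) e1 e2 e3 e4 e5 hge
        rw [Finset.card_pair hne]
        push_cast
        linarith

/-- The values of a row without values `2`. -/
theorem TwoUL_vals {v : ℤ → ℕ} {X : LEnd} {Y : REnd} (hv : Two S v X Y)
    (hn : ∀ x, S.ex x → lam X x ∨ rho Y x) {x : ℤ} (hx : S.ex x) :
    v x ≤ 1 ∧ (lam X x → rho Y x → v x = 0) ∧ (¬ (lam X x ∧ rho Y x) → 1 ≤ v x) := by
  obtain ⟨h1, h2, h3, h4⟩ := hv x hx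
  have h5 := hn x hx
  by_cases hl : lam X x
  · by_cases hr : rho Y x
    · have := h1 hl hr
      exact ⟨by omega, fun _ _ => this, fun hh => absurd ⟨hl, hr⟩ hh⟩
    · have := h2 hl hr
      exact ⟨by omega, fun _ hh => absurd hh hr, fun _ => by omega⟩
  · have hr : rho Y x := by tauto
    have := h3 hl hr
    exact ⟨by omega, fun hh => absurd hh hl, fun _ => by omega⟩

/-- The mass of one block is at most `1 + ε`. -/
theorem TwoUL_zle (h : S.Ok) (j : ℤ) : S.m (2 * j) (2 * j + 1) ≤ 1 + S.ε := by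
  rw [m_one]
  have h1 := h.star j
  have h2 := h.z0 (2 * j - 1)
  have h3 := h.z0 (2 * j + 1)
  linarith

/-- Ends `U i`, `L l` with `l ≤ i - 2` and no block with value `2`; so if `l = i - 2` the block
`2 * i - 1 = 2 * l + 3` does not exist.  Values: `1` on `x < 2 * l - 1`, `0` on the star of `l`,
`1` on `{2 * l + 2, 2 * l + 3}`, `0` on `[2 * l + 4, 2 * i - 1)`, `1` on `{2 * i - 1, 2 * i}`, `0` on
the star of `i + 1`, `1` on `x ≥ 2 * i + 4`.
`endU` (its `hx` by `hX`) and `endL` (its `hx` by `hY`); `asm2` with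
`A = 2 * i + 4` or (slot `q`) `A = max (2 * i - 1) B`, `B = 2 * l - 1` or (slot `q'`)
`B = 2 * l + 4`, `Q` = the slots which occur.  They are different: `q' ≤ l + 1 < i ≤ q`.  The hit of
`q` is `≥ 2 * i - 1` (`≥ 2 * i` if `l = i - 2`), the hit of `q'` is `≤ 2 * l + 3` (`≤ 2 * l + 2`
if `l = i - 2`). -/
theorem two_UL (h : S.Ok) {v : ℤ → ℕ} {r : ℤ} (hO : S.Own v r) {i l : ℤ}
    (hi : S.ex (2 * i + 1)) (hl : S.ex (2 * l + 1)) (hc : l ≤ i - 2)
    (hX : HX S (.L l) (.U i)) (hY : HY S (.U i) (.L l)) (hv : Two S v (.U i) (.L l))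
    (hn : ∀ x, S.ex x → lam (.U i) x ∨ rho (.L l) x) : S.Row v r := by
  have hvals := fun (x : ℤ) (hx : S.ex x) => TwoUL_vals hv hn hx
  simp only [lam, rho] at hvals hn
  simp only [HX, HY, lam, rho] at hX hY
  have hnx : l = i - 2 → ¬ S.ex (2 * i - 1) := by
    intro h1 h2
    have := hn _ h2
    omega
  have hU := endU h (v := v) hi
    (fun x hx hex => (hvals x hex).2.1 (by omega) (by omega))
    (by
      intro he x hx hex
      have h1 : l ≠ i - 2 := fun h1 => hnx h1 he
      have h2 := hX he (by omega) x hx hex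
      exact (hvals x hex).2.1 (by omega) (by omega))
  have hL := endL h (v := v) hl
    (fun x hx hex => (hvals x hex).2.1 (by omega) (by omega))
    (by
      intro he x hx hex
      have h1 : l ≠ i - 2 := fun h1 => hnx h1 (by
        have : 2 * i - 1 = 2 * l + 3 := by omega
        rw [this]; exact he)
      have h2 := hY he (by omega) x hx hex
      exact (hvals x hex).2.1 (by omega) (by omega))
  refine TwoUL_core h hO (B0 := 2 * l - 1) (g1 := 2 * l + 2) (B1 := 2 * l + 4)
    (A1 := max (2 * i - 1) (2 * l + 4)) (g2 := 2 * i + 1) (A0 := 2 * i + 4) (c := i)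
    (by omega) (by omega) (by omega) (by omega) (by omega) ?_ (fun x hx => (hvals x hx).1)
    ?_ (star_le h l) ?_ ?_ ?_
  · intro x hx h1 h2 h3
    exact (hvals x hx).2.2 (by omega)
  · intro x hx h1 h2
    exact (hvals x hx).2.1 (by omega) (by omega)
  · have := star_le h (i + 1)
    have e1 : 2 * (i + 1) - 1 = 2 * i + 1 := by ring
    have e2 : 2 * (i + 1) + 2 = 2 * i + 4 := by ring
    rwa [e1, e2] at this
  · rcases hL with hL | ⟨q, hq, wq, t1, t2, hq3⟩
    · exact Or.inl hL
    · exact Or.inr ⟨q, hq, wq, by omega, by omega⟩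
  · rcases hU with hU | ⟨q, hq, wq, t1, t2, hq3⟩
    · exact Or.inl fun p hp h1 h2 => hU p hp (by omega) h2
    · refine Or.inr ⟨q, hq, wq, ?_, by omega⟩
      have hex := (t_range h hq).2.2
      by_cases h1 : l = i - 2
      · have h2 : S.t q ≠ 2 * i - 1 := fun h2 => hnx h1 (h2 ▸ hex)
        omega
      · omega

/-- Ends `U i`, `E j` with `j ≤ i - 1` and no block with value `2`; so if `j = i - 1` the block
`2 * i - 1 = 2 * j + 1` does not exist.  Values: `1` on `x < 2 * j`, `0` on `2 * j`, `1` on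
`2 * j + 1`, `0` on `[2 * j + 2, 2 * i - 1)`, `1` on `{2 * i - 1, 2 * i}`, `0` on the star of `i + 1`,
`1` on `x ≥ 2 * i + 4`.  As `two_UL` with `endE'` instead of `endL`: `B = 2 * j` or (slot `j`)
`B = 2 * j + 2`. -/
theorem two_UE (h : S.Ok) {v : ℤ → ℕ} {r : ℤ} (hO : S.Own v r) {i j : ℤ}
    (hi : S.ex (2 * i + 1)) (hj : S.ex (2 * j)) (hc : j ≤ i - 1)
    (hX : HX S (.E j) (.U i)) (hY : HY S (.U i) (.E j)) (hv : Two S v (.U i) (.E j))
    (hn : ∀ x, S.ex x → lam (.U i) x ∨ rho (.E j) x) : S.Row v r := by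
  have hvals := fun (x : ℤ) (hx : S.ex x) => TwoUL_vals hv hn hx
  simp only [lam, rho] at hvals hn
  simp only [HX, HY, lam, rho] at hX hY
  have hnx : j = i - 1 → ¬ S.ex (2 * i - 1) := by
    intro h1 h2
    have := hn _ h2
    omega
  have hU := endU h (v := v) hi
    (fun x hx hex => (hvals x hex).2.1 (by omega) (by omega))
    (by
      intro he x hx hex
      have h1 : j ≠ i - 1 := fun h1 => hnx h1 he
      have h2 := hX he (by omega) x hx hex
      exact (hvals x hex).2.1 (by omega) (by omega))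
  have hL := endE' h (v := v) hj
    ((hvals _ hj).2.1 (by omega) (by omega))
    (by
      intro he x hx hex
      have h1 : j ≠ i - 1 := fun h1 => hnx h1 (by
        have : 2 * i - 1 = 2 * j + 1 := by omega
        rw [this]; exact he)
      have h2 := hY he (by omega) x hx hex
      exact (hvals x hex).2.1 (by omega) (by omega))
  refine TwoUL_core h hO (B0 := 2 * j) (g1 := 2 * j + 1) (B1 := 2 * j + 2)
    (A1 := max (2 * i - 1) (2 * j + 2)) (g2 := 2 * i + 1) (A0 := 2 * i + 4) (c := i)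
    (by omega) (by omega) (by omega) (by omega) (by omega) ?_ (fun x hx => (hvals x hx).1)
    ?_ (TwoUL_zle h j) ?_ ?_ ?_
  · intro x hx h1 h2 h3
    exact (hvals x hx).2.2 (by omega)
  · intro x hx h1 h2
    exact (hvals x hx).2.1 (by omega) (by omega)
  · have := star_le h (i + 1)
    have e1 : 2 * (i + 1) - 1 = 2 * i + 1 := by ring
    have e2 : 2 * (i + 1) + 2 = 2 * i + 4 := by ring
    rwa [e1, e2] at this
  · rcases hL with hL | ⟨hq, wq⟩
    · exact Or.inl hL
    · have := t_range h hq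
      exact Or.inr ⟨j, hq, wq, by omega, by omega⟩
  · rcases hU with hU | ⟨q, hq, wq, t1, t2, hq3⟩
    · exact Or.inl fun p hp h1 h2 => hU p hp (by omega) h2
    · refine Or.inr ⟨q, hq, wq, ?_, by omega⟩
      have hex := (t_range h hq).2.2
      by_cases h1 : j = i - 1
      · have h2 : S.t q ≠ 2 * i - 1 := fun h2 => hnx h1 (h2 ▸ hex)
        omega
      · omega

/-- Ends `E j`, `E j'` with `j' + 1 ≤ j` and no block with value `2`; so if `j' = j - 1` the block
`2 * j - 1` does not exist.  Values: `1` on `x < 2 * j'`, `0` on `2 * j'`, `1` on `2 * j' + 1`, `0` on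
`[2 * j' + 2, 2 * j - 1)`, `1` on `2 * j - 1`, `0` on `2 * j`, `1` on `x ≥ 2 * j + 1`. -/
theorem two_EE (h : S.Ok) {v : ℤ → ℕ} {r : ℤ} (hO : S.Own v r) {j j' : ℤ}
    (hj : S.ex (2 * j)) (hj' : S.ex (2 * j')) (hc : j' + 1 ≤ j)
    (hX : HX S (.E j') (.E j)) (hY : HY S (.E j) (.E j')) (hv : Two S v (.E j) (.E j'))
    (hn : ∀ x, S.ex x → lam (.E j) x ∨ rho (.E j') x) : S.Row v r := by
  have hvals := fun (x : ℤ) (hx : S.ex x) => TwoUL_vals hv hn hx
  simp only [lam, rho] at hvals hn
  simp only [HX, HY, lam, rho] at hX hY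
  have hnx : j' = j - 1 → ¬ S.ex (2 * j - 1) := by
    intro h1 h2
    have := hn _ h2
    omega
  have hU := endE h (v := v) hj
    ((hvals _ hj).2.1 (by omega) (by omega))
    (by
      intro he x hx hex
      have h1 : j' ≠ j - 1 := fun h1 => hnx h1 he
      have h2 := hX he (by omega) x hx hex
      exact (hvals x hex).2.1 (by omega) (by omega))
  have hL := endE' h (v := v) hj'
    ((hvals _ hj').2.1 (by omega) (by omega))
    (by
      intro he x hx hex
      have h1 : j' ≠ j - 1 := fun h1 => hnx h1 (by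
        have : 2 * j - 1 = 2 * j' + 1 := by omega
        rw [this]; exact he)
      have h2 := hY he (by omega) x hx hex
      exact (hvals x hex).2.1 (by omega) (by omega))
  refine TwoUL_core h hO (B0 := 2 * j') (g1 := 2 * j' + 1) (B1 := 2 * j' + 2)
    (A1 := max (2 * j - 1) (2 * j' + 2)) (g2 := 2 * j) (A0 := 2 * j + 1) (c := j)
    (by omega) (by omega) (by omega) (by omega) (by omega) ?_ (fun x hx => (hvals x hx).1)
    ?_ (TwoUL_zle h j') (TwoUL_zle h j) ?_ ?_
  · intro x hx h1 h2 h3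
    exact (hvals x hx).2.2 (by omega)
  · intro x hx h1 h2
    exact (hvals x hx).2.1 (by omega) (by omega)
  · rcases hL with hL | ⟨hq, wq⟩
    · exact Or.inl hL
    · have := t_range h hq
      exact Or.inr ⟨j', hq, wq, by omega, by omega⟩
  · rcases hU with hU | ⟨hq, wq⟩
    · exact Or.inl fun p hp h1 h2 => hU p hp (by omega) h2
    · refine Or.inr ⟨j, hq, wq, ?_, by omega⟩
      have ht := t_range h hq
      by_cases h1 : j' = j - 1
      · have h2 : S.t j ≠ 2 * j - 1 := fun h2 => hnx h1 (h2 ▸ ht.2.2)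
        omega
      · omega

end Pool.Agent.H.MP_ebc13b_lc.h61b
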