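import Pool.Agent.H.MP_ebc13b_lc.h61b.L2.TwoUn
import Pool.Agent.H.MP_ebc13b_lc.h61b.L2.TwoUL
import Pool.Agent.H.MP_ebc13b_lc.h61b.L2.G1
import Pool.Agent.H.MP_ebc13b_lc.h61b.L2.G2
import Pool.Agent.H.MP_ebc13b_lc.h61b.L2.G3

/-!
# Level 2: rows of two-class sets
-/

namespace Pool.Agent.H.MP_ebc13b_lc.h61b

open Finset

variable {S : Sys}

/-- One special end on the left, any values: if every existing block is a zero of one side use
`two_Un`; otherwise `2 * i - 1` or `2 * i` exists and is `< b`.  `b ≤ 2 * i + 1`.  By `HX`, and as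
`b > 2 * i - 1` ..., all existing blocks outside the star of `i + 1` have value `1` or `2`, and `2`
only on `2 * i - 1`, `2 * i`: `row_G1` with `c = i + 1`.  (If `b ≤ 2 * i - 1` every existing block is a
zero of one side; so `b ∈ {2 * i, 2 * i + 1}`, and the zeros of both sides are the existing `x` with
`b ≤ x`, `x < 2 * i + 4`, `x ≠ 2 * i`, i.e. the star of `i + 1`.) -/
theorem two_Un' (h : S.Ok) {v : ℤ → ℕ} {r : ℤ} (hO : S.Own v r) {i b : ℤ}
    (hi : S.ex (2 * i + 1)) (hc : b ≤ 2 * i + 1) (hX : HX S (.n b) (.U i))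
    (hv : Two S v (.U i) (.n b)) : S.Row v r := by
  by_cases hn : ∀ x, S.ex x → lam (.U i) x ∨ rho (.n b) x
  · exact two_Un h hO hi hc hX hv hn
  push Not at hn
  obtain ⟨x0, hx0, hl0, hr0⟩ := hn
  simp only [lam, rho] at hl0 hr0
  have hb : 2 * i ≤ b := by omega
  refine row_G1 h hO (c := i + 1) ⟨?_, ?_, ?_⟩
  · intro x hx h1 h2
    refine (hv x hx).1 ?_ ?_
    · simp only [lam]; omega
    · simp only [rho]; omega
  · intro x hx h1
    obtain ⟨_, a2, a3, a4⟩ := hv x hx
    simp only [lam, rho] at a2 a3 a4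
    rcases h1 with h1 | h1
    · by_cases hl : x < 2 * i + 4 ∧ x ≠ 2 * i - 1 ∧ x ≠ 2 * i
      · left
        exact a2 hl (by omega)
      · by_cases hr : b ≤ x
        · left
          exact a3 hl hr
        · exact a4 hl hr
    · left
      exact a3 (by omega) (by omega)
  · intro x hx h2
    obtain ⟨a1, a2, a3, a4⟩ := hv x hx
    simp only [lam, rho] at a1 a2 a3 a4
    have hl : ¬ (x < 2 * i + 4 ∧ x ≠ 2 * i - 1 ∧ x ≠ 2 * i) := by
      intro hl
      by_cases hr : b ≤ x
      · have := a1 hl hr; omega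
      · have := a2 hl hr; omega
    have hr : ¬ b ≤ x := by
      intro hr
      have := a3 hl hr; omega
    left
    refine ⟨by omega, ?_⟩
    have e : 2 * (i + 1) - 1 = 2 * i + 1 := by ring
    rw [e]
    exact hi

/-- If every existing block is a zero of one side use `two_En`; otherwise `2 * j - 1` exists and
`b = 2 * j`: `row_G2`. -/
theorem two_En' (h : S.Ok) {v : ℤ → ℕ} {r : ℤ} (hO : S.Own v r) {j b : ℤ}
    (hj : S.ex (2 * j)) (hc : b ≤ 2 * j) (hX : HX S (.n b) (.E j))
    (hv : Two S v (.E j) (.n b)) : S.Row v r := by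
  by_cases hn : ∀ x, S.ex x → lam (.E j) x ∨ rho (.n b) x
  · exact two_En h hO hj hc hX hv hn
  push Not at hn
  obtain ⟨x0, hx0, hl0, hr0⟩ := hn
  simp only [lam, rho] at hl0 hr0
  have hb : b = 2 * j := by omega
  subst hb
  refine row_G2 h hO hj ?_ ?_
  · refine (hv _ hj).1 ?_ ?_
    · simp only [lam]; omega
    · simp only [rho]; omega
  · intro x hx hne
    obtain ⟨_, a2, a3, a4⟩ := hv x hx
    simp only [lam, rho] at a2 a3 a4
    by_cases hl : x < 2 * j + 1 ∧ x ≠ 2 * j - 1
    · left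
      exact a2 hl (by omega)
    · by_cases hr : 2 * j ≤ x
      · left
        exact a3 hl hr
      · rcases a4 hl hr with h1 | h1
        · left; exact h1
        · right; exact ⟨h1, by omega⟩

/-- `l = i + 1`: `row_G1` with `c = i + 1` (both `2 * i + 1` and `2 * i + 3` exist).  `l ≤ i - 2` and
every existing block a zero of one side: `two_UL`.  Otherwise `l = i - 2` and `2 * i - 1` exists:
`row_G3`. -/
theorem two_UL' (h : S.Ok) {v : ℤ → ℕ} {r : ℤ} (hO : S.Own v r) {i l : ℤ}
    (hi : S.ex (2 * i + 1)) (hl : S.ex (2 * l + 1)) (hc : l ≤ i - 2 ∨ l = i + 1)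
    (hX : HX S (.L l) (.U i)) (hY : HY S (.U i) (.L l)) (hv : Two S v (.U i) (.L l)) :
    S.Row v r := by
  rcases hc with hc | hc
  · by_cases hn : ∀ x, S.ex x → lam (.U i) x ∨ rho (.L l) x
    · exact two_UL h hO hi hl hc hX hY hv hn
    push Not at hn
    obtain ⟨x0, hx0, hl0, hr0⟩ := hn
    simp only [lam, rho] at hl0 hr0
    obtain rfl : l = i - 2 := by omega
    obtain rfl : x0 = 2 * i - 1 := by omega
    refine row_G3 h hO (i := i) ⟨?_, hx0, hi, ?_, ?_, ?_⟩
    · have e : 2 * (i - 2) + 1 = 2 * i - 3 := by ring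
      rw [e] at hl
      exact hl
    · intro x hx h1 h2
      refine (hv x hx).1 ?_ ?_
      · simp only [lam]; omega
      · simp only [rho]; omega
    · intro x hx h1 h2
      refine (hv x hx).1 ?_ ?_
      · simp only [lam]; omega
      · simp only [rho]; omega
    · intro x hx h1
      obtain ⟨_, a2, a3, a4⟩ := hv x hx
      simp only [lam, rho] at a2 a3 a4
      by_cases hl' : x < 2 * i + 4 ∧ x ≠ 2 * i - 1 ∧ x ≠ 2 * i
      · left
        exact a2 hl' (by omega)
      · by_cases hr : 2 * (i - 2) - 2 < x ∧ x ≠ 2 * (i - 2) + 2 ∧ x ≠ 2 * (i - 2) + 3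
        · left
          exact a3 hl' hr
        · rcases a4 hl' hr with h3 | h3
          · left; exact h3
          · right; exact ⟨h3, by omega⟩
  · subst hc
    refine row_G1 h hO (c := i + 1) ⟨?_, ?_, ?_⟩
    · intro x hx h1 h2
      refine (hv x hx).1 ?_ ?_
      · simp only [lam]; omega
      · simp only [rho]; omega
    · intro x hx h1
      obtain ⟨_, a2, a3, a4⟩ := hv x hx
      simp only [lam, rho] at a2 a3 a4
      by_cases hl' : x < 2 * i + 4 ∧ x ≠ 2 * i - 1 ∧ x ≠ 2 * i
      · left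
        exact a2 hl' (by omega)
      · by_cases hr : 2 * (i + 1) - 2 < x ∧ x ≠ 2 * (i + 1) + 2 ∧ x ≠ 2 * (i + 1) + 3
        · left
          exact a3 hl' hr
        · exact a4 hl' hr
    · intro x hx h2
      obtain ⟨a1, a2, a3, a4⟩ := hv x hx
      simp only [lam, rho] at a1 a2 a3 a4
      have hl' : ¬ (x < 2 * i + 4 ∧ x ≠ 2 * i - 1 ∧ x ≠ 2 * i) := by
        intro hl'
        by_cases hr : 2 * (i + 1) - 2 < x ∧ x ≠ 2 * (i + 1) + 2 ∧ x ≠ 2 * (i + 1) + 3
        · have := a1 hl' hr; omega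
        · have := a2 hl' hr; omega
      have hr : ¬ (2 * (i + 1) - 2 < x ∧ x ≠ 2 * (i + 1) + 2 ∧ x ≠ 2 * (i + 1) + 3) := by
        intro hr
        have := a3 hl' hr; omega
      have e : 2 * (i + 1) - 1 = 2 * i + 1 := by ring
      rw [e]
      by_cases hlt : x ≤ 2 * i
      · left
        exact ⟨by omega, hi⟩
      · right
        exact ⟨by omega, hl⟩

/-- If every existing block is a zero of one side use `two_UE`; otherwise `j = i - 1` and `2 * i - 1`
exists: `row_G4`. -/
theorem two_UE' (h : S.Ok) {v : ℤ → ℕ} {r : ℤ} (hO : S.Own v r) {i j : ℤ}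
    (hi : S.ex (2 * i + 1)) (hj : S.ex (2 * j)) (hc : j ≤ i - 1)
    (hX : HX S (.E j) (.U i)) (hY : HY S (.U i) (.E j)) (hv : Two S v (.U i) (.E j)) :
    S.Row v r := by
  by_cases hn : ∀ x, S.ex x → lam (.U i) x ∨ rho (.E j) x
  · exact two_UE h hO hi hj hc hX hY hv hn
  push Not at hn
  obtain ⟨x0, hx0, hl0, hr0⟩ := hn
  simp only [lam, rho] at hl0 hr0
  obtain rfl : j = i - 1 := by omega
  have e : 2 * (i - 1) = 2 * i - 2 := by ring
  have hj' : S.ex (2 * i - 2) := by
    rw [← e]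
    exact hj
  refine row_G4 h hO hi hj' ?_ ?_ ?_
  · refine (hv _ hj').1 ?_ ?_
    · simp only [lam]; omega
    · simp only [rho]; omega
  · intro x hx h1 h2
    refine (hv x hx).1 ?_ ?_
    · simp only [lam]; omega
    · simp only [rho]; omega
  · intro x hx hne h1
    obtain ⟨_, a2, a3, a4⟩ := hv x hx
    simp only [lam, rho] at a2 a3 a4
    by_cases hl : x < 2 * i + 4 ∧ x ≠ 2 * i - 1 ∧ x ≠ 2 * i
    · left
      exact a2 hl (by omega)
    · by_cases hr : 2 * (i - 1) - 1 < x ∧ x ≠ 2 * (i - 1) + 1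
      · left
        exact a3 hl hr
      · rcases a4 hl hr with h3 | h3
        · left; exact h3
        · right; exact ⟨h3, by omega⟩

/-- If every existing block is a zero of one side use `two_EE`; otherwise `j' = j - 1` and
`2 * j - 1` exists: `row_G5`. -/
theorem two_EE' (h : S.Ok) {v : ℤ → ℕ} {r : ℤ} (hO : S.Own v r) {j j' : ℤ}
    (hj : S.ex (2 * j)) (hj' : S.ex (2 * j')) (hc : j' + 1 ≤ j)
    (hX : HX S (.E j') (.E j)) (hY : HY S (.E j) (.E j')) (hv : Two S v (.E j) (.E j')) :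
    S.Row v r := by
  by_cases hn : ∀ x, S.ex x → lam (.E j) x ∨ rho (.E j') x
  · exact two_EE h hO hj hj' hc hX hY hv hn
  push Not at hn
  obtain ⟨x0, hx0, hl0, hr0⟩ := hn
  simp only [lam, rho] at hl0 hr0
  obtain rfl : j' = j - 1 := by omega
  have e : 2 * (j - 1) = 2 * j - 2 := by ring
  have hj2 : S.ex (2 * j - 2) := by
    rw [← e]
    exact hj'
  refine row_G5 h hO hj hj2 ?_ ?_ ?_
  · refine (hv _ hj).1 ?_ ?_
    · simp only [lam]; omega
    · simp only [rho]; omega
  · refine (hv _ hj2).1 ?_ ?_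
    · simp only [lam]; omega
    · simp only [rho]; omega
  · intro x hx hne hne'
    obtain ⟨_, a2, a3, a4⟩ := hv x hx
    simp only [lam, rho] at a2 a3 a4
    by_cases hl : x < 2 * j + 1 ∧ x ≠ 2 * j - 1
    · left
      exact a2 hl (by omega)
    · by_cases hr : 2 * (j - 1) - 1 < x ∧ x ≠ 2 * (j - 1) + 1
      · left
        exact a3 hl hr
      · rcases a4 hl hr with h3 | h3
        · left; exact h3
        · right; exact ⟨h3, by omega⟩

/-- **Rows of two-class sets.**  Case distinction on the ends: `two_nn`, `two_Un'`, `two_En'`,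
`two_UL'`, `two_UE'`, `two_EE'` and the mirror images of `two_Un'`, `two_En'`, `two_UE'` via
`Refl.lean`. -/
theorem two_class (h : S.Ok) {v : ℤ → ℕ} {r : ℤ} (hO : S.Own v r) {X : LEnd} {Y : REnd}
    (hX : X.Val S) (hY : Y.Val S) (hc : Compat2 X Y) (h1 : HX S Y X) (h2 : HY S X Y)
    (hv : Two S v X Y) : S.Row v r := by
  cases X with
  | n a =>
    cases Y with
    | n b => exact two_nn h hO hc hv
    | E j =>
      exact row_refl.1 (two_En' (ok_refl h) (own_refl.2 hO) (rval_refl.2 hY)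
        (compat2_refl hc) (hy_refl h2) (two_refl hv))
    | L l =>
      exact row_refl.1 (two_Un' (ok_refl h) (own_refl.2 hO) (rval_refl.2 hY)
        (compat2_refl hc) (hy_refl h2) (two_refl hv))
  | E j =>
    cases Y with
    | n b => exact two_En' h hO hX hc h1 hv
    | E j' => exact two_EE' h hO hX hY hc h1 h2 hv
    | L l =>
      exact row_refl.1 (two_UE' (ok_refl h) (own_refl.2 hO) (rval_refl.2 hY)
        (lval_refl.2 hX) (compat2_refl hc) (hy_refl h2) (hx_refl h1) (two_refl hv))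
  | U i =>
    cases Y with
    | n b => exact two_Un' h hO hX hc h1 hv
    | E j => exact two_UE' h hO hX hY hc h1 h2 hv
    | L l => exact two_UL' h hO hX hY hc h1 h2 hv

end Pool.Agent.H.MP_ebc13b_lc.h61b
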