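import Pool.Agent.H.MP_ebc13b_lc.h61b.L2.Bas

/-!
# Level 2: assembling a row from the local information
-/

namespace Pool.Agent.H.MP_ebc13b_lc.h61b

open Finset

variable {S : Sys}

/-- If the values of the hits satisfy the row, so do the smallest values of the options
(`w_le` with the hit, which is an option by `tO`). -/
theorem row_of_hits (h : S.Ok) {v : ℤ → ℕ} {r : ℤ} (hH : S.Hs v ≤ r) : S.Row v r := by
  unfold Sys.Row
  unfold Sys.Hs at hH
  refine le_trans (Finset.sum_le_sum fun p hp => ?_) hH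
  exact_mod_cast w_le (v := v) (h.tO p hp)

private theorem Asm_in (h : S.Ok) {x : ℤ} (hx : S.ex x) : x ∈ Icc (-S.K) S.K :=
  Finset.mem_Icc.2 (h.bd x hx)

private theorem Asm_nn (h : S.Ok) (v : ℤ → ℕ) (x : ℤ) : 0 ≤ (v x : ℝ) * S.z x :=
  mul_nonneg (Nat.cast_nonneg _) (h.z0 x)

/-- If the sum of the smallest values is at most `1`, the row holds: if the sum is `1`, some slot
`p` has `w p = 1`, so `1 ≤ v (t p)` and `2 * δ ≤ z (t p) ≤ ∑ v x * z x ≤ r + ε`, hence `0 < r`.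
If the sum is `0` use `own_nonneg`. -/
theorem row_le_one (h : S.Ok) {v : ℤ → ℕ} {r : ℤ} (hO : S.Own v r)
    (h1 : ∑ p ∈ S.P, S.w v p ≤ 1) : S.Row v r := by
  unfold Sys.Row
  by_cases h0 : ∑ p ∈ S.P, S.w v p = 0
  · have h2 : (∑ p ∈ S.P, (S.w v p : ℤ)) = 0 := by exact_mod_cast h0
    rw [h2]
    exact own_nonneg h hO
  · obtain ⟨p, hp, hw⟩ : ∃ p ∈ S.P, S.w v p ≠ 0 := by
      by_contra hcon
      push Not at hcon
      exact h0 (Finset.sum_eq_zero hcon)
    have h2 : 1 ≤ v (S.t p) := (Nat.one_le_iff_ne_zero.2 hw).trans (w_le (v := v) (h.tO p hp))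
    have h3 := zpos h hp
    have h4 := (t_range h hp).2.2
    have h5 : (v (S.t p) : ℝ) * S.z (S.t p) ≤
        ∑ x ∈ Icc (-S.K) S.K, (v x : ℝ) * S.z x :=
      Finset.single_le_sum (f := fun x => (v x : ℝ) * S.z x) (fun x _ => Asm_nn h v x)
        (Asm_in h h4)
    have h6 : S.z (S.t p) ≤ (v (S.t p) : ℝ) * S.z (S.t p) := by
      have h7 : (1 : ℝ) ≤ v (S.t p) := by exact_mod_cast h2
      have h8 := h.z0 (S.t p)
      nlinarith
    have hO' : ∑ x ∈ Icc (-S.K) S.K, (v x : ℝ) * S.z x ≤ r + S.ε := hO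
    have h9 := h.δε
    have h10 := h.δ0
    have h11 := h.ε0
    have h12 : (0 : ℝ) < r := by linarith
    have h13 : 0 < r := by exact_mod_cast h12
    have h14 : (∑ p ∈ S.P, (S.w v p : ℤ)) ≤ 1 := by exact_mod_cast h1
    linarith

/-- counting the slots with nonzero values -/
private theorem Asm_count {v : ℤ → ℕ} (h1 : ∀ p ∈ S.P, S.w v p ≤ 1) {R : Finset ℤ}
    (hR : R ⊆ S.P) (hR0 : ∀ p ∈ R, S.w v p = 0) :
    (∑ p ∈ S.P, (S.w v p : ℤ)) ≤ (S.P.card : ℤ) - R.card := by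
  have e1 : (∑ p ∈ S.P, (S.w v p : ℤ)) = ∑ p ∈ S.P \ R, (S.w v p : ℤ) := by
    rw [← Finset.sum_sdiff hR]
    have e2 : ∑ p ∈ R, (S.w v p : ℤ) = 0 := Finset.sum_eq_zero fun p hp => by
      rw [hR0 p hp]
      rfl
    rw [e2, add_zero]
  have e3 : (∑ p ∈ S.P \ R, (S.w v p : ℤ)) ≤ ∑ _p ∈ S.P \ R, (1 : ℤ) := by
    refine Finset.sum_le_sum fun p hp => ?_
    exact_mod_cast h1 p (Finset.mem_sdiff.1 hp).1
  have e4 : (S.P \ R).card + R.card = S.P.card := Finset.card_sdiff_add_card_eq_card hR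
  rw [e1]
  refine e3.trans ?_
  rw [Finset.sum_const, nsmul_eq_mul, mul_one]
  omega

/-- the last estimate of the two assemblies -/
private theorem Asm_fin (h : S.Ok) {v : ℤ → ℕ} {r : ℤ} (hO : S.Own v r) {q : ℕ} (hq : q ≤ 2)
    {s : ℤ} (hs : (s : ℝ) ≤ ∑ x ∈ Icc (-S.K) S.K, (v x : ℝ) * S.z x + q * (1 + S.ε) +
      1 - 2 * S.δ - q) : s ≤ r := by
  have hO' : ∑ x ∈ Icc (-S.K) S.K, (v x : ℝ) * S.z x ≤ r + S.ε := hO
  have h9 := h.δε
  have h10 := h.δ0
  have h11 := h.ε0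
  have h12 : (q : ℝ) ≤ 2 := by exact_mod_cast hq
  have h13 : (q : ℝ) * S.ε ≤ 2 * S.ε := mul_le_mul_of_nonneg_right h12 h11
  have h14 : (s : ℝ) < (r : ℝ) + 1 := by
    have h15 : (q : ℝ) * (1 + S.ε) = q + q * S.ε := by ring
    linarith
  have h16 : s < r + 1 := by exact_mod_cast h14
  omega

/-- **Assembly for rows of one-class sets.**  All slots with `w ≠ 0` have their hit in `[A, B)`,
`w ≤ 1`, `Q` is a set of slots with `w = 0` and hit in `[A, B)`, at most two of them, and the mass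
of `[A, B)` is at most the left hand side of the row plus `|Q| * (1 + ε)`.  Then
`∑ w ≤ N A B - |Q| ≤ m A B + 1 - 2 * δ - |Q| ≤ r + ε + |Q| * ε + 1 - 2 * δ < r + 1`. -/
theorem asm1 (h : S.Ok) {v : ℤ → ℕ} {r : ℤ} (hO : S.Own v r) {A B : ℤ} (hAB : A ≤ B)
    (h0 : ∀ p ∈ S.P, (S.t p < A ∨ B ≤ S.t p) → S.w v p = 0)
    (h1 : ∀ p ∈ S.P, S.w v p ≤ 1) {Q : Finset ℤ} (hQ : Q ⊆ S.P) (hQ2 : Q.card ≤ 2)
    (hQ0 : ∀ q ∈ Q, S.w v q = 0 ∧ A ≤ S.t q ∧ S.t q < B)
    (hm : S.m A B ≤ ∑ x ∈ Icc (-S.K) S.K, (v x : ℝ) * S.z x + Q.card * (1 + S.ε)) :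
    S.Row v r := by
  unfold Sys.Row
  set R1 : Finset ℤ := S.P.filter fun p => ¬ (A ≤ S.t p ∧ S.t p < B) with hR1
  have hdisj : Disjoint R1 Q := by
    rw [Finset.disjoint_left]
    intro p hp hpQ
    exact (Finset.mem_filter.1 hp).2 (hQ0 p hpQ).2
  have hc := Asm_count (v := v) h1 (R := R1 ∪ Q)
    (Finset.union_subset (Finset.filter_subset _ _) hQ) (by
      intro p hp
      rcases Finset.mem_union.1 hp with hp | hp
      · obtain ⟨h2, h3⟩ := Finset.mem_filter.1 hp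
        refine h0 p h2 ?_
        by_contra h4
        push Not at h4
        exact h3 h4
      · exact (hQ0 p hp).1)
  rw [Finset.card_union_of_disjoint hdisj] at hc
  have hN : (S.P.filter fun p => A ≤ S.t p ∧ S.t p < B).card + R1.card = S.P.card :=
    Finset.card_filter_add_card_filter_not (s := S.P) (fun p => A ≤ S.t p ∧ S.t p < B)
  have hN' : S.N A B = ((S.P.filter fun p => A ≤ S.t p ∧ S.t p < B).card : ℤ) := rfl
  have hle : (∑ p ∈ S.P, (S.w v p : ℤ)) ≤ S.N A B - Q.card := by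
    rw [hN']
    omega
  refine hle.trans (Asm_fin h hO hQ2 ?_)
  have hcnt := h.cnt1 A B hAB
  push_cast
  linarith

/-- **Assembly for rows of two-class sets.**  All slots with hit in `[B, A)` have `w = 0`, `w ≤ 1`
for all slots, `Q` is a set of at most two slots with `w = 0` and hit outside `[B, A)`, and the mass
outside `[B, A)` is at most the left hand side of the row plus `|Q| * (1 + ε)`.  Then
`∑ w ≤ |P| - N B A - |Q| ≤ |P| - m B A + 1 - 2 * δ - |Q| < r + 1`. -/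
theorem asm2 (h : S.Ok) {v : ℤ → ℕ} {r : ℤ} (hO : S.Own v r) {A B : ℤ} (hAB : B ≤ A)
    (h0 : ∀ p ∈ S.P, B ≤ S.t p → S.t p < A → S.w v p = 0)
    (h1 : ∀ p ∈ S.P, S.w v p ≤ 1) {Q : Finset ℤ} (hQ : Q ⊆ S.P) (hQ2 : Q.card ≤ 2)
    (hQ0 : ∀ q ∈ Q, S.w v q = 0 ∧ (S.t q < B ∨ A ≤ S.t q))
    (hm : (S.P.card : ℝ) - S.m B A ≤
      ∑ x ∈ Icc (-S.K) S.K, (v x : ℝ) * S.z x + Q.card * (1 + S.ε)) :
    S.Row v r := by
  unfold Sys.Row
  set R1 : Finset ℤ := S.P.filter fun p => B ≤ S.t p ∧ S.t p < A with hR1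
  have hdisj : Disjoint R1 Q := by
    rw [Finset.disjoint_left]
    intro p hp hpQ
    have h2 := (Finset.mem_filter.1 hp).2
    have h3 := (hQ0 p hpQ).2
    omega
  have hc := Asm_count (v := v) h1 (R := R1 ∪ Q)
    (Finset.union_subset (Finset.filter_subset _ _) hQ) (by
      intro p hp
      rcases Finset.mem_union.1 hp with hp | hp
      · obtain ⟨h2, h3⟩ := Finset.mem_filter.1 hp
        exact h0 p h2 h3.1 h3.2
      · exact (hQ0 p hp).1)
  rw [Finset.card_union_of_disjoint hdisj] at hc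
  have hN' : S.N B A = (R1.card : ℤ) := rfl
  have hle : (∑ p ∈ S.P, (S.w v p : ℤ)) ≤ (S.P.card : ℤ) - S.N B A - Q.card := by
    rw [hN']
    push_cast at hc ⊢
    linarith
  refine hle.trans (Asm_fin h hO hQ2 ?_)
  have hcnt := h.cnt2 B A hAB
  push_cast
  linarith

/-- Lower bound for the left hand side of a row whose values are at least `1` outside a finite
family of pairwise disjoint intervals: the total mass minus the mass of the intervals.  Here for two
intervals `[a, b)`, `[c, d)` (take an empty one if only one is needed). -/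
theorem lhs_ge (h : S.Ok) {v : ℤ → ℕ} {a b c d : ℤ} (hab : a ≤ b) (hbc : b ≤ c) (hcd : c ≤ d)
    (hv : ∀ x, S.ex x → (x < a ∨ b ≤ x) → (x < c ∨ d ≤ x) → 1 ≤ v x) :
    (S.P.card : ℝ) - S.m a b - S.m c d ≤ ∑ x ∈ Icc (-S.K) S.K, (v x : ℝ) * S.z x := by
  rw [← h.tot, ← sum_ind h (a := a) (b := b), ← sum_ind h (a := c) (b := d),
    ← Finset.sum_sub_distrib, ← Finset.sum_sub_distrib]
  refine Finset.sum_le_sum fun x _ => ?_
  by_cases hx : S.ex x
  · have hz := h.z0 x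
    have hnn := Asm_nn h v x
    by_cases h1 : a ≤ x ∧ x < b
    · rw [if_pos h1]
      split_ifs <;> linarith
    · rw [if_neg h1]
      by_cases h2 : c ≤ x ∧ x < d
      · rw [if_pos h2]
        linarith
      · rw [if_neg h2]
        have h3 : (1 : ℝ) ≤ v x := by exact_mod_cast hv x hx (by omega) (by omega)
        nlinarith
  · rw [h.zex x hx]
    simp

/-- The same with an additional block `e` outside the intervals whose value is at least `2`. -/
theorem lhs_ge' (h : S.Ok) {v : ℤ → ℕ} {a b c d e : ℤ} (hab : a ≤ b) (hbc : b ≤ c) (hcd : c ≤ d)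
    (hv : ∀ x, S.ex x → (x < a ∨ b ≤ x) → (x < c ∨ d ≤ x) → 1 ≤ v x)
    (he : (e < a ∨ b ≤ e) ∧ (e < c ∨ d ≤ e)) (hve : S.ex e → 2 ≤ v e) :
    (S.P.card : ℝ) - S.m a b - S.m c d + S.z e ≤ ∑ x ∈ Icc (-S.K) S.K, (v x : ℝ) * S.z x := by
  by_cases hex : S.ex e
  · have hsing : ∑ x ∈ Icc (-S.K) S.K, (if x = e then S.z x else 0) = S.z e := by
      rw [Finset.sum_ite_eq' (Icc (-S.K) S.K) e S.z, if_pos (Asm_in h hex)]
    rw [← h.tot, ← sum_ind h (a := a) (b := b), ← sum_ind h (a := c) (b := d), ← hsing,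
      ← Finset.sum_sub_distrib, ← Finset.sum_sub_distrib, ← Finset.sum_add_distrib]
    refine Finset.sum_le_sum fun x _ => ?_
    by_cases hxe : x = e
    · subst hxe
      have hz := h.z0 x
      have h3 : (2 : ℝ) ≤ v x := by exact_mod_cast hve hex
      rw [if_neg (by omega), if_neg (by omega), if_pos rfl]
      nlinarith
    · rw [if_neg hxe, add_zero]
      by_cases hx : S.ex x
      · have hz := h.z0 x
        have hnn := Asm_nn h v x
        by_cases h1 : a ≤ x ∧ x < b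
        · rw [if_pos h1]
          split_ifs <;> linarith
        · rw [if_neg h1]
          by_cases h2 : c ≤ x ∧ x < d
          · rw [if_pos h2]
            linarith
          · rw [if_neg h2]
            have h3 : (1 : ℝ) ≤ v x := by exact_mod_cast hv x hx (by omega) (by omega)
            nlinarith
      · rw [h.zex x hx]
        simp
  · rw [h.zex e hex, add_zero]
    exact lhs_ge h hab hbc hcd hv

end Pool.Agent.H.MP_ebc13b_lc.h61b
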