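import Pool.Agent.H.MP_ebc13b_lc.h61b.L2.FDefs
import Pool.Agent.H.MP_ebc13b_lc.h61b.L2.Asm
import Pool.Agent.H.MP_ebc13b_lc.h61b.L2.Refl

/-!
# Level 2: rows of stable sets with an interior core and a split slot
-/

namespace Pool.Agent.H.MP_ebc13b_lc.h61b

open Finset

variable {S : Sys}

/-- All slots have `w ≤ 1`: a slot with `w ≥ 2` would have its hit in `2 * j` or `2 * j + 2`
(the only blocks of value `> 1`).  `2 * j + 1` is an option of `j`, so `j + 1 ∉ P` (unfold `O`:
`2 * j + 1 ≠ 2 * j`, `2 * j + 1 ≠ 2 * j - 1`) and the hit `2 * j + 2` is impossible; the hit `2 * j`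
belongs to the slot `j`, which has the option `2 * j + 1` of value `1`. -/
theorem ba_le_one (h : S.Ok) {v : ℤ → ℕ} {j : ℤ} {e : Prop} (hB : BA S v j e) (hj : j ∈ S.P)
    (hO : S.O j (2 * j + 1)) : (∀ p ∈ S.P, S.w v p ≤ 1) ∧ j + 1 ∉ S.P := by
  have hj1 : j + 1 ∉ S.P := by
    obtain ⟨_, h1 | ⟨_, h1, _⟩ | ⟨h1, _⟩⟩ := hO
    · omega
    · exact h1
    · omega
  refine ⟨?_, hj1⟩
  intro p hp
  have hw := w_le (v := v) (h.tO p hp)
  have hex := (t_range h hp).2.2
  have ht := h.tst p hp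
  by_cases h0 : S.t p = 2 * j
  · have hpj : p = j := by omega
    subst hpj
    have h1 := w_le (v := v) hO
    rw [hB.v1] at h1
    exact h1
  · by_cases h2 : S.t p = 2 * j + 2
    · have hpj : p = j + 1 := by omega
      subst hpj
      exact absurd hp hj1
    · refine hw.trans ?_
      by_cases h1 : S.t p = 2 * j + 1
      · rw [h1, hB.v1]
      · by_cases h3 : S.t p = 2 * j + 3
        · rw [h3] at hex ⊢
          exact hB.v3 hex
        · by_cases he : e ∧ (S.t p = 2 * j - 3 ∨ S.t p = 2 * j - 2 ∨ S.t p = 2 * j - 1)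
          · rw [hB.ve he.1 _ hex he.2]
            exact Nat.zero_le _
          · rw [hB.vo _ hex (by omega) he]

/-- counting -/
private theorem BARow_fin {v : ℤ → ℕ} {r : ℤ} (h1 : ∀ p ∈ S.P, S.w v p ≤ 1) {R : Finset ℤ}
    (hR : R ⊆ S.P) (hR0 : ∀ p ∈ R, S.w v p = 0) (hO : S.Own v r) {X : ℝ}
    (hX : (S.P.card : ℝ) - X ≤ ∑ x ∈ Icc (-S.K) S.K, (v x : ℝ) * S.z x)
    (hlt : X + S.ε < R.card + 1) : S.Row v r := by
  have e1 : (∑ p ∈ S.P, (S.w v p : ℤ)) = ∑ p ∈ S.P \ R, (S.w v p : ℤ) := by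
    rw [← Finset.sum_sdiff hR]
    have e2 : ∑ p ∈ R, (S.w v p : ℤ) = 0 := Finset.sum_eq_zero fun p hp => by
      rw [hR0 p hp]
      rfl
    rw [e2, add_zero]
  have e3 : (∑ p ∈ S.P \ R, (S.w v p : ℤ)) ≤ ∑ _p ∈ S.P \ R, (1 : ℤ) := by
    refine Finset.sum_le_sum fun p hp => ?_
    exact_mod_cast h1 p (Finset.mem_sdiff.1 hp).1
  have e4 : (S.P \ R).card + R.card = S.P.card := Finset.card_sdiff_add_card_eq_card hR
  have hO' : ∑ x ∈ Icc (-S.K) S.K, (v x : ℝ) * S.z x ≤ r + S.ε := hO
  have h2 : (S.P.card : ℝ) - R.card - 1 < (r : ℝ) := by linarith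
  have h3 : (S.P.card : ℤ) - R.card - 1 < r := by exact_mod_cast h2
  unfold Sys.Row
  rw [e1]
  refine e3.trans ?_
  rw [Finset.sum_const, nsmul_eq_mul, mul_one]
  omega

/-- the error is small -/
private theorem BARow_eps (h : S.Ok) {j : ℤ} (hj : j ∈ S.P) : 15 * S.ε ≤ 1 := by
  have h1 := zpos h hj
  have h2 := h.δε
  have hs := h.star j
  have z1 := h.z0 (2 * j - 1)
  have z2 := h.z0 (2 * j)
  have z3 := h.z0 (2 * j + 1)
  rcases h.tst j hj with e | e | e
  · rw [e] at h1
    linarith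
  · rw [e] at h1
    linarith
  · rw [e] at h1
    linarith

/-- the left part of the estimate -/
private theorem BARow_left (h : S.Ok) {v : ℤ → ℕ} {j : ℤ} {e : Prop} (hB : BA S v j e)
    (hj : j ∈ S.P) : ∃ a b : ℤ, a ≤ b ∧ b ≤ 2 * j + 2 ∧ ∃ R : Finset ℤ, R ⊆ S.P ∧
      (∀ p ∈ R, S.w v p = 0 ∧ p ≤ j) ∧ R.card ≤ 1 ∧ S.m a b ≤ R.card * (1 + S.ε) ∧
      ∀ x, S.ex x → (x < a ∨ b ≤ x) → (x < 2 * j + 2 ∨ 2 * j + 4 ≤ x) → 1 ≤ v x := by
  by_cases he : e
  · obtain ⟨q, hq, hq2⟩ := served (S := S) (j := j - 1) (Or.inr (Or.inr ⟨by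
      have e1 : 2 * (j - 1) + 1 = 2 * j - 1 := by ring
      rw [e1]
      exact hB.exe he, by
      have e1 : j - 1 + 1 = j := by ring
      rw [e1]
      exact hj⟩))
    have hq0 : S.w v q = 0 ∧ q ≤ j := by
      have key : ∀ b, S.O q b → (b = 2 * j - 3 ∨ b = 2 * j - 2 ∨ b = 2 * j - 1) →
          S.w v q = 0 := by
        intro b hb hb2
        have h1 := w_le (v := v) hb
        rw [hB.ve he b (O_range hb).2.2 hb2] at h1
        omega
      rcases hq2 with h1 | ⟨h1, h2⟩ | ⟨h1, h2⟩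
      · refine ⟨key _ (h.tO q hq) ?_, by omega⟩
        have ht := h.tst q hq
        omega
      · exact ⟨key _ h2 (by omega), by omega⟩
      · exact ⟨key _ h2 (by omega), by omega⟩
    refine ⟨2 * j - 3, 2 * j, by omega, by omega, {q}, ?_, ?_, ?_, ?_, ?_⟩
    · intro x hx
      rw [Finset.mem_singleton] at hx
      rw [hx]
      exact hq
    · intro x hx
      rw [Finset.mem_singleton] at hx
      rw [hx]
      exact hq0
    · rw [Finset.card_singleton]
    · rw [Finset.card_singleton]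
      have h1 := star_le h (j - 1)
      have e1 : 2 * (j - 1) - 1 = 2 * j - 3 := by ring
      have e2 : 2 * (j - 1) + 2 = 2 * j := by ring
      rw [e1, e2] at h1
      push_cast
      linarith
    · intro x hx h1 h2
      by_cases h3 : x = 2 * j
      · subst h3
        have := hB.v0 hx
        omega
      · by_cases h4 : x = 2 * j + 1
        · subst h4
          rw [hB.v1]
        · rw [hB.vo x hx (by omega) (by omega)]
  · refine ⟨2 * j, 2 * j, le_refl _, by omega, ∅, Finset.empty_subset _, by simp, by simp, ?_, ?_⟩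
    · simp [Sys.m]
    · intro x hx h1 h2
      by_cases h3 : x = 2 * j
      · subst h3
        have := hB.v0 hx
        omega
      · by_cases h4 : x = 2 * j + 1
        · subst h4
          rw [hB.v1]
        · rw [hB.vo x hx (by omega) (fun h5 => he h5.1)]

/-- **Rows with a split slot.**  `w ≤ 1` and `j + 1 ∉ P` by `ba_le_one`.

Lower bound for the left hand side: all values are at least `1` outside `{2 * j + 2, 2 * j + 3}` and
(if `e` holds) the star of `j - 1`.  `lhs_ge` with `[2 * j - 3, 2 * j)` (if `e` holds, otherwise an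
empty interval) and `[2 * j + 2, 2 * j + 4)`.

*Without `e`.*  If `2 * j + 3` is hit and has value `0`, its slot (`j + 2`, as `j + 1 ∉ P`) has
`w = 0`, so `∑ w ≤ |P| - 1`, and `r ≥ |P| - (1 + ε) - ε` (star of `j + 1`), so `r ≥ |P| - 1`.  If
`2 * j + 3` is hit and has value `1`: `2 * j + 2` is not hit (`j + 1 ∉ P`), so
`z (2 * j + 2) ≤ 1 - 2 * δ` and `r ≥ |P|` (use `lhs_ge` with the interval `[2 * j + 2, 2 * j + 3)`).
If `2 * j + 3` is not hit then `[2 * j + 2, 2 * j + 4)` contains no hit, so its mass is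
`≤ 1 - 2 * δ` and `r ≥ |P| ≥ ∑ w`.

*With `e`.*  `2 * j - 1` exists and `j ∈ P`, so by `served` for the hub `j - 1` there is a slot
`q ∈ {j - 2, j - 1, j}` with `w q = 0` (if `q = j - 1` its hit is in the star of `j - 1`; otherwise
the option `2 * j - 3` or `2 * j - 1`).  The star of `j - 1` has mass at most `1 + ε`.
If `2 * j + 3` is hit and has value `0`, the slot `j + 2` has `w = 0` too: `∑ w ≤ |P| - 2` and
`r ≥ |P| - 2 * (1 + ε) - ε`, so `r ≥ |P| - 2`.  Otherwise the zero blocks among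
`{2 * j + 2, 2 * j + 3}` form an interval without hit, of mass `≤ 1 - 2 * δ`, so
`r ≥ |P| - (1 + ε) - (1 - 2 * δ) - ε`, i.e. `r ≥ |P| - 1`, and `∑ w ≤ |P| - 1`. -/
theorem ba_row (h : S.Ok) {v : ℤ → ℕ} {r j : ℤ} {e : Prop} (hO : S.Own v r) (hB : BA S v j e)
    (hj : j ∈ S.P) (hOj : S.O j (2 * j + 1)) : S.Row v r := by
  obtain ⟨hw, hj1⟩ := ba_le_one h hB hj hOj
  obtain ⟨a, b, hab, hbc, R, hR, hR0, hRc, hm, hv⟩ := BARow_left h hB hj
  have heps := BARow_eps h hj
  have h9 := h.δε
  have h10 := h.δ0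
  have h11 := h.ε0
  have hRε : (R.card : ℝ) * (1 + S.ε) ≤ R.card + S.ε := by
    have h12 : (R.card : ℝ) ≤ 1 := by exact_mod_cast hRc
    nlinarith
  by_cases hhit : ∃ p ∈ S.P, S.t p = 2 * j + 3
  · obtain ⟨p, hp, htp⟩ := hhit
    have hpj : p = j + 2 := by
      have ht := h.tst p hp
      have hne : p ≠ j + 1 := by
        rintro rfl
        exact hj1 hp
      omega
    have hex : S.ex (2 * j + 3) := htp ▸ (t_range h hp).2.2
    by_cases hv0 : v (2 * j + 3) = 0
    · -- case A
      have hpR : p ∉ R := by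
        intro hpR
        have := (hR0 p hpR).2
        omega
      have hstar := star_le h (j + 1)
      have e1 : 2 * (j + 1) - 1 = 2 * j + 1 := by ring
      have e2 : 2 * (j + 1) + 2 = 2 * j + 4 := by ring
      rw [e1, e2, m_split (S := S) (a := 2 * j + 1) (b := 2 * j + 2) (c := 2 * j + 4)
        (by omega) (by omega)] at hstar
      have hnn := m_nonneg h (2 * j + 1) (2 * j + 2)
      have hlhs := lhs_ge h hab hbc (d := 2 * j + 4) (by omega) hv
      refine BARow_fin hw (R := insert p R) ?_ ?_ hO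
        (X := S.m a b + S.m (2 * j + 2) (2 * j + 4)) (by linarith) ?_
      · intro x hx
        rcases Finset.mem_insert.1 hx with rfl | hx
        · exact hp
        · exact hR hx
      · intro x hx
        rcases Finset.mem_insert.1 hx with rfl | hx
        · have h1 := w_le (v := v) (h.tO x hp)
          rw [htp, hv0] at h1
          omega
        · exact (hR0 x hx).1
      · rw [Finset.card_insert_of_notMem hpR]
        push_cast
        linarith
    · -- case B
      have hv1 : v (2 * j + 3) = 1 := by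
        have := hB.v3 hex
        omega
      have hu := unhit h (a := 2 * j + 2) (b := 2 * j + 3) (by omega) (by
        rintro q hq ⟨h1, h2⟩
        have ht := h.tst q hq
        have hqj : q = j + 1 := by omega
        rw [hqj] at hq
        exact hj1 hq)
      have hlhs := lhs_ge h (v := v) hab hbc (d := 2 * j + 3) (by omega) (by
        intro x hx h1 h2
        by_cases h3 : x = 2 * j + 3
        · rw [h3, hv1]
        · exact hv x hx h1 (by omega))
      refine BARow_fin hw hR (fun p hp => (hR0 p hp).1) hO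
        (X := S.m a b + S.m (2 * j + 2) (2 * j + 3)) (by linarith) ?_
      linarith
  · -- case C
    have hu := unhit h (a := 2 * j + 2) (b := 2 * j + 4) (by omega) (by
      rintro q hq ⟨h1, h2⟩
      have ht := h.tst q hq
      have hne : S.t q ≠ 2 * j + 3 := fun h3 => hhit ⟨q, hq, h3⟩
      have hqj : q = j + 1 := by omega
      rw [hqj] at hq
      exact hj1 hq)
    have hlhs := lhs_ge h (v := v) hab hbc (d := 2 * j + 4) (by omega) hv
    refine BARow_fin hw hR (fun p hp => (hR0 p hp).1) hO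
      (X := S.m a b + S.m (2 * j + 2) (2 * j + 4)) (by linarith) ?_
    linarith

/-- The mirror image of `ba_row`: apply it to `S.refl`, `fun x => v (-x)`, `-j` (`mem_refl`, `O_refl`,
`own_refl`, `row_refl`, `ok_refl`). -/
theorem ba_row' (h : S.Ok) {v : ℤ → ℕ} {r j : ℤ} {e : Prop} (hO : S.Own v r)
    (hB : BA S.refl (fun x => v (-x)) (-j) e) (hj : j ∈ S.P) (hOj : S.O j (2 * j - 1)) :
    S.Row v r := by
  rw [← row_refl]
  refine ba_row (ok_refl h) (own_refl.2 hO) hB (mem_refl.2 (by rwa [neg_neg])) ?_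
  rw [O_refl, neg_neg]
  have e1 : -(2 * -j + 1) = 2 * j - 1 := by ring
  rw [e1]
  exact hOj

end Pool.Agent.H.MP_ebc13b_lc.h61b
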