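import Pool.Agent.H.MP_ebc13b_lc.h61b.L2.BasA

/-!
# Level 2: basic facts on slot systems (options)
-/

namespace Pool.Agent.H.MP_ebc13b_lc.h61b

open Finset

variable {S : Sys}

/-- the smallest value is at most the value of any option -/
theorem w_le {v : ℤ → ℕ} {p b : ℤ} (hO : S.O p b) : S.w v p ≤ v b :=
  Nat.sInf_le ⟨b, hO, rfl⟩

/-- the smallest value is attained -/
theorem w_att (h : S.Ok) {v : ℤ → ℕ} {p : ℤ} (hp : p ∈ S.P) : ∃ b, S.O p b ∧ v b = S.w v p := by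
  have hne : ({n | ∃ b, S.O p b ∧ v b = n} : Set ℕ).Nonempty :=
    ⟨v (S.t p), S.t p, h.tO p hp, rfl⟩
  exact Nat.sInf_mem hne

/-- options of `p` are in the star of `p` and exist -/
theorem O_range {p b : ℤ} (hO : S.O p b) : 2 * p - 1 ≤ b ∧ b ≤ 2 * p + 1 ∧ S.ex b := by
  obtain ⟨hex, h⟩ := hO
  rcases h with h | ⟨h, -, -⟩ | ⟨h, -, -⟩
  · exact ⟨by omega, by omega, hex⟩
  · exact ⟨by omega, by omega, hex⟩
  · exact ⟨by omega, by omega, hex⟩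

private theorem Bas_left {j : ℤ} (hj : j ∉ S.P) (hex : S.ex (2 * j - 1))
    (hL : S.ex (2 * j + 1) → j + 1 ∈ S.P → S.L j) : S.O (j - 1) (2 * j - 1) := by
  refine ⟨hex, Or.inr (Or.inl ⟨by ring, ?_, ?_⟩)⟩
  · have e : j - 1 + 1 = j := by ring
    rw [e]; exact hj
  · have e1 : 2 * (j - 1) + 3 = 2 * j + 1 := by ring
    have e2 : j - 1 + 2 = j + 1 := by ring
    have e3 : j - 1 + 1 = j := by ring
    rw [e1, e2, e3]; exact hL

private theorem Bas_right {j : ℤ} (hj : j ∉ S.P) (hex : S.ex (2 * j + 1))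
    (hL : S.ex (2 * j - 1) → j - 1 ∈ S.P → ¬ S.L j) : S.O (j + 1) (2 * j + 1) := by
  refine ⟨hex, Or.inr (Or.inr ⟨by ring, ?_, ?_⟩)⟩
  · have e : j + 1 - 1 = j := by ring
    rw [e]; exact hj
  · have e1 : 2 * (j + 1) - 3 = 2 * j - 1 := by ring
    have e2 : j + 1 - 2 = j - 1 := by ring
    have e3 : j + 1 - 1 = j := by ring
    rw [e1, e2, e3]; exact hL

/-- If the left neighbour `j - 1` of the unused hub `j` is a slot, then one of the slots `j - 1`,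
`j + 1` has an option containing the hub `j`. -/
theorem served_left {j : ℤ} (hj : j ∉ S.P) (hp : j - 1 ∈ S.P) (hex : S.ex (2 * j - 1)) :
    S.O (j - 1) (2 * j - 1) ∨ (j + 1 ∈ S.P ∧ S.O (j + 1) (2 * j + 1)) := by
  by_cases hL : S.ex (2 * j + 1) → j + 1 ∈ S.P → S.L j
  · exact Or.inl (Bas_left hj hex hL)
  · push Not at hL
    obtain ⟨h1, h2, h3⟩ := hL
    exact Or.inr ⟨h2, Bas_right hj h1 fun _ _ => h3⟩

/-- mirror image of `served_left` -/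
theorem served_right {j : ℤ} (hj : j ∉ S.P) (hp : j + 1 ∈ S.P) (hex : S.ex (2 * j + 1)) :
    S.O (j + 1) (2 * j + 1) ∨ (j - 1 ∈ S.P ∧ S.O (j - 1) (2 * j - 1)) := by
  by_cases hL : S.ex (2 * j - 1) → j - 1 ∈ S.P → ¬ S.L j
  · exact Or.inl (Bas_right hj hex hL)
  · push Not at hL
    obtain ⟨h1, h2, h3⟩ := hL
    exact Or.inr ⟨h2, Bas_left hj h1 fun _ _ => h3⟩

/-- A hub which is a slot or next to a slot is contained in an option of some slot `q`. -/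
theorem served {j : ℤ} (hyp : j ∈ S.P ∨ (S.ex (2 * j - 1) ∧ j - 1 ∈ S.P) ∨
    (S.ex (2 * j + 1) ∧ j + 1 ∈ S.P)) :
    ∃ q ∈ S.P, q = j ∨ (q = j - 1 ∧ S.O q (2 * j - 1)) ∨ (q = j + 1 ∧ S.O q (2 * j + 1)) := by
  by_cases hj : j ∈ S.P
  · exact ⟨j, hj, Or.inl rfl⟩
  rcases hyp with h | ⟨hex, hp⟩ | ⟨hex, hp⟩
  · exact absurd h hj
  · rcases served_left hj hp hex with h | ⟨h1, h2⟩
    · exact ⟨j - 1, hp, Or.inr (Or.inl ⟨rfl, h⟩)⟩
    · exact ⟨j + 1, h1, Or.inr (Or.inr ⟨rfl, h2⟩)⟩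
  · rcases served_right hj hp hex with h | ⟨h1, h2⟩
    · exact ⟨j + 1, hp, Or.inr (Or.inr ⟨rfl, h⟩)⟩
    · exact ⟨j - 1, h1, Or.inr (Or.inl ⟨rfl, h2⟩)⟩

end Pool.Agent.H.MP_ebc13b_lc.h61b
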