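import Pool.Agent.H.MP_ebc13b_lc.h61b.L2.Defs

/-!
# Level 2: basic facts on slot systems (masses and hits)
-/

namespace Pool.Agent.H.MP_ebc13b_lc.h61b

open Finset

variable {S : Sys}

/-- The hit of `p` is in the star of `p` and exists. -/
theorem t_range (h : S.Ok) {p : ℤ} (hp : p ∈ S.P) :
    2 * p - 1 ≤ S.t p ∧ S.t p ≤ 2 * p + 1 ∧ S.ex (S.t p) := by
  refine ⟨?_, ?_, (h.tO p hp).1⟩
  · rcases h.tst p hp with e | e | e <;> omega
  · rcases h.tst p hp with e | e | e <;> omega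

/-- The mass is additive. -/
theorem m_split {a b c : ℤ} (h1 : a ≤ b) (h2 : b ≤ c) : S.m a c = S.m a b + S.m b c := by
  unfold Sys.m
  rw [← Finset.sum_union]
  · congr 1
    ext x
    simp only [Finset.mem_union, Finset.mem_Ico]
    omega
  · rw [Finset.disjoint_left]
    intro x hx hx'
    simp only [Finset.mem_Ico] at hx hx'
    omega

/-- The mass is nonnegative. -/
theorem m_nonneg (h : S.Ok) (a b : ℤ) : 0 ≤ S.m a b :=
  Finset.sum_nonneg fun x _ => h.z0 x

/-- The mass of one block. -/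
theorem m_one (a : ℤ) : S.m a (a + 1) = S.z a := by
  unfold Sys.m
  have e : Finset.Ico a (a + 1) = {a} := by
    ext x
    simp only [Finset.mem_Ico, Finset.mem_singleton]
    omega
  rw [e, Finset.sum_singleton]

private theorem BasA_star (h : S.Ok) (j : ℤ) : S.m (2 * j - 1) (2 * j + 2) ≤ 1 + S.ε := by
  have e1 : S.m (2 * j - 1) (2 * j + 2) = S.m (2 * j - 1) (2 * j) + S.m (2 * j) (2 * j + 2) :=
    m_split (by omega) (by omega)
  have e2 : S.m (2 * j) (2 * j + 2) = S.m (2 * j) (2 * j + 1) + S.m (2 * j + 1) (2 * j + 2) :=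
    m_split (by omega) (by omega)
  have e3 : S.m (2 * j - 1) (2 * j) = S.z (2 * j - 1) := by
    have := m_one (S := S) (2 * j - 1)
    rwa [show 2 * j - 1 + 1 = 2 * j by ring] at this
  have e4 : S.m (2 * j) (2 * j + 1) = S.z (2 * j) := m_one _
  have e5 : S.m (2 * j + 1) (2 * j + 2) = S.z (2 * j + 1) := by
    have := m_one (S := S) (2 * j + 1)
    rwa [show 2 * j + 1 + 1 = 2 * j + 2 by ring] at this
  have e6 := h.star j
  linarith

private theorem BasA_z (h : S.Ok) (x : ℤ) : S.z x ≤ 1 + S.ε := by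
  rcases Int.even_or_odd' x with ⟨i, e | e⟩
  · have := h.star i
    have h1 := h.z0 (2 * i - 1)
    have h2 := h.z0 (2 * i + 1)
    rw [e]
    linarith
  · have := h.star i
    have h1 := h.z0 (2 * i - 1)
    have h2 := h.z0 (2 * i)
    rw [e]
    linarith

private theorem BasA_two {p q a b : ℤ} (hp : p ∈ S.P) (hq : q ∈ S.P) (hpq : p ≠ q)
    (h1 : a ≤ S.t p) (h2 : S.t p < b) (h3 : a ≤ S.t q) (h4 : S.t q < b) :
    (2 : ℝ) ≤ (S.N a b : ℝ) := by
  have hsub : ({p, q} : Finset ℤ) ⊆ S.P.filter fun p => a ≤ S.t p ∧ S.t p < b := by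
    intro x hx
    simp only [Finset.mem_insert, Finset.mem_singleton] at hx
    rcases hx with rfl | rfl
    · exact Finset.mem_filter.mpr ⟨hp, h1, h2⟩
    · exact Finset.mem_filter.mpr ⟨hq, h3, h4⟩
  have hc := Finset.card_le_card hsub
  rw [Finset.card_pair hpq] at hc
  have : (2 : ℤ) ≤ S.N a b := by
    unfold Sys.N
    exact_mod_cast hc
  exact_mod_cast this

private theorem BasA_eps (h : S.Ok) : S.ε < 2 * S.δ := by
  have h1 := h.ε0
  have h2 := h.δε
  have h3 := h.δ0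
  linarith

/-- Sums over all blocks of indicator functions of intervals (`z` vanishes outside `[-K, K]`, by
`bd` and `zex`). -/
theorem sum_ind (h : S.Ok) {a b : ℤ} :
    ∑ x ∈ Icc (-S.K) S.K, (if a ≤ x ∧ x < b then S.z x else 0) = S.m a b := by
  unfold Sys.m
  rw [← Finset.sum_filter]
  refine Finset.sum_subset ?_ ?_
  · intro x hx
    rw [Finset.mem_filter] at hx
    exact Finset.mem_Ico.mpr hx.2
  · intro x hx hx'
    refine h.zex x fun hex => hx' ?_
    rw [Finset.mem_filter]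
    exact ⟨Finset.mem_Icc.mpr (h.bd x hex), Finset.mem_Ico.mp hx⟩

/-- The mass of an interval is at most the number of slots. -/
theorem m_le_card (h : S.Ok) (a b : ℤ) : S.m a b ≤ S.P.card := by
  rw [← h.tot, ← sum_ind h]
  refine Finset.sum_le_sum fun x _ => ?_
  split_ifs
  · exact le_refl _
  · exact h.z0 x

/-- Monotonicity: lower bounds for the left hand side of a row. -/
theorem own_mono (h : S.Ok) {v : ℤ → ℕ} {r : ℤ} (hO : S.Own v r) {g : ℤ → ℝ}
    (hg : ∀ x, S.ex x → g x ≤ (v x : ℝ)) :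
    ∑ x ∈ Icc (-S.K) S.K, g x * S.z x ≤ r + S.ε := by
  refine le_trans (Finset.sum_le_sum fun x _ => ?_) hO
  by_cases hx : S.ex x
  · exact mul_le_mul_of_nonneg_right (hg x hx) (h.z0 x)
  · rw [h.zex x hx, mul_zero, mul_zero]

/-- The right hand side of a row is nonnegative (`r > -1`). -/
theorem own_nonneg (h : S.Ok) {v : ℤ → ℕ} {r : ℤ} (hO : S.Own v r) : 0 ≤ r := by
  have h1 : ∑ x ∈ Icc (-S.K) S.K, (0 : ℝ) * S.z x ≤ r + S.ε :=
    own_mono h hO (g := fun _ => 0) fun x _ => Nat.cast_nonneg _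
  simp only [zero_mul, Finset.sum_const_zero] at h1
  have h2 := h.cnt1 0 0 (le_refl 0)
  have h3 : S.m 0 0 = 0 := by simp [Sys.m]
  have h4 : (0 : ℝ) ≤ (S.N 0 0 : ℝ) := by
    have : (0 : ℤ) ≤ S.N 0 0 := by unfold Sys.N; positivity
    exact_mod_cast this
  have h5 := h.δε
  have h6 := h.δ0
  have h7 : (-1 : ℝ) < r := by
    rw [h3] at h2
    linarith
  have h8 : (-1 : ℤ) < r := by exact_mod_cast h7
  omega

/-- Different slots have different hits: two slots with the same hit `x` are neighbours `p`, `p + 1`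
with `x = 2 * p + 1`, and `2 = N x (x+1) ≤ z x + 1 - 2 * δ ≤ 2 + ε - 2 * δ < 2` by `star`, `z0`. -/
theorem t_inj (h : S.Ok) {p q : ℤ} (hp : p ∈ S.P) (hq : q ∈ S.P) (e : S.t p = S.t q) :
    p = q := by
  by_contra hpq
  have h1 := BasA_two (a := S.t p) (b := S.t p + 1) hp hq hpq (le_refl _) (by omega)
    (le_of_eq e) (by omega)
  have h2 := h.cnt1 (S.t p) (S.t p + 1) (by omega)
  rw [m_one] at h2
  have h3 := BasA_z h (S.t p)
  have h4 := BasA_eps h
  linarith

/-- Every star contains at most one hit (`cnt1` for the interval `[2 * j - 1, 2 * j + 2)`, whose mass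
is at most `1 + ε`). -/
theorem one_star (h : S.Ok) {p q j : ℤ} (hp : p ∈ S.P) (hq : q ∈ S.P)
    (h1 : 2 * j - 1 ≤ S.t p) (h2 : S.t p ≤ 2 * j + 1)
    (h3 : 2 * j - 1 ≤ S.t q) (h4 : S.t q ≤ 2 * j + 1) : p = q := by
  by_contra hpq
  have h5 := BasA_two (a := 2 * j - 1) (b := 2 * j + 2) hp hq hpq h1 (by omega) h3 (by omega)
  have h6 := h.cnt1 (2 * j - 1) (2 * j + 2) (by omega)
  have h7 := BasA_star h j
  have h8 := BasA_eps h
  linarith

/-- The mass of a hit block is at least `2 * δ` (`cnt1` for `[t p, t p + 1)`). -/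
theorem zpos (h : S.Ok) {p : ℤ} (hp : p ∈ S.P) : 2 * S.δ ≤ S.z (S.t p) := by
  have h1 := h.cnt1 (S.t p) (S.t p + 1) (by omega)
  rw [m_one] at h1
  have h2 : (1 : ℤ) ≤ S.N (S.t p) (S.t p + 1) := by
    unfold Sys.N
    have : 0 < (S.P.filter fun q => S.t p ≤ S.t q ∧ S.t q < S.t p + 1).card :=
      Finset.card_pos.mpr ⟨p, Finset.mem_filter.mpr ⟨hp, le_refl _, by omega⟩⟩
    omega
  have h3 : (1 : ℝ) ≤ (S.N (S.t p) (S.t p + 1) : ℝ) := by exact_mod_cast h2
  linarith

/-- The mass of an interval without hits is at most `1 - 2 * δ` (`cnt2`). -/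
theorem unhit (h : S.Ok) {a b : ℤ} (hab : a ≤ b)
    (hN : ∀ p ∈ S.P, ¬ (a ≤ S.t p ∧ S.t p < b)) : S.m a b ≤ 1 - 2 * S.δ := by
  have h1 := h.cnt2 a b hab
  have h2 : S.N a b = 0 := by
    unfold Sys.N
    rw [Finset.filter_false_of_mem hN, Finset.card_empty]
    rfl
  rw [h2] at h1
  have h3 : ((0 : ℤ) : ℝ) = 0 := Int.cast_zero
  linarith

/-- The mass of a star. -/
theorem star_le (h : S.Ok) (j : ℤ) : S.m (2 * j - 1) (2 * j + 2) ≤ 1 + S.ε :=
  BasA_star h j

end Pool.Agent.H.MP_ebc13b_lc.h61b
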