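import Mathlib

/-!
# Level 2: slot systems on a line of blocks (no graph)

Hubs are indexed by integers `i`.  The block `2 * i` consists of the triangles containing only the
hub `i`, the block `2 * i + 1` is the triangle containing the hubs `i` and `i + 1` (if it exists).
The star of the hub `i` consists of the blocks `2 * i - 1`, `2 * i`, `2 * i + 1`.
-/

namespace Pool.Agent.H.MP_ebc13b_lc.h61b

/-- A slot system.  `ex b`: the block `b` exists; `z b`: its mass; `P`: the (hubs of the) slots;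
`t p`: the hit block of the slot `p`; `L j`: the hub `j`, which is not a slot, belongs to the left
slot `j - 1` (only relevant if `j - 1` and `j + 1` are slots and the blocks `2 * j - 1`, `2 * j + 1`
exist); `δ` is the margin of the sampling and `ε` the error of the approximate solution. -/
structure Sys where
  ex : ℤ → Prop
  z : ℤ → ℝ
  K : ℤ
  P : Finset ℤ
  t : ℤ → ℤ
  L : ℤ → Prop
  δ : ℝ
  ε : ℝ

/-- the block `b` is an option of the slot `p` -/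
def Sys.O (S : Sys) (p b : ℤ) : Prop :=
  S.ex b ∧ (b = 2 * p ∨
    (b = 2 * p + 1 ∧ p + 1 ∉ S.P ∧ (S.ex (2 * p + 3) → p + 2 ∈ S.P → S.L (p + 1))) ∨
    (b = 2 * p - 1 ∧ p - 1 ∉ S.P ∧ (S.ex (2 * p - 3) → p - 2 ∈ S.P → ¬ S.L (p - 1))))

/-- the number of hits in the blocks `a ≤ x < b` -/
def Sys.N (S : Sys) (a b : ℤ) : ℤ := ((S.P.filter fun p => a ≤ S.t p ∧ S.t p < b).card : ℤ)

/-- the mass of the blocks `a ≤ x < b` -/
noncomputable def Sys.m (S : Sys) (a b : ℤ) : ℝ := ∑ x ∈ Finset.Ico a b, S.z x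

/-- The axioms of slot systems. -/
structure Sys.Ok (S : Sys) : Prop where
  z0 : ∀ b, 0 ≤ S.z b
  zex : ∀ b, ¬ S.ex b → S.z b = 0
  bd : ∀ b, S.ex b → -S.K ≤ b ∧ b ≤ S.K
  hub : ∀ i, ¬ S.ex (2 * i) → (S.ex (2 * i - 1) ↔ S.ex (2 * i + 1))
  star : ∀ i, S.z (2 * i - 1) + S.z (2 * i) + S.z (2 * i + 1) ≤ 1 + S.ε
  tst : ∀ p ∈ S.P, S.t p = 2 * p - 1 ∨ S.t p = 2 * p ∨ S.t p = 2 * p + 1
  tO : ∀ p ∈ S.P, S.O p (S.t p)
  cnt1 : ∀ a b, a ≤ b → (S.N a b : ℝ) ≤ S.m a b + 1 - 2 * S.δ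
  cnt2 : ∀ a b, a ≤ b → S.m a b - 1 + 2 * S.δ ≤ (S.N a b : ℝ)
  tot : ∑ x ∈ Finset.Icc (-S.K) S.K, S.z x = (S.P.card : ℝ)
  WL : ∀ p ∈ S.P, S.t p = 2 * p + 1 → (∃ b, b ≠ 2 * p + 1 ∧ S.O p b) ∨
    (¬ S.ex (2 * p + 2) ∧ (p + 2 ∈ S.P ∨ (S.ex (2 * p + 5) ∧ p + 3 ∈ S.P)))
  WR : ∀ p ∈ S.P, S.t p = 2 * p - 1 → (∃ b, b ≠ 2 * p - 1 ∧ S.O p b) ∨
    (¬ S.ex (2 * p - 2) ∧ (p - 2 ∈ S.P ∨ (S.ex (2 * p - 5) ∧ p - 3 ∈ S.P)))
  ε0 : 0 ≤ S.ε
  δε : 8 * S.ε ≤ S.δ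
  δ0 : 0 < S.δ

/-- the smallest value of an option of the slot `p` -/
noncomputable def Sys.w (S : Sys) (v : ℤ → ℕ) (p : ℤ) : ℕ := sInf {n | ∃ b, S.O p b ∧ v b = n}

/-- The row with the coefficients `v` and the right hand side `r` holds (up to `ε`) for the
masses. -/
def Sys.Own (S : Sys) (v : ℤ → ℕ) (r : ℤ) : Prop :=
  ∑ x ∈ Finset.Icc (-S.K) S.K, (v x : ℝ) * S.z x ≤ r + S.ε

/-- The row holds for the slots. -/
def Sys.Row (S : Sys) (v : ℤ → ℕ) (r : ℤ) : Prop := ∑ p ∈ S.P, (S.w v p : ℤ) ≤ r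

/-- the sum of the values of the hits -/
def Sys.Hs (S : Sys) (v : ℤ → ℕ) : ℤ := ∑ p ∈ S.P, (v (S.t p) : ℤ)

/-- the hub `j` is free: no block of its star is hit -/
def Sys.Free (S : Sys) (j : ℤ) : Prop :=
  ∀ p ∈ S.P, S.t p ≠ 2 * j - 1 ∧ S.t p ≠ 2 * j ∧ S.t p ≠ 2 * j + 1

/-- left ends of the arcs of ones -/
inductive LEnd
  | n (a : ℤ)
  | E (j : ℤ)
  | U (i : ℤ)

/-- right ends of the arcs of ones -/
inductive REnd
  | n (b : ℤ)
  | E (j : ℤ)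
  | L (l : ℤ)

/-- the zeros on the left -/
def lam : LEnd → ℤ → Prop
  | .n a, x => x < a
  | .E j, x => x < 2 * j + 1 ∧ x ≠ 2 * j - 1
  | .U i, x => x < 2 * i + 4 ∧ x ≠ 2 * i - 1 ∧ x ≠ 2 * i

/-- the zeros on the right -/
def rho : REnd → ℤ → Prop
  | .n b, x => b ≤ x
  | .E j, x => 2 * j - 1 < x ∧ x ≠ 2 * j + 1
  | .L l, x => 2 * l - 2 < x ∧ x ≠ 2 * l + 2 ∧ x ≠ 2 * l + 3

/-- the block of an end exists -/
def LEnd.Val (S : Sys) : LEnd → Prop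
  | .n _ => True
  | .E j => S.ex (2 * j)
  | .U i => S.ex (2 * i + 1)

/-- the block of an end exists -/
def REnd.Val (S : Sys) : REnd → Prop
  | .n _ => True
  | .E j => S.ex (2 * j)
  | .L l => S.ex (2 * l + 1)

/-- rows of one-class sets: the value is `0` at the zeros on the left and on the right, `1` between
them -/
def One (S : Sys) (v : ℤ → ℕ) (X : LEnd) (Y : REnd) : Prop :=
  ∀ x, S.ex x → ((lam X x ∨ rho Y x) → v x = 0) ∧ (¬ lam X x → ¬ rho Y x → v x = 1)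

/-- relative position of the ends in rows of one-class sets -/
def Compat1 (S : Sys) : LEnd → REnd → Prop
  | .n _, .n _ => True
  | .U i, .n b => ∀ x ≤ 2 * i + 3, S.ex x → x < b
  | .E j, .n b => ∀ x ≤ 2 * j + 1, S.ex x → x < b
  | .n a, .L l => ∀ x ≥ 2 * l - 1, S.ex x → a ≤ x
  | .n a, .E j => ∀ x ≥ 2 * j - 1, S.ex x → a ≤ x
  | .U i, .L l => i + 3 ≤ l ∨ (l = i + 2 ∧ ¬ S.ex (2 * i + 3))
  | .U i, .E j => i + 3 ≤ j ∨ (j = i + 2 ∧ ¬ S.ex (2 * i + 3))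
  | .E j, .L l => j + 2 ≤ l ∨ (l = j + 1 ∧ ¬ S.ex (2 * j + 1))
  | .E j, .E j' => j + 1 ≤ j'

/-- rows of two-class sets: the value is `0` at the common zeros, `1` at the other zeros of one
side, and `1` or `2` elsewhere -/
def Two (S : Sys) (v : ℤ → ℕ) (X : LEnd) (Y : REnd) : Prop :=
  ∀ x, S.ex x → (lam X x → rho Y x → v x = 0) ∧ (lam X x → ¬ rho Y x → v x = 1) ∧
    (¬ lam X x → rho Y x → v x = 1) ∧ (¬ lam X x → ¬ rho Y x → v x = 1 ∨ v x = 2)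

/-- relative position of the ends in rows of two-class sets -/
def Compat2 : LEnd → REnd → Prop
  | .n a, .n b => b ≤ a
  | .U i, .n b => b ≤ 2 * i + 1
  | .E j, .n b => b ≤ 2 * j
  | .n a, .L l => 2 * l + 2 ≤ a
  | .n a, .E j => 2 * j + 1 ≤ a
  | .U i, .L l => l ≤ i - 2 ∨ l = i + 1
  | .U i, .E j => j ≤ i - 1
  | .E j, .L l => l + 2 ≤ j
  | .E j, .E j' => j' + 1 ≤ j

/-- If the reflected block `2 * i - 1` of the left end is a zero of the right side, then so are the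
other blocks of the star of the hub `i - 1`. -/
def HX (S : Sys) (Y : REnd) : LEnd → Prop
  | .n _ => True
  | .E j => S.ex (2 * j - 1) → rho Y (2 * j - 1) →
      ∀ x, (x = 2 * j - 3 ∨ x = 2 * j - 2) → S.ex x → rho Y x
  | .U i => S.ex (2 * i - 1) → rho Y (2 * i - 1) →
      ∀ x, (x = 2 * i - 3 ∨ x = 2 * i - 2) → S.ex x → rho Y x

/-- the mirror image of `HX` -/
def HY (S : Sys) (X : LEnd) : REnd → Prop
  | .n _ => True
  | .E j => S.ex (2 * j + 1) → lam X (2 * j + 1) →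
      ∀ x, (x = 2 * j + 2 ∨ x = 2 * j + 3) → S.ex x → lam X x
  | .L l => S.ex (2 * l + 3) → lam X (2 * l + 3) →
      ∀ x, (x = 2 * l + 4 ∨ x = 2 * l + 5) → S.ex x → lam X x

end Pool.Agent.H.MP_ebc13b_lc.h61b
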