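import Pool.Agent.H.MP_ebc13b_lc.h61b.L2.Bas

/-!
# Level 2: special left ends
-/

namespace Pool.Agent.H.MP_ebc13b_lc.h61b

open Finset

variable {S : Sys}

/-- **The end `U i`** (gap = star of the hub `i + 1`, value `0`; reflected blocks `2 * i - 1`,
`2 * i`).  Either all slots with hit in `[2 * i - 1, 2 * i + 4)` have `w = 0`, or there is a slot
`q` with `w = 0` and hit in `[2 * i - 1, 2 * i + 5]`.

Proof.  If `i + 1` is a slot, or `i` is a slot, or `2 * i + 3` exists and `i + 2` is a slot, take `q`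
from `served` (for `j = i + 1`): `q = i + 1` (its hit is in the gap, so `w = 0`), or `q = i` with the
option `2 * i + 1`, or `q = i + 2` with the option `2 * i + 3` (value `0`, if it is an option it
exists).  The hit of `q` is in the star of `q` (`t_range`).
Otherwise let `2 * i - 1 ≤ t p < 2 * i + 4`.  By `t_range` the hit `t p` is in the star of `p`; the
hits `2 * i`, ..., `2 * i + 3` would belong to a slot `i`, `i + 1` or (`2 * i + 3` exists) `i + 2`.
So `t p = 2 * i - 1` and `p = i - 1`.  By `WL` for `p` there is another option `b ≠ 2 * p + 1`, hence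
`b = 2 * i - 2` or `b = 2 * i - 3`, of value `0` by `hx`; the second alternative of `WL` says that
`i + 1` is a slot, or `2 * i + 3` exists and `i + 2` is a slot, which is excluded. -/
theorem endU (h : S.Ok) {v : ℤ → ℕ} {i : ℤ} (hi : S.ex (2 * i + 1))
    (h0 : ∀ x, (x = 2 * i + 1 ∨ x = 2 * i + 2 ∨ x = 2 * i + 3) → S.ex x → v x = 0)
    (hx : S.ex (2 * i - 1) → ∀ x, (x = 2 * i - 3 ∨ x = 2 * i - 2) → S.ex x → v x = 0) :
    (∀ p ∈ S.P, 2 * i - 1 ≤ S.t p → S.t p < 2 * i + 4 → S.w v p = 0) ∨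
    (∃ q ∈ S.P, S.w v q = 0 ∧ 2 * i - 1 ≤ S.t q ∧ S.t q ≤ 2 * i + 5 ∧
      (q = i ∨ q = i + 1 ∨ (q = i + 2 ∧ S.ex (2 * i + 3)))) := by
  by_cases hyp : i + 1 ∈ S.P ∨ (S.ex (2 * (i + 1) - 1) ∧ i + 1 - 1 ∈ S.P) ∨
      (S.ex (2 * (i + 1) + 1) ∧ i + 1 + 1 ∈ S.P)
  · right
    obtain ⟨q, hq, h1 | ⟨h1, h2⟩ | ⟨h1, h2⟩⟩ := served hyp
    · obtain ⟨h3, h4, h5⟩ := t_range h hq
      have h6 : v (S.t q) = 0 := h0 (S.t q) (by omega) h5
      have h7 := w_le (v := v) (h.tO q hq)
      exact ⟨q, hq, by omega, by omega, by omega, by omega⟩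
    · obtain ⟨h3, h4, h5⟩ := t_range h hq
      obtain ⟨_, _, h8⟩ := O_range h2
      have h6 : v (2 * (i + 1) - 1) = 0 := h0 _ (by omega) h8
      have h7 := w_le (v := v) h2
      exact ⟨q, hq, by omega, by omega, by omega, by omega⟩
    · obtain ⟨h3, h4, h5⟩ := t_range h hq
      obtain ⟨_, _, h8⟩ := O_range h2
      have h6 : v (2 * (i + 1) + 1) = 0 := h0 _ (by omega) h8
      have h7 := w_le (v := v) h2
      have h9 : S.ex (2 * i + 3) := by
        have e : 2 * (i + 1) + 1 = 2 * i + 3 := by ring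
        rw [← e]; exact h8
      exact ⟨q, hq, by omega, by omega, by omega, Or.inr (Or.inr ⟨by omega, h9⟩)⟩
  · left
    push Not at hyp
    obtain ⟨hy1, hy2, hy3⟩ := hyp
    have hy2' : i ∉ S.P := by
      have h1 := hy2 (by
        have e : 2 * (i + 1) - 1 = 2 * i + 1 := by ring
        rw [e]; exact hi)
      have e : i + 1 - 1 = i := by ring
      rwa [e] at h1
    have hy3' : S.ex (2 * i + 3) → i + 2 ∉ S.P := by
      intro h1
      have h2 := hy3 (by
        have e : 2 * (i + 1) + 1 = 2 * i + 3 := by ring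
        rw [e]; exact h1)
      have e : i + 1 + 1 = i + 2 := by ring
      rwa [e] at h2
    intro p hp ha hb
    obtain ⟨h3, h4, h5⟩ := t_range h hp
    have hc1 : p ≠ i + 1 := fun e => hy1 (e ▸ hp)
    have hc2 : p ≠ i := fun e => hy2' (e ▸ hp)
    have hc3 : p ≠ i + 2 := by
      intro e
      subst e
      have e2 : S.t (i + 2) = 2 * i + 3 := by omega
      rw [e2] at h5
      exact hy3' h5 hp
    have hpe : p = i - 1 := by omega
    have hte : S.t p = 2 * p + 1 := by omega
    rcases h.WL p hp hte with ⟨b, hb1, hb2⟩ | ⟨_, h7 | ⟨h7, h8⟩⟩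
    · obtain ⟨h8, h9, h10⟩ := O_range hb2
      have h11 : S.ex (2 * i - 1) := by
        have e : 2 * i - 1 = S.t p := by omega
        rw [e]; exact h5
      have h12 : v b = 0 := hx h11 b (by omega) h10
      have h13 := w_le (v := v) hb2
      omega
    · exact absurd h7 (by
        have e : p + 2 = i + 1 := by omega
        rw [e]; exact hy1)
    · exact absurd h8 (by
        have e : p + 3 = i + 2 := by omega
        rw [e]
        apply hy3'
        have e2 : 2 * i + 3 = 2 * p + 5 := by omega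
        rw [e2]; exact h7)

/-- **The end `E j`** (gap = block `2 * j`, value `0`; reflected block `2 * j - 1`).
Proof.  If `j` is a slot, `2 * j` is an option of it.  Otherwise a hit in `{2 * j - 1, 2 * j}` must be
the hit `2 * j - 1` of the slot `p = j - 1`; `WL` for `p`: the second alternative contradicts
`S.ex (2 * j)`, so there is another option, of value `0` by `hx`. -/
theorem endE (h : S.Ok) {v : ℤ → ℕ} {j : ℤ} (hj : S.ex (2 * j)) (h0 : v (2 * j) = 0)
    (hx : S.ex (2 * j - 1) → ∀ x, (x = 2 * j - 3 ∨ x = 2 * j - 2) → S.ex x → v x = 0) :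
    (∀ p ∈ S.P, 2 * j - 1 ≤ S.t p → S.t p < 2 * j + 1 → S.w v p = 0) ∨
    (j ∈ S.P ∧ S.w v j = 0) := by
  by_cases hjP : j ∈ S.P
  · right
    have hO : S.O j (2 * j) := ⟨hj, Or.inl rfl⟩
    have h1 := w_le (v := v) hO
    exact ⟨hjP, by omega⟩
  · left
    intro p hp ha hb
    obtain ⟨h3, h4, h5⟩ := t_range h hp
    have hc : p ≠ j := fun e => hjP (e ▸ hp)
    have hpe : p = j - 1 := by omega
    have hte : S.t p = 2 * p + 1 := by omega
    rcases h.WL p hp hte with ⟨b, hb1, hb2⟩ | ⟨h6, _⟩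
    · obtain ⟨h8, h9, h10⟩ := O_range hb2
      have h11 : S.ex (2 * j - 1) := by
        have e : 2 * j - 1 = S.t p := by omega
        rw [e]; exact h5
      have h12 : v b = 0 := hx h11 b (by omega) h10
      have h13 := w_le (v := v) hb2
      omega
    · exact absurd hj (by
        have e : 2 * j = 2 * p + 2 := by omega
        rw [e]; exact h6)

end Pool.Agent.H.MP_ebc13b_lc.h61b
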