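import Pool.Agent.H.MP_ebc13b_lc.h61b.L2.FDefs
import Pool.Agent.H.MP_ebc13b_lc.h61b.L2.Asm

/-!
# Level 2: rows of maximal stable sets, the second shape
-/

namespace Pool.Agent.H.MP_ebc13b_lc.h61b

open Finset

variable {S : Sys}

/-- lower bound for the left hand side of the row -/
private theorem F2_low (h : S.Ok) {k : ℤ → ℕ} {r : ℤ} (hO : S.Own k r)
    (h01 : ∀ x, S.ex x → k x = 0 ∨ k x = 1) {Z : Finset ℤ}
    (hZ : ∀ x, S.ex x → k x = 0 → x ∈ Z) :
    (S.P.card : ℝ) - ∑ x ∈ Z, S.z x ≤ r + S.ε := by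
  have h1 : ∑ x ∈ Icc (-S.K) S.K, (1 - (if x ∈ Z then 1 else 0 : ℝ)) * S.z x ≤ r + S.ε := by
    refine own_mono h hO fun x hx => ?_
    rcases h01 x hx with h0 | h0
    · rw [if_pos (hZ x hx h0), h0]
      simp
    · rw [h0]
      split_ifs <;> simp
  have h2 : ∑ x ∈ Icc (-S.K) S.K, (1 - (if x ∈ Z then 1 else 0 : ℝ)) * S.z x =
      (S.P.card : ℝ) - ∑ x ∈ Icc (-S.K) S.K, (if x ∈ Z then S.z x else 0) := by
    rw [← h.tot, ← Finset.sum_sub_distrib]
    refine Finset.sum_congr rfl fun x _ => ?_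
    split_ifs <;> ring
  have h3 : ∑ x ∈ Icc (-S.K) S.K, (if x ∈ Z then S.z x else 0) ≤ ∑ x ∈ Z, S.z x := by
    rw [← Finset.sum_filter]
    refine Finset.sum_le_sum_of_subset_of_nonneg ?_ fun x _ _ => h.z0 x
    intro x hx
    exact (Finset.mem_filter.1 hx).2
  rw [h2] at h1
  linarith

private theorem F2_cnt {P Q : Finset ℤ} (hQ : Q ⊆ P) {f : ℤ → ℕ} (h1 : ∀ p ∈ P, f p ≤ 1)
    (h0 : ∀ q ∈ Q, f q = 0) : ∑ p ∈ P, (f p : ℤ) ≤ (P.card : ℤ) - Q.card := by
  have e1 : ∑ p ∈ P, (f p : ℤ) = ∑ p ∈ P \ Q, (f p : ℤ) := by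
    have e2 : ∑ p ∈ Q, (f p : ℤ) = 0 := Finset.sum_eq_zero fun p hp => by
      rw [h0 p hp]
      rfl
    rw [← Finset.sum_sdiff hQ, e2, add_zero]
  have e3 : (∑ p ∈ P \ Q, (f p : ℤ)) ≤ ∑ _p ∈ P \ Q, (1 : ℤ) := by
    refine Finset.sum_le_sum fun p hp => ?_
    exact_mod_cast h1 p (Finset.mem_sdiff.1 hp).1
  have e4 : (P \ Q).card + Q.card = P.card := Finset.card_sdiff_add_card_eq_card hQ
  rw [e1]
  refine e3.trans ?_
  rw [Finset.sum_const, nsmul_eq_mul, mul_one]
  omega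

private theorem F2_k1 (h : S.Ok) {k : ℤ → ℕ} (h01 : ∀ x, S.ex x → k x = 0 ∨ k x = 1) {p : ℤ}
    (hp : p ∈ S.P) : k (S.t p) ≤ 1 := by
  rcases h01 _ (t_range h hp).2.2 with h0 | h0 <;> omega

/-- General principle: the values are `0` or `1`, `Z` contains the existing blocks of value `0`, and
the mass of `Z` plus `ε` is smaller than `n0 + 1`, where at least `n0` slots have `w = 0`.  Then the
row holds: `∑ w ≤ |P| - n0` and `r ≥ ∑ k x * z x - ε ≥ |P| - m(Z) - ε > |P| - n0 - 1`. -/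
theorem rowZ (h : S.Ok) {k : ℤ → ℕ} {r : ℤ} (hO : S.Own k r)
    (h01 : ∀ x, S.ex x → k x = 0 ∨ k x = 1) {Z : Finset ℤ}
    (hZ : ∀ x, S.ex x → k x = 0 → x ∈ Z) {Q : Finset ℤ} (hQ : Q ⊆ S.P)
    (hQ0 : ∀ q ∈ Q, S.w k q = 0) (hm : ∑ x ∈ Z, S.z x + S.ε < Q.card + 1) : S.Row k r := by
  unfold Sys.Row
  have h1 := F2_low h hO h01 hZ
  have h2 := F2_cnt hQ (f := fun p => S.w k p)
    (fun p hp => (w_le (h.tO p hp)).trans (F2_k1 h h01 hp)) hQ0
  have h3 : ((S.P.card : ℤ) : ℝ) - ((Q.card : ℤ) : ℝ) < ((r + 1 : ℤ) : ℝ) := by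
    push_cast
    linarith
  have h4 : (S.P.card : ℤ) - (Q.card : ℤ) < r + 1 := by exact_mod_cast h3
  have h5 : (∑ p ∈ S.P, (S.w k p : ℤ)) ≤ (S.P.card : ℤ) - Q.card := h2
  omega

/-- The same for the hits: `Hs k = |P| - n'`, where `n'` is the number of hits of value `0`. -/
theorem hsZ (h : S.Ok) {k : ℤ → ℕ} {r : ℤ} (hO : S.Own k r)
    (h01 : ∀ x, S.ex x → k x = 0 ∨ k x = 1) {Z : Finset ℤ}
    (hZ : ∀ x, S.ex x → k x = 0 → x ∈ Z) {Q : Finset ℤ} (hQ : Q ⊆ S.P)
    (hQ0 : ∀ q ∈ Q, k (S.t q) = 0) (hm : ∑ x ∈ Z, S.z x + S.ε < Q.card + 2) :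
    S.Hs k ≤ r + 1 := by
  unfold Sys.Hs
  have h1 := F2_low h hO h01 hZ
  have h2 := F2_cnt hQ (f := fun p => k (S.t p)) (fun p hp => F2_k1 h h01 hp) hQ0
  have h3 : ((S.P.card : ℤ) : ℝ) - ((Q.card : ℤ) : ℝ) < ((r + 2 : ℤ) : ℝ) := by
    push_cast
    linarith
  have h4 : (S.P.card : ℤ) - (Q.card : ℤ) < r + 2 := by exact_mod_cast h3
  have h5 : (∑ p ∈ S.P, (k (S.t p) : ℤ)) ≤ (S.P.card : ℤ) - Q.card := h2
  omega

/-- the margin is at most `1 / 2` -/
private theorem F2_del (h : S.Ok) : S.δ ≤ 1 / 2 := by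
  have h1 := h.cnt1 0 0 (le_refl 0)
  have h2 : S.m 0 0 = 0 := by simp [Sys.m]
  have h3 : (0 : ℝ) ≤ (S.N 0 0 : ℝ) := by
    have : (0 : ℤ) ≤ S.N 0 0 := by unfold Sys.N; positivity
    exact_mod_cast this
  linarith

/-- the uniform description of the second shape -/
private structure F2C (S : Sys) (k : ℤ → ℕ) (i a b : ℤ) : Prop where
  e1 : S.ex (2 * i + 1)
  e2 : S.ex (2 * i + 3)
  ha : a = 2 * i - 1 ∨ a = 2 * i + 1
  hb : b = 2 * i + 4 ∨ b = 2 * i + 6
  h01 : ∀ x, S.ex x → k x = 0 ∨ k x = 1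
  v0 : ∀ x, S.ex x → (a ≤ x ∧ x < 2 * i + 2 ∨ 2 * i + 3 ≤ x ∧ x < b) → k x = 0
  v1 : ∀ x, S.ex x → k x = 0 → (a ≤ x ∧ x < 2 * i + 2 ∨ 2 * i + 3 ≤ x ∧ x < b)

private theorem F2_get {k : ℤ → ℕ} {i : ℤ} (hk : FSh2 S k i) : ∃ a b, F2C S k i a b := by
  obtain ⟨a, ha, hav⟩ : ∃ a, (a = 2 * i - 1 ∨ a = 2 * i + 1) ∧
      ∀ x, S.ex x → (x = 2 * i - 1 ∨ x = 2 * i) → (a ≤ x → k x = 0) ∧ (x < a → k x = 1) := by
    rcases hk.left with h1 | h1
    · exact ⟨2 * i - 1, Or.inl rfl, fun x hx hx2 => ⟨fun _ => h1 x hx hx2, fun _ => by omega⟩⟩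
    · exact ⟨2 * i + 1, Or.inr rfl, fun x hx hx2 => ⟨fun _ => by omega, fun _ => h1 x hx hx2⟩⟩
  obtain ⟨b, hb, hbv⟩ : ∃ b, (b = 2 * i + 4 ∨ b = 2 * i + 6) ∧
      ∀ x, S.ex x → (x = 2 * i + 4 ∨ x = 2 * i + 5) → (x < b → k x = 0) ∧ (b ≤ x → k x = 1) := by
    rcases hk.right with h1 | h1
    · exact ⟨2 * i + 6, Or.inr rfl, fun x hx hx2 => ⟨fun _ => h1 x hx hx2, fun _ => by omega⟩⟩
    · exact ⟨2 * i + 4, Or.inl rfl, fun x hx hx2 => ⟨fun _ => by omega, fun _ => h1 x hx hx2⟩⟩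
  have hall : ∀ x, S.ex x → ((a ≤ x ∧ x < 2 * i + 2 ∨ 2 * i + 3 ≤ x ∧ x < b) ∧ k x = 0) ∨
      (¬ (a ≤ x ∧ x < 2 * i + 2 ∨ 2 * i + 3 ≤ x ∧ x < b) ∧ k x = 1) := by
    intro x hx
    by_cases c1 : x < 2 * i - 1 ∨ 2 * i + 5 < x
    · right
      exact ⟨by omega, hk.out x hx c1⟩
    by_cases c2 : x = 2 * i - 1 ∨ x = 2 * i
    · have h1 := hav x hx c2
      by_cases c3 : a ≤ x
      · left
        exact ⟨by omega, h1.1 c3⟩
      · right
        exact ⟨by omega, h1.2 (by omega)⟩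
    by_cases c3 : x = 2 * i + 4 ∨ x = 2 * i + 5
    · have h1 := hbv x hx c3
      by_cases c4 : x < b
      · left
        exact ⟨by omega, h1.1 c4⟩
      · right
        exact ⟨by omega, h1.2 (by omega)⟩
    have c4 : x = 2 * i + 1 ∨ x = 2 * i + 2 ∨ x = 2 * i + 3 := by omega
    rcases c4 with c4 | c4 | c4
    · left
      subst c4
      exact ⟨by omega, hk.k1⟩
    · right
      subst c4
      exact ⟨by omega, hk.k2 hx⟩
    · left
      subst c4
      exact ⟨by omega, hk.k3⟩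
  refine ⟨a, b, hk.e1, hk.e2, ha, hb, ?_, ?_, ?_⟩
  · intro x hx
    rcases hall x hx with h1 | h1
    · exact Or.inl h1.2
    · exact Or.inr h1.2
  · intro x hx hx2
    rcases hall x hx with h1 | h1
    · exact h1.2
    · exact absurd hx2 h1.1
  · intro x hx hx2
    rcases hall x hx with h1 | h1
    · exact h1.1
    · omega

/-- the met blocks -/
private noncomputable def F2Z (i a b : ℤ) : Finset ℤ := Finset.Ico a (2 * i + 2) ∪ Finset.Ico (2 * i + 3) b

private theorem F2Z_mem {k : ℤ → ℕ} {i a b : ℤ} (hk : F2C S k i a b) :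
    ∀ x, S.ex x → k x = 0 → x ∈ F2Z i a b := by
  intro x hx hx0
  unfold F2Z
  rw [Finset.mem_union, Finset.mem_Ico, Finset.mem_Ico]
  exact hk.v1 x hx hx0

private theorem F2Z_sum (i a b : ℤ) :
    ∑ x ∈ F2Z i a b, S.z x = S.m a (2 * i + 2) + S.m (2 * i + 3) b := by
  unfold F2Z Sys.m
  refine Finset.sum_union ?_
  rw [Finset.disjoint_left]
  intro x hx hx2
  rw [Finset.mem_Ico] at hx hx2
  omega

private theorem F2_mL (h : S.Ok) {k : ℤ → ℕ} {i a b : ℤ} (hk : F2C S k i a b) :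
    S.m a (2 * i + 2) ≤ 1 + S.ε := by
  have h1 := star_le h i
  rw [m_split (S := S) (a := 2 * i - 1) (b := a) (c := 2 * i + 2)
    (by rcases hk.ha with e | e <;> omega) (by rcases hk.ha with e | e <;> omega)] at h1
  have h2 := m_nonneg h (2 * i - 1) a
  linarith

private theorem F2_mR (h : S.Ok) {k : ℤ → ℕ} {i a b : ℤ} (hk : F2C S k i a b) :
    S.m (2 * i + 3) b ≤ 1 + S.ε := by
  have h1 := star_le h (i + 2)
  have e1 : 2 * (i + 2) - 1 = 2 * i + 3 := by ring
  have e2 : 2 * (i + 2) + 2 = 2 * i + 6 := by ring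
  rw [e1, e2, m_split (S := S) (a := 2 * i + 3) (b := b) (c := 2 * i + 6)
    (by rcases hk.hb with e | e <;> omega) (by rcases hk.hb with e | e <;> omega)] at h1
  have h2 := m_nonneg h b (2 * i + 6)
  linarith

/-- the hull -/
private theorem F2_hull {k : ℤ → ℕ} {i a b : ℤ} (hk : F2C S k i a b) :
    S.m a b = S.m a (2 * i + 2) + S.z (2 * i + 2) + S.m (2 * i + 3) b := by
  have ha := hk.ha
  have hb := hk.hb
  rw [m_split (S := S) (a := a) (b := 2 * i + 2) (c := b) (by omega) (by omega),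
    m_split (S := S) (a := 2 * i + 2) (b := 2 * i + 3) (c := b) (by omega) (by omega)]
  have e := m_one (S := S) (2 * i + 2)
  rw [show 2 * i + 2 + 1 = 2 * i + 3 by ring] at e
  rw [e, add_assoc]

/-- the star of `i + 1` -/
private theorem F2_mid (h : S.Ok) (i : ℤ) :
    S.m (2 * i + 1) (2 * i + 2) + S.z (2 * i + 2) + S.m (2 * i + 3) (2 * i + 4) ≤ 1 + S.ε := by
  have h1 := h.star (i + 1)
  rw [show 2 * (i + 1) - 1 = 2 * i + 1 by ring, show 2 * (i + 1) = 2 * i + 2 by ring,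
    show 2 * i + 2 + 1 = 2 * i + 3 by ring] at h1
  have e1 := m_one (S := S) (2 * i + 1)
  have e2 := m_one (S := S) (2 * i + 3)
  rw [show 2 * i + 1 + 1 = 2 * i + 2 by ring] at e1
  rw [show 2 * i + 3 + 1 = 2 * i + 4 by ring] at e2
  linarith

/-- a slot whose hit has value `0` -/
private theorem F2_w0 (h : S.Ok) {k : ℤ → ℕ} {i a b : ℤ} (hk : F2C S k i a b) {p : ℤ}
    (hp : p ∈ S.P) (hx : a ≤ S.t p ∧ S.t p < 2 * i + 2 ∨ 2 * i + 3 ≤ S.t p ∧ S.t p < b) :
    S.w k p = 0 := by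
  have h1 := w_le (v := k) (h.tO p hp)
  have h2 := hk.v0 _ (t_range h hp).2.2 hx
  omega

/-- left full: some slot has `w = 0` if `i + 1` is a slot -/
private theorem F2_left (h : S.Ok) {k : ℤ → ℕ} {i a b : ℤ} (hk : F2C S k i a b)
    (ha : a = 2 * i - 1) (hp : i + 1 ∈ S.P) : ∃ p ∈ S.P, S.w k p = 0 := by
  have hb := hk.hb
  by_cases hi : i ∈ S.P
  · have h1 := t_range h hi
    exact ⟨i, hi, F2_w0 h hk hi (by omega)⟩
  · rcases served_right hi hp hk.e1 with h1 | ⟨h1, h2⟩
    · refine ⟨i + 1, hp, ?_⟩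
      have h3 := w_le (v := k) h1
      have h4 := hk.v0 _ hk.e1 (by omega)
      omega
    · refine ⟨i - 1, h1, ?_⟩
      have h3 := w_le (v := k) h2
      have h4 := hk.v0 _ h2.1 (by omega)
      omega

/-- right full: some slot has `w = 0` if `i + 1` is a slot -/
private theorem F2_right (h : S.Ok) {k : ℤ → ℕ} {i a b : ℤ} (hk : F2C S k i a b)
    (hb : b = 2 * i + 6) (hp : i + 1 ∈ S.P) : ∃ p ∈ S.P, S.w k p = 0 := by
  have ha := hk.ha
  by_cases hi : i + 2 ∈ S.P
  · have h1 := t_range h hi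
    exact ⟨i + 2, hi, F2_w0 h hk hi (by omega)⟩
  · have e1 : i + 2 - 1 = i + 1 := by ring
    have e2 : 2 * (i + 2) - 1 = 2 * i + 3 := by ring
    have hs := served_left (S := S) (j := i + 2) hi (by rw [e1]; exact hp)
      (by rw [e2]; exact hk.e2)
    rw [e1, e2] at hs
    rcases hs with h1 | ⟨h1, h2⟩
    · refine ⟨i + 1, hp, ?_⟩
      have h3 := w_le (v := k) h1
      have h4 := hk.v0 _ hk.e2 (by omega)
      omega
    · refine ⟨i + 2 + 1, h1, ?_⟩
      have h3 := w_le (v := k) h2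
      have h4 := hk.v0 _ h2.1 (by omega)
      omega

/-- Two different slots with `w = 0` suffice, and also one or none if the mass of the set `Z` of the
met blocks is small.  Here `Z = {2 * i + 1, 2 * i + 3}`, together with `2 * i - 1`, `2 * i` if the
first alternative of `left` holds and with `2 * i + 4`, `2 * i + 5` if the first alternative of
`right` holds.  Mass of `Z`: the star of `i` and the star of `i + 2` have mass at most `1 + ε` each.

Let `n0` be the number of slots with `w = 0`.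
* `n0 ≥ 2`: `m(Z) + ε ≤ 2 + 3 * ε < 3`.
* `n0 = 1`, we need `m(Z) + ε < 2`.
  - Both sides only `Q`, i.e. `Z = {2 * i + 1, 2 * i + 3}`: `m(Z) ≤ 1 + ε` (star of `i + 1`).
  - If `2 * i + 2` is not hit, all hits in the hull of `Z` (an interval) have value `0`, so there is
    at most one, and the mass of the hull is at most `2 - 2 * δ` (`cnt2`).
  - Left side full, right side only `2 * i + 3`, and `2 * i + 2` hit: `z (2 * i + 2) ≥ 2 * δ`, so
    `z (2 * i + 3) ≤ 1 + ε - 2 * δ` and `m(Z) ≤ 2 + 2 * ε - 2 * δ`.  Symmetric for the other side.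
  - Both sides full and `2 * i + 2` hit: if `m(Z) + ε ≥ 2` then the star of `i` has mass at least
    `1 - 2 * ε > 1 - 2 * δ`, so it contains a hit (`unhit`), and so does the star of `i + 2`; these
    are two slots with `w = 0`.
* `n0 = 0`, we need `m(Z) + ε < 1`.
  - `2 * i + 2` not hit: the hull of `Z` contains no hit, so its mass is at most `1 - 2 * δ`.
  - `2 * i + 2` hit (by the slot `i + 1`): both sides only `Q`: `m(Z) ≤ 1 + ε - 2 * δ`.  Left side
    full: `i ∉ P` (its hit would be in the star of `i`, of value `0`); `2 * i + 1` exists and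
    `i + 1 ∈ P`, so by `served_right` for `j = i` the slot `i + 1` has the option `2 * i + 1` of
    value `0`, or `i - 1 ∈ P` has the option `2 * i - 1` of value `0` (`left`): contradiction.
    Symmetric if the right side is full. -/
theorem fsh2_row (h : S.Ok) {k : ℤ → ℕ} {r i : ℤ} (hO : S.Own k r) (hk : FSh2 S k i) :
    S.Row k r := by
  obtain ⟨a, b, hk⟩ := F2_get hk
  have ha := hk.ha
  have hb := hk.hb
  have hd := F2_del h
  have hde := h.δε
  have hd0 := h.δ0
  have he0 := h.ε0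
  have hL := F2_mL h hk
  have hR := F2_mR h hk
  have hL0 := m_nonneg h a (2 * i + 2)
  have hR0 := m_nonneg h (2 * i + 3) b
  have hsum := F2Z_sum (S := S) i a b
  have hz2 := h.z0 (2 * i + 2)
  by_cases two : ∃ p ∈ S.P, ∃ q ∈ S.P, p ≠ q ∧ S.w k p = 0 ∧ S.w k q = 0
  · obtain ⟨p, hp, q, hq, hpq, hwp, hwq⟩ := two
    refine rowZ h hO hk.h01 (F2Z_mem hk) (Q := {p, q}) ?_ ?_ ?_
    · intro x hx
      rcases Finset.mem_insert.1 hx with e | e
      · rw [e]; exact hp
      · rw [Finset.mem_singleton.1 e]; exact hq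
    · intro x hx
      rcases Finset.mem_insert.1 hx with e | e
      · rw [e]; exact hwp
      · rw [Finset.mem_singleton.1 e]; exact hwq
    · rw [hsum, Finset.card_pair hpq]
      push_cast
      linarith
  have uniq : ∀ p ∈ S.P, ∀ q ∈ S.P, S.w k p = 0 → S.w k q = 0 → p = q := by
    intro p hp q hq hwp hwq
    by_contra hne
    exact two ⟨p, hp, q, hq, hne, hwp, hwq⟩
  have hmid := F2_mid h i
  by_cases hit : ∃ p ∈ S.P, S.t p = 2 * i + 2
  · obtain ⟨p0, hp0, ht0⟩ := hit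
    have hp0i : p0 = i + 1 := by
      have := t_range h hp0
      omega
    have hz := zpos h hp0
    rw [ht0] at hz
    by_cases one : ∃ p ∈ S.P, S.w k p = 0
    · obtain ⟨p, hp, hwp⟩ := one
      refine rowZ h hO hk.h01 (F2Z_mem hk) (Q := {p}) (Finset.singleton_subset_iff.2 hp) ?_ ?_
      · intro x hx
        rw [Finset.mem_singleton.1 hx]
        exact hwp
      · rw [hsum, Finset.card_singleton]
        push_cast
        rcases ha with ea | ea
        · rcases hb with eb | eb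
          · rw [eb] at hR hR0 ⊢
            have h1 := m_nonneg h (2 * i + 1) (2 * i + 2)
            linarith
          · by_cases hl : ∃ q ∈ S.P, a ≤ S.t q ∧ S.t q < 2 * i + 2
            · by_cases hr : ∃ q ∈ S.P, 2 * i + 3 ≤ S.t q ∧ S.t q < b
              · obtain ⟨q, hq, hq1⟩ := hl
                obtain ⟨q', hq', hq1'⟩ := hr
                have := uniq q hq q' hq' (F2_w0 h hk hq (Or.inl hq1)) (F2_w0 h hk hq' (Or.inr hq1'))
                rw [this] at hq1
                omega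
              · have h1 := unhit h (a := 2 * i + 3) (b := b) (by omega) (by
                  intro q hq hq1
                  exact hr ⟨q, hq, hq1⟩)
                linarith
            · have h1 := unhit h (a := a) (b := 2 * i + 2) (by omega) (by
                intro q hq hq1
                exact hl ⟨q, hq, hq1⟩)
              linarith
        · rw [ea] at hL hL0 ⊢
          rcases hb with eb | eb
          · rw [eb]
            linarith
          · have h1 := m_nonneg h (2 * i + 3) (2 * i + 4)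
            linarith
    · have none : ∀ p ∈ S.P, S.w k p ≠ 0 := by
        intro p hp hwp
        exact one ⟨p, hp, hwp⟩
      rw [hp0i] at hp0
      have ea : a = 2 * i + 1 := by
        rcases ha with ea | ea
        · obtain ⟨p, hp, hwp⟩ := F2_left h hk ea hp0
          exact absurd hwp (none p hp)
        · exact ea
      have eb : b = 2 * i + 4 := by
        rcases hb with eb | eb
        · exact eb
        · obtain ⟨p, hp, hwp⟩ := F2_right h hk eb hp0
          exact absurd hwp (none p hp)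
      refine rowZ h hO hk.h01 (F2Z_mem hk) (Q := ∅) (Finset.empty_subset _) ?_ ?_
      · intro x hx
        exact absurd hx (Finset.notMem_empty x)
      · rw [hsum, Finset.card_empty, ea, eb]
        push_cast
        linarith
  · have hhits : ∀ p ∈ S.P, (a ≤ S.t p ∧ S.t p < b) → S.w k p = 0 := by
      intro p hp hp1
      refine F2_w0 h hk hp ?_
      have : S.t p ≠ 2 * i + 2 := fun e => hit ⟨p, hp, e⟩
      omega
    have hhull := F2_hull hk
    by_cases one : ∃ p ∈ S.P, S.w k p = 0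
    · obtain ⟨p, hp, hwp⟩ := one
      have hN : S.N a b ≤ 1 := by
        unfold Sys.N
        have : (S.P.filter fun p => a ≤ S.t p ∧ S.t p < b).card ≤ 1 := by
          rw [Finset.card_le_one]
          intro x hx y hy
          obtain ⟨hx1, hx2⟩ := Finset.mem_filter.1 hx
          obtain ⟨hy1, hy2⟩ := Finset.mem_filter.1 hy
          exact uniq x hx1 y hy1 (hhits x hx1 hx2) (hhits y hy1 hy2)
        exact_mod_cast this
      have hN' : (S.N a b : ℝ) ≤ 1 := by exact_mod_cast hN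
      have hc := h.cnt2 a b (by omega)
      refine rowZ h hO hk.h01 (F2Z_mem hk) (Q := {p}) (Finset.singleton_subset_iff.2 hp) ?_ ?_
      · intro x hx
        rw [Finset.mem_singleton.1 hx]
        exact hwp
      · rw [hsum, Finset.card_singleton]
        push_cast
        linarith
    · have h1 := unhit h (a := a) (b := b) (by omega) (by
        intro q hq hq1
        exact one ⟨q, hq, hhits q hq hq1⟩)
      refine rowZ h hO hk.h01 (F2Z_mem hk) (Q := ∅) (Finset.empty_subset _) ?_ ?_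
      · intro x hx
        exact absurd hx (Finset.notMem_empty x)
      · rw [hsum, Finset.card_empty]
        push_cast
        linarith

/-- `hsZ` with the same `Z`, and `Q` the slots with a hit in a block of value `0`.  If there is such
a slot, `m(Z) + ε ≤ 2 + 3 * ε < 3`.  Otherwise the left part of `Z` (the star of `i` or the block
`2 * i + 1`) and the right part of `Z` have no hit, so each has mass at most `1 - 2 * δ`. -/
theorem fsh2_hs (h : S.Ok) {k : ℤ → ℕ} {r i : ℤ} (hO : S.Own k r) (hk : FSh2 S k i) :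
    S.Hs k ≤ r + 1 := by
  obtain ⟨a, b, hk⟩ := F2_get hk
  have ha := hk.ha
  have hb := hk.hb
  have hd := F2_del h
  have hde := h.δε
  have hd0 := h.δ0
  have he0 := h.ε0
  have hL := F2_mL h hk
  have hR := F2_mR h hk
  have hsum := F2Z_sum (S := S) i a b
  by_cases one : ∃ p ∈ S.P, k (S.t p) = 0
  · obtain ⟨p, hp, hwp⟩ := one
    refine hsZ h hO hk.h01 (F2Z_mem hk) (Q := {p}) (Finset.singleton_subset_iff.2 hp) ?_ ?_
    · intro x hx
      rw [Finset.mem_singleton.1 hx]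
      exact hwp
    · rw [hsum, Finset.card_singleton]
      push_cast
      linarith
  · have h1 := unhit h (a := a) (b := 2 * i + 2) (by omega) (by
      intro q hq hq1
      exact one ⟨q, hq, hk.v0 _ (t_range h hq).2.2 (Or.inl hq1)⟩)
    have h2 := unhit h (a := 2 * i + 3) (b := b) (by omega) (by
      intro q hq hq1
      exact one ⟨q, hq, hk.v0 _ (t_range h hq).2.2 (Or.inr hq1)⟩)
    refine hsZ h hO hk.h01 (F2Z_mem hk) (Q := ∅) (Finset.empty_subset _) ?_ ?_
    · intro x hx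
      exact absurd hx (Finset.notMem_empty x)
    · rw [hsum, Finset.card_empty]
      push_cast
      linarith

end Pool.Agent.H.MP_ebc13b_lc.h61b
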