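import Pool.Agent.H.MP_ebc13b_lc.h61b.L2.Defs

/-!
# Level 2: shapes of the rows of maximal stable sets, and further patterns
-/

namespace Pool.Agent.H.MP_ebc13b_lc.h61b

/-- The values are `0` (met blocks) and `1` (missed blocks) and the missed blocks form a cyclic
interval. -/
def Cyc (S : Sys) (k : ℤ → ℕ) : Prop :=
  (∀ x, S.ex x → k x = 0 ∨ k x = 1) ∧
  ∀ b₁ b₂ b₃ b₀, S.ex b₁ → S.ex b₂ → S.ex b₃ → S.ex b₀ → k b₁ = 0 → k b₂ = 1 → k b₃ = 0 →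
    k b₀ = 1 → b₁ < b₂ → b₂ < b₃ → (b₀ < b₁ ∨ b₃ < b₀) → False

/-- The missed blocks are `2 * i - 1`, `2 * i`, `2 * i + 4`, `2 * i + 5`. -/
structure FSh1 (S : Sys) (k : ℤ → ℕ) (i : ℤ) : Prop where
  e1 : S.ex (2 * i + 1)
  e2 : S.ex (2 * i + 3)
  k1 : ∀ x, S.ex x → (x = 2 * i - 1 ∨ x = 2 * i ∨ x = 2 * i + 4 ∨ x = 2 * i + 5) → k x = 1
  k0 : ∀ x, S.ex x → ¬ (x = 2 * i - 1 ∨ x = 2 * i ∨ x = 2 * i + 4 ∨ x = 2 * i + 5) → k x = 0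

/-- The blocks `2 * i + 1`, `2 * i + 3` are met, `2 * i + 2` is missed, the blocks outside
`[2 * i - 1, 2 * i + 5]` are missed, the blocks `2 * i - 1`, `2 * i` are both met or both missed, the
blocks `2 * i + 4`, `2 * i + 5` are both met or both missed. -/
structure FSh2 (S : Sys) (k : ℤ → ℕ) (i : ℤ) : Prop where
  e1 : S.ex (2 * i + 1)
  e2 : S.ex (2 * i + 3)
  k1 : k (2 * i + 1) = 0
  k3 : k (2 * i + 3) = 0
  k2 : S.ex (2 * i + 2) → k (2 * i + 2) = 1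
  out : ∀ x, S.ex x → (x < 2 * i - 1 ∨ 2 * i + 5 < x) → k x = 1
  left : (∀ x, S.ex x → (x = 2 * i - 1 ∨ x = 2 * i) → k x = 0) ∨
    (∀ x, S.ex x → (x = 2 * i - 1 ∨ x = 2 * i) → k x = 1)
  right : (∀ x, S.ex x → (x = 2 * i + 4 ∨ x = 2 * i + 5) → k x = 0) ∨
    (∀ x, S.ex x → (x = 2 * i + 4 ∨ x = 2 * i + 5) → k x = 1)

/-- The met blocks are `2 * i + 1`, `2 * i + 3`, `2 * i + 5`. -/
structure FSh3 (S : Sys) (k : ℤ → ℕ) (i : ℤ) : Prop where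
  e1 : S.ex (2 * i + 1)
  e2 : S.ex (2 * i + 3)
  e3 : S.ex (2 * i + 5)
  k0 : ∀ x, (x = 2 * i + 1 ∨ x = 2 * i + 3 ∨ x = 2 * i + 5) → k x = 0
  k1 : ∀ x, S.ex x → ¬ (x = 2 * i + 1 ∨ x = 2 * i + 3 ∨ x = 2 * i + 5) → k x = 1

/-- Pattern of a row with an interior core whose only split slot is `j` with the option
`2 * j + 1`.  If `e` holds the star of `j - 1` has value `0`. -/
structure BA (S : Sys) (v : ℤ → ℕ) (j : ℤ) (e : Prop) : Prop where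
  ex1 : S.ex (2 * j + 1)
  v1 : v (2 * j + 1) = 1
  v0 : S.ex (2 * j) → v (2 * j) = 1 ∨ v (2 * j) = 2
  v2 : S.ex (2 * j + 2) → v (2 * j + 2) ≤ 2
  v3 : S.ex (2 * j + 3) → v (2 * j + 3) ≤ 1
  exe : e → S.ex (2 * j - 1)
  ve : e → ∀ x, S.ex x → (x = 2 * j - 3 ∨ x = 2 * j - 2 ∨ x = 2 * j - 1) → v x = 0
  vo : ∀ x, S.ex x → (x < 2 * j ∨ 2 * j + 3 < x) →
    ¬ (e ∧ (x = 2 * j - 3 ∨ x = 2 * j - 2 ∨ x = 2 * j - 1)) → v x = 1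

end Pool.Agent.H.MP_ebc13b_lc.h61b
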