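import Pool.Agent.H.MP_ebc13b_lc.h61b.L2.BasA

/-!
# Level 2: lower bound for the slack of the hits
-/

namespace Pool.Agent.H.MP_ebc13b_lc.h61b

open Finset

variable {S : Sys}

/-- the number of hits as a sum of indicators -/
theorem low_N (S : Sys) (a b : ℤ) :
    S.N a b = ∑ p ∈ S.P, (if a ≤ S.t p ∧ S.t p < b then (1 : ℤ) else 0) := by
  rw [Sys.N, Finset.sum_boole]

/-- number of hits and mass -/
theorem low_s (h : S.Ok) {s a b : ℤ} (hs : |s| ≤ 1) (hab : a ≤ b) :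
    (s : ℝ) * (S.N a b : ℝ) ≤ s * S.m a b + (1 - 2 * S.δ) := by
  have h1 := h.cnt1 a b hab
  have h2 := h.cnt2 a b hab
  obtain ⟨h3, h4⟩ := abs_le.1 hs
  have h5 : s = -1 ∨ s = 0 ∨ s = 1 := by omega
  rcases h5 with rfl | rfl | rfl
  · push_cast
    linarith
  · push_cast
    linarith
  · push_cast
    linarith

/-- If the values are, on the existing blocks, a constant plus three indicator functions of intervals
with coefficients `-1`, `0`, `1`, then the sum of the values of the hits is at most `r + 2`.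

Proof.  For every interval `[a, b)`, `a ≤ b`, `|N a b - m a b| ≤ 1 - 2 * δ` (`cnt1`, `cnt2`).  So
`Hs v = c * |P| + ∑ s * N ≤ c * |P| + ∑ s * m + 3 * (1 - 2 * δ)`, and
`c * |P| + ∑ s * m = ∑ v x * z x ≤ r + ε` (`tot`, `sum_ind`; `z` vanishes on the blocks which do not
exist).  As `3 * (1 - 2 * δ) + ε < 3` and `Hs v`, `r` are integers, `Hs v ≤ r + 2`. -/
theorem low3 (h : S.Ok) {v : ℤ → ℕ} {r : ℤ} (hO : S.Own v r) {c s₁ s₂ s₃ a₁ b₁ a₂ b₂ a₃ b₃ : ℤ}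
    (h1 : |s₁| ≤ 1) (h2 : |s₂| ≤ 1) (h3 : |s₃| ≤ 1)
    (hab1 : a₁ ≤ b₁) (hab2 : a₂ ≤ b₂) (hab3 : a₃ ≤ b₃)
    (hv : ∀ x, S.ex x → (v x : ℤ) = c + s₁ * (if a₁ ≤ x ∧ x < b₁ then 1 else 0) +
      s₂ * (if a₂ ≤ x ∧ x < b₂ then 1 else 0) + s₃ * (if a₃ ≤ x ∧ x < b₃ then 1 else 0)) :
    S.Hs v ≤ r + 2 := by
  have e1 : S.Hs v = c * S.P.card + s₁ * S.N a₁ b₁ + s₂ * S.N a₂ b₂ + s₃ * S.N a₃ b₃ := by
    rw [Sys.Hs, low_N, low_N, low_N]
    have h4 : ∑ p ∈ S.P, (v (S.t p) : ℤ) = ∑ p ∈ S.P,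
        (c + s₁ * (if a₁ ≤ S.t p ∧ S.t p < b₁ then 1 else 0) +
          s₂ * (if a₂ ≤ S.t p ∧ S.t p < b₂ then 1 else 0) +
          s₃ * (if a₃ ≤ S.t p ∧ S.t p < b₃ then 1 else 0)) :=
      Finset.sum_congr rfl fun p hp => hv _ (t_range h hp).2.2
    rw [h4, Finset.sum_add_distrib, Finset.sum_add_distrib, Finset.sum_add_distrib,
      Finset.sum_const, nsmul_eq_mul, ← Finset.mul_sum, ← Finset.mul_sum, ← Finset.mul_sum]
    ring
  have e2 : ∑ x ∈ Finset.Icc (-S.K) S.K, (v x : ℝ) * S.z x =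
      c * S.P.card + s₁ * S.m a₁ b₁ + s₂ * S.m a₂ b₂ + s₃ * S.m a₃ b₃ := by
    rw [← h.tot, ← sum_ind h (a := a₁) (b := b₁), ← sum_ind h (a := a₂) (b := b₂),
      ← sum_ind h (a := a₃) (b := b₃), Finset.mul_sum, Finset.mul_sum, Finset.mul_sum,
      Finset.mul_sum, ← Finset.sum_add_distrib, ← Finset.sum_add_distrib,
      ← Finset.sum_add_distrib]
    refine Finset.sum_congr rfl fun x _ => ?_
    by_cases hx : S.ex x
    · have h5 : (v x : ℝ) = c + s₁ * (if a₁ ≤ x ∧ x < b₁ then 1 else 0) +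
          s₂ * (if a₂ ≤ x ∧ x < b₂ then 1 else 0) + s₃ * (if a₃ ≤ x ∧ x < b₃ then 1 else 0) := by
        exact_mod_cast congrArg (Int.cast : ℤ → ℝ) (hv x hx)
      rw [h5]
      split_ifs <;> ring
    · rw [h.zex x hx]
      simp
  have e3 : (S.Hs v : ℝ) = c * S.P.card + s₁ * S.N a₁ b₁ + s₂ * S.N a₂ b₂ + s₃ * S.N a₃ b₃ := by
    rw [e1]
    push_cast
    ring
  have h4 := low_s h h1 hab1
  have h5 := low_s h h2 hab2
  have h6 := low_s h h3 hab3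
  have h7 : ∑ x ∈ Finset.Icc (-S.K) S.K, (v x : ℝ) * S.z x ≤ r + S.ε := hO
  have h8 := h.δε
  have h9 := h.δ0
  have h10 := h.ε0
  have h11 : (S.Hs v : ℝ) < ((r + 3 : ℤ) : ℝ) := by
    push_cast
    linarith
  have h12 : S.Hs v < r + 3 := by exact_mod_cast h11
  omega

end Pool.Agent.H.MP_ebc13b_lc.h61b
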