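import Pool.Agent.H.MP_ebc13b_lc.h61b.L2.Asm
import Pool.Agent.H.MP_ebc13b_lc.h61b.L2.EndU
import Pool.Agent.H.MP_ebc13b_lc.h61b.L2.Arc

/-!
# Level 2: rows of one-class sets with at most one special end
-/

namespace Pool.Agent.H.MP_ebc13b_lc.h61b

open Finset

variable {S : Sys}

private theorem OneUn_mass2 (h : S.Ok) {v : ℤ → ℕ} {a b c d : ℤ} (hbc : b ≤ c)
    (hv : ∀ x, S.ex x → (a ≤ x ∧ x < b) ∨ (c ≤ x ∧ x < d) → 1 ≤ v x) :
    S.m a b + S.m c d ≤ ∑ x ∈ Icc (-S.K) S.K, (v x : ℝ) * S.z x := by
  rw [← sum_ind h (a := a) (b := b), ← sum_ind h (a := c) (b := d), ← Finset.sum_add_distrib]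
  refine Finset.sum_le_sum fun x _ => ?_
  by_cases hex : S.ex x
  · have h0 := h.z0 x
    by_cases h1 : a ≤ x ∧ x < b
    · have h2 : ¬ (c ≤ x ∧ x < d) := by omega
      rw [if_pos h1, if_neg h2, add_zero]
      have h3 : (1 : ℝ) ≤ v x := by exact_mod_cast hv x hex (Or.inl h1)
      nlinarith
    · rw [if_neg h1, zero_add]
      by_cases h2 : c ≤ x ∧ x < d
      · rw [if_pos h2]
        have h3 : (1 : ℝ) ≤ v x := by exact_mod_cast hv x hex (Or.inr h2)
        nlinarith
      · rw [if_neg h2]
        positivity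
  · rw [h.zex x hex]
    simp

private theorem OneUn_mass1 (h : S.Ok) {v : ℤ → ℕ} {c d : ℤ}
    (hv : ∀ x, S.ex x → c ≤ x → x < d → 1 ≤ v x) :
    S.m c d ≤ ∑ x ∈ Icc (-S.K) S.K, (v x : ℝ) * S.z x := by
  have h1 := OneUn_mass2 h (v := v) (a := c) (b := c) (c := c) (d := d) le_rfl (by
    intro x hx h2
    rcases h2 with h2 | h2
    · omega
    · exact hv x hx h2.1 h2.2)
  have h2 := m_nonneg h c c
  linarith

private theorem OneUn_w0 (h : S.Ok) {v : ℤ → ℕ} {p : ℤ} (hp : p ∈ S.P) (h0 : v (S.t p) = 0) :
    S.w v p = 0 := by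
  have h1 := w_le (v := v) (h.tO p hp)
  omega

/-- No special end: `v = 1` exactly on the existing blocks of `[a, b)` (`arc_add` with `c = 0`, or
`arc_const` if `b < a`), and `row_of_hits`. -/
theorem one_nn (h : S.Ok) {v : ℤ → ℕ} {r : ℤ} (hO : S.Own v r) {a b : ℤ}
    (hv : One S v (.n a) (.n b)) : S.Row v r := by
  have hv' : ∀ x, S.ex x → ((x < a ∨ b ≤ x) → v x = 0) ∧ (¬ x < a → ¬ b ≤ x → v x = 1) := hv
  apply row_of_hits h
  rcases le_or_gt a b with hab | hab
  · apply arc_add h hO hab (c := 0)
    intro x hx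
    obtain ⟨h1, h2⟩ := hv' x hx
    by_cases h3 : a ≤ x ∧ x < b
    · rw [if_pos h3]
      exact h2 (by omega) (by omega)
    · rw [if_neg h3]
      exact h1 (by omega)
  · apply arc_const h hO (c := 0)
    intro x hx
    exact (hv' x hx).1 (by omega)

/-- Left end `U i`, right end `n b`, all existing blocks `≤ 2 * i + 3` are `< b`.

So `v = 1` on the existing blocks of `{2 * i - 1, 2 * i}` and of `[2 * i + 4, b)`, and `0` elsewhere.
`endU` applies.
* First alternative: `asm1` with `A = 2 * i + 4`, `B = max b A`, `Q = ∅`.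
* Second alternative, slot `q`, and `t q < b`: `asm1` with `A = 2 * i - 1`, `B = max b (2 * i + 4)`,
  `Q = {q}`; the mass of `[A, B)` is the mass of `{2 * i - 1, 2 * i}` and `[2 * i + 4, B)` (there
  `v = 1` or the block does not exist) plus the mass of the star of `i + 1`, at most `1 + ε`.
* Second alternative and `b ≤ t q`: then `t q > 2 * i + 3`, so `q = i + 2` and
  `t q ∈ {2 * i + 4, 2 * i + 5}`.  If some slot `p` has its hit in the star of `i + 1`, i.e. in
  `[2 * i + 1, 2 * i + 4)`, use `p` instead of `q` (`w p = 0`, as its hit has value `0`, and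
  `t p < b`).  Otherwise at most one slot has `w ≠ 0`: such a slot has its hit in `{2 * i - 1, 2 * i}`
  or in `[2 * i + 4, b)`; in the second case the hit is in the star of `i + 2`, as `b ≤ 2 * i + 5`,
  and so it is `t q` by `one_star`, a contradiction; in the first case `one_star` for the star of `i`
  shows uniqueness.  `row_le_one`. -/
theorem one_Un (h : S.Ok) {v : ℤ → ℕ} {r : ℤ} (hO : S.Own v r) {i b : ℤ}
    (hi : S.ex (2 * i + 1)) (hb : ∀ x ≤ 2 * i + 3, S.ex x → x < b)
    (hv : One S v (.U i) (.n b)) : S.Row v r := by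
  have hv' : ∀ x, S.ex x →
      (((x < 2 * i + 4 ∧ x ≠ 2 * i - 1 ∧ x ≠ 2 * i) ∨ b ≤ x) → v x = 0) ∧
      (¬ (x < 2 * i + 4 ∧ x ≠ 2 * i - 1 ∧ x ≠ 2 * i) → ¬ b ≤ x → v x = 1) := hv
  have hv1 : ∀ x, S.ex x → v x ≤ 1 := by
    intro x hx
    obtain ⟨h1, h2⟩ := hv' x hx
    by_cases h3 : ((x < 2 * i + 4 ∧ x ≠ 2 * i - 1 ∧ x ≠ 2 * i) ∨ b ≤ x)
    · rw [h1 h3]; omega
    · rw [h2 (fun h4 => h3 (Or.inl h4)) (fun h4 => h3 (Or.inr h4))]
  have hw1 : ∀ p ∈ S.P, S.w v p ≤ 1 := fun p hp =>
    (w_le (h.tO p hp)).trans (hv1 _ (t_range h hp).2.2)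
  have key : (∃ q ∈ S.P, S.w v q = 0 ∧ 2 * i - 1 ≤ S.t q ∧ S.t q < b) → S.Row v r := by
    rintro ⟨q, hq, hq0, hq1, hq2⟩
    have hB1 : b ≤ max b (2 * i + 4) := le_max_left _ _
    have hB2 : 2 * i + 4 ≤ max b (2 * i + 4) := le_max_right _ _
    apply asm1 h hO (A := 2 * i - 1) (B := max b (2 * i + 4)) (by omega) _ hw1 (Q := {q})
    · exact Finset.singleton_subset_iff.2 hq
    · rw [Finset.card_singleton]; omega
    · intro q' hq'
      rw [Finset.mem_singleton] at hq'
      rw [hq']
      exact ⟨hq0, hq1, by omega⟩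
    · have e1 : S.m (2 * i - 1) (max b (2 * i + 4)) =
          S.m (2 * i - 1) (2 * i + 1) + S.m (2 * i + 1) (2 * i + 4) +
            S.m (2 * i + 4) (max b (2 * i + 4)) := by
        rw [m_split (S := S) (a := 2 * i - 1) (b := 2 * i + 4) (by omega) hB2,
          m_split (S := S) (a := 2 * i - 1) (b := 2 * i + 1) (by omega) (by omega)]
      have e2 := star_le h (i + 1)
      have e3 : (2 : ℤ) * (i + 1) - 1 = 2 * i + 1 := by ring
      have e4 : (2 : ℤ) * (i + 1) + 2 = 2 * i + 4 := by ring
      rw [e3, e4] at e2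
      have e5 := OneUn_mass2 h (v := v) (a := 2 * i - 1) (b := 2 * i + 1) (c := 2 * i + 4)
        (d := max b (2 * i + 4)) (by omega) (by
          intro x hx h2
          have h3 : v x = 1 := by
            apply (hv' x hx).2
            · omega
            · intro h4
              rcases h2 with h2 | h2
              · have := hb x (by omega) hx
                omega
              · have h5 := h2.2
                rw [lt_max_iff] at h5
                omega
          omega)
      rw [Finset.card_singleton, e1]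
      push_cast
      linarith
    · intro p hp hpt
      apply OneUn_w0 h hp
      apply (hv' _ (t_range h hp).2.2).1
      rcases hpt with hpt | hpt
      · left; omega
      · right; omega
  have h0 : ∀ x, (x = 2 * i + 1 ∨ x = 2 * i + 2 ∨ x = 2 * i + 3) → S.ex x → v x = 0 := by
    intro x hx hex
    exact (hv' x hex).1 (Or.inl (by omega))
  have hx : S.ex (2 * i - 1) → ∀ x, (x = 2 * i - 3 ∨ x = 2 * i - 2) → S.ex x → v x = 0 := by
    intro _ x hx hex
    exact (hv' x hex).1 (Or.inl (by omega))
  rcases endU h hi h0 hx with hA | ⟨q, hq, hq0, hq1, hq2, hq3⟩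
  · have hB1 : b ≤ max b (2 * i + 4) := le_max_left _ _
    have hB2 : 2 * i + 4 ≤ max b (2 * i + 4) := le_max_right _ _
    apply asm1 h hO (A := 2 * i + 4) (B := max b (2 * i + 4)) hB2 _ hw1 (Q := ∅)
    · exact Finset.empty_subset _
    · rw [Finset.card_empty]; omega
    · intro q' hq'
      exact absurd hq' (Finset.notMem_empty _)
    · have e5 := OneUn_mass1 h (v := v) (c := 2 * i + 4) (d := max b (2 * i + 4)) (by
          intro x hx h2 h3
          have h4 : v x = 1 := by
            apply (hv' x hx).2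
            · omega
            · intro h5
              rw [lt_max_iff] at h3
              omega
          omega)
      rw [Finset.card_empty]
      push_cast
      linarith
    · intro p hp hpt
      by_cases h1 : 2 * i - 1 ≤ S.t p ∧ S.t p < 2 * i + 4
      · exact hA p hp h1.1 h1.2
      · apply OneUn_w0 h hp
        apply (hv' _ (t_range h hp).2.2).1
        rcases hpt with hpt | hpt
        · left; omega
        · right; omega
  · by_cases hqb : S.t q < b
    · exact key ⟨q, hq, hq0, hq1, hqb⟩
    · have hqr := t_range h hq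
      have hq4 : 2 * i + 3 < S.t q := by
        by_contra h1
        exact hqb (hb _ (not_lt.1 h1) hqr.2.2)
      by_cases hex : ∃ p ∈ S.P, 2 * i + 1 ≤ S.t p ∧ S.t p < 2 * i + 4
      · obtain ⟨p, hp, hp1, hp2⟩ := hex
        have hpr := t_range h hp
        exact key ⟨p, hp, OneUn_w0 h hp (h0 _ (by omega) hpr.2.2), by omega,
          hb _ (by omega) hpr.2.2⟩
      · have hloc : ∀ p ∈ S.P, S.w v p ≠ 0 → S.t p = 2 * i - 1 ∨ S.t p = 2 * i := by
          intro p hp hp0
          have hpr := t_range h hp
          by_contra hcon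
          have h1 : v (S.t p) ≠ 0 := fun h2 => hp0 (OneUn_w0 h hp h2)
          have h2 : ¬ ((S.t p < 2 * i + 4 ∧ S.t p ≠ 2 * i - 1 ∧ S.t p ≠ 2 * i) ∨ b ≤ S.t p) :=
            fun h3 => h1 ((hv' _ hpr.2.2).1 h3)
          have h3 : S.t p = 2 * i + 4 := by omega
          have h4 : p = q := one_star h hp hq (j := i + 2) (by omega) (by omega) (by omega)
            (by omega)
          rw [h4] at hp0
          exact hp0 hq0
        apply row_le_one h hO
        by_cases hex2 : ∃ p ∈ S.P, S.w v p ≠ 0
        · obtain ⟨p, hp, hp0⟩ := hex2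
          rw [Finset.sum_eq_single p]
          · exact hw1 p hp
          · intro p' hp' hne
            by_contra hp0'
            have h1 := hloc p hp hp0
            have h2 := hloc p' hp' hp0'
            exact hne (one_star h hp' hp (j := i) (by omega) (by omega) (by omega) (by omega))
          · intro h1
            exact absurd hp h1
        · rw [Finset.sum_eq_zero]
          · omega
          · intro p hp
            by_contra h1
            exact hex2 ⟨p, hp, h1⟩

/-- Left end `E j`, right end `n b`, all existing blocks `≤ 2 * j + 1` are `< b`.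

So `v = 1` on the block `2 * j - 1` (if it exists) and on the existing blocks of `[2 * j + 1, b)`,
and `0` elsewhere.  `endE` applies.
* First alternative: `asm1` with `A = 2 * j + 1`, `B = max b A`, `Q = ∅`.
* Second alternative: the hit of the slot `j` exists and is `≤ 2 * j + 1`, so `< b`; `asm1` with
  `A = 2 * j - 1`, `B = max b (2 * j + 1)`, `Q = {j}`; the mass of the block `2 * j` is at most
  `1 + ε`. -/
theorem one_En (h : S.Ok) {v : ℤ → ℕ} {r : ℤ} (hO : S.Own v r) {j b : ℤ}
    (hj : S.ex (2 * j)) (hb : ∀ x ≤ 2 * j + 1, S.ex x → x < b)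
    (hv : One S v (.E j) (.n b)) : S.Row v r := by
  have hv' : ∀ x, S.ex x →
      (((x < 2 * j + 1 ∧ x ≠ 2 * j - 1) ∨ b ≤ x) → v x = 0) ∧
      (¬ (x < 2 * j + 1 ∧ x ≠ 2 * j - 1) → ¬ b ≤ x → v x = 1) := hv
  have hv1 : ∀ x, S.ex x → v x ≤ 1 := by
    intro x hx
    obtain ⟨h1, h2⟩ := hv' x hx
    by_cases h3 : ((x < 2 * j + 1 ∧ x ≠ 2 * j - 1) ∨ b ≤ x)
    · rw [h1 h3]; omega
    · rw [h2 (fun h4 => h3 (Or.inl h4)) (fun h4 => h3 (Or.inr h4))]
  have hw1 : ∀ p ∈ S.P, S.w v p ≤ 1 := fun p hp =>
    (w_le (h.tO p hp)).trans (hv1 _ (t_range h hp).2.2)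
  have h0 : v (2 * j) = 0 := (hv' _ hj).1 (Or.inl (by omega))
  have hx : S.ex (2 * j - 1) → ∀ x, (x = 2 * j - 3 ∨ x = 2 * j - 2) → S.ex x → v x = 0 := by
    intro _ x hx hex
    exact (hv' x hex).1 (Or.inl (by omega))
  have hB1 : b ≤ max b (2 * j + 1) := le_max_left _ _
  have hB2 : 2 * j + 1 ≤ max b (2 * j + 1) := le_max_right _ _
  rcases endE h hj h0 hx with hA | ⟨hjP, hj0⟩
  · apply asm1 h hO (A := 2 * j + 1) (B := max b (2 * j + 1)) hB2 _ hw1 (Q := ∅)
    · exact Finset.empty_subset _
    · rw [Finset.card_empty]; omega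
    · intro q' hq'
      exact absurd hq' (Finset.notMem_empty _)
    · have e5 := OneUn_mass1 h (v := v) (c := 2 * j + 1) (d := max b (2 * j + 1)) (by
          intro x hx h2 h3
          have h4 : v x = 1 := by
            apply (hv' x hx).2
            · omega
            · intro h5
              rw [lt_max_iff] at h3
              omega
          omega)
      rw [Finset.card_empty]
      push_cast
      linarith
    · intro p hp hpt
      by_cases h1 : 2 * j - 1 ≤ S.t p ∧ S.t p < 2 * j + 1
      · exact hA p hp h1.1 h1.2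
      · apply OneUn_w0 h hp
        apply (hv' _ (t_range h hp).2.2).1
        rcases hpt with hpt | hpt
        · left; omega
        · right; omega
  · have hjr := t_range h hjP
    have hjb := hb _ hjr.2.1 hjr.2.2
    apply asm1 h hO (A := 2 * j - 1) (B := max b (2 * j + 1)) (by omega) _ hw1 (Q := {j})
    · exact Finset.singleton_subset_iff.2 hjP
    · rw [Finset.card_singleton]; omega
    · intro q' hq'
      rw [Finset.mem_singleton] at hq'
      rw [hq']
      exact ⟨hj0, by omega, by omega⟩
    · have e1 : S.m (2 * j - 1) (max b (2 * j + 1)) =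
          S.m (2 * j - 1) (2 * j) + S.m (2 * j) (2 * j + 1) +
            S.m (2 * j + 1) (max b (2 * j + 1)) := by
        rw [m_split (S := S) (a := 2 * j - 1) (b := 2 * j + 1) (by omega) hB2,
          m_split (S := S) (a := 2 * j - 1) (b := 2 * j) (by omega) (by omega)]
      have e2 : S.m (2 * j) (2 * j + 1) ≤ 1 + S.ε := by
        rw [m_one]
        have := h.star j
        have := h.z0 (2 * j - 1)
        have := h.z0 (2 * j + 1)
        linarith
      have e5 := OneUn_mass2 h (v := v) (a := 2 * j - 1) (b := 2 * j) (c := 2 * j + 1)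
        (d := max b (2 * j + 1)) (by omega) (by
          intro x hx h2
          have h3 : v x = 1 := by
            apply (hv' x hx).2
            · omega
            · intro h4
              rcases h2 with h2 | h2
              · have := hb x (by omega) hx
                omega
              · have h5 := h2.2
                rw [lt_max_iff] at h5
                omega
          omega)
      rw [Finset.card_singleton, e1]
      push_cast
      linarith
    · intro p hp hpt
      apply OneUn_w0 h hp
      apply (hv' _ (t_range h hp).2.2).1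
      rcases hpt with hpt | hpt
      · left; omega
      · right; omega

end Pool.Agent.H.MP_ebc13b_lc.h61b
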