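import Pool.Agent.H.MP_ebc13b_lc.h61b.L2.Bas

/-!
# Level 2: the mirror image of a slot system
-/

namespace Pool.Agent.H.MP_ebc13b_lc.h61b

open Finset

/-- the mirror image: block `b` becomes block `-b`, hub `i` becomes hub `-i` -/
def Sys.refl (S : Sys) : Sys where
  ex b := S.ex (-b)
  z b := S.z (-b)
  K := S.K
  P := S.P.image (fun p => -p)
  t p := -S.t (-p)
  L j := ¬ S.L (-j)
  δ := S.δ
  ε := S.ε

/-- mirror images of ends -/
def LEnd.refl : LEnd → REnd
  | .n a => .n (1 - a)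
  | .E j => .E (-j)
  | .U i => .L (-i - 1)

/-- mirror images of ends -/
def REnd.refl : REnd → LEnd
  | .n b => .n (1 - b)
  | .E j => .E (-j)
  | .L l => .U (-l - 1)

variable {S : Sys}

theorem mem_refl {p : ℤ} : p ∈ S.refl.P ↔ -p ∈ S.P := by
  show p ∈ S.P.image (fun p => -p) ↔ -p ∈ S.P
  rw [Finset.mem_image]
  constructor
  · rintro ⟨a, ha, rfl⟩
    rwa [neg_neg]
  · intro h
    exact ⟨-p, h, neg_neg p⟩

/-- Unfold; the second alternative of `O` becomes the third one and vice versa. -/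
theorem O_refl {p b : ℤ} : S.refl.O p b ↔ S.O (-p) (-b) := by
  have e1 : -(2 * p + 3) = 2 * (-p) - 3 := by ring
  have e2 : -(2 * p - 3) = 2 * (-p) + 3 := by ring
  have e3 : -(p + 1) = -p - 1 := by ring
  have e4 : -(p - 1) = -p + 1 := by ring
  have e5 : -(p + 2) = -p - 2 := by ring
  have e6 : -(p - 2) = -p + 2 := by ring
  simp only [Sys.O, mem_refl]
  change (S.ex (-b) ∧ (b = 2 * p ∨ (b = 2 * p + 1 ∧ -(p + 1) ∉ S.P ∧
    (S.ex (-(2 * p + 3)) → -(p + 2) ∈ S.P → ¬ S.L (-(p + 1)))) ∨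
    (b = 2 * p - 1 ∧ -(p - 1) ∉ S.P ∧
      (S.ex (-(2 * p - 3)) → -(p - 2) ∈ S.P → ¬ ¬ S.L (-(p - 1)))))) ↔ _
  rw [e1, e2, e3, e4, e5, e6]
  constructor
  · rintro ⟨h0, h | ⟨h1, h2, h3⟩ | ⟨h1, h2, h3⟩⟩
    · exact ⟨h0, Or.inl (by omega)⟩
    · exact ⟨h0, Or.inr (Or.inr ⟨by omega, h2, h3⟩)⟩
    · exact ⟨h0, Or.inr (Or.inl ⟨by omega, h2, fun x y => not_not.mp (h3 x y)⟩)⟩
  · rintro ⟨h0, h | ⟨h1, h2, h3⟩ | ⟨h1, h2, h3⟩⟩
    · exact ⟨h0, Or.inl (by omega)⟩
    · exact ⟨h0, Or.inr (Or.inr ⟨by omega, h2, fun x y => not_not.mpr (h3 x y)⟩)⟩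
    · exact ⟨h0, Or.inr (Or.inl ⟨by omega, h2, h3⟩)⟩

theorem N_refl (a b : ℤ) : S.refl.N a b = S.N (1 - b) (1 - a) := by
  unfold Sys.N
  congr 1
  refine Finset.card_nbij' (fun p => -p) (fun p => -p) ?_ ?_ ?_ ?_
  · intro p hp
    rw [Finset.mem_coe, Finset.mem_filter, mem_refl] at hp
    rw [Finset.mem_coe, Finset.mem_filter]
    obtain ⟨h1, h2, h3⟩ := hp
    change a ≤ -S.t (-p) at h2
    change -S.t (-p) < b at h3
    have h4 : 1 - b ≤ S.t (-p) := by omega
    have h5 : S.t (-p) < 1 - a := by omega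
    exact ⟨h1, h4, h5⟩
  · intro p hp
    rw [Finset.mem_coe, Finset.mem_filter] at hp
    rw [Finset.mem_coe, Finset.mem_filter, mem_refl]
    obtain ⟨h1, h2, h3⟩ := hp
    refine ⟨by rwa [neg_neg], ?_, ?_⟩
    · change a ≤ -S.t (- -p)
      rw [neg_neg]
      omega
    · change -S.t (- -p) < b
      rw [neg_neg]
      omega
  · intro p _
    exact neg_neg p
  · intro p _
    exact neg_neg p

theorem m_refl (a b : ℤ) : S.refl.m a b = S.m (1 - b) (1 - a) := by
  unfold Sys.m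
  change ∑ x ∈ Finset.Ico a b, S.z (-x) = _
  refine Finset.sum_nbij' (fun x => -x) (fun x => -x) ?_ ?_ ?_ ?_ ?_
  · intro x hx
    rw [Finset.mem_Ico] at hx ⊢
    omega
  · intro x hx
    rw [Finset.mem_Ico] at hx ⊢
    omega
  · intro x _
    exact neg_neg x
  · intro x _
    exact neg_neg x
  · intro x _
    rfl

theorem ok_refl (h : S.Ok) : S.refl.Ok where
  z0 b := h.z0 (-b)
  zex b hb := h.zex (-b) hb
  bd b hb := by
    have h1 := h.bd (-b) hb
    change -S.K ≤ b ∧ b ≤ S.K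
    omega
  hub i hi := by
    change ¬ S.ex (-(2 * i)) at hi
    change S.ex (-(2 * i - 1)) ↔ S.ex (-(2 * i + 1))
    have e1 : -(2 * i) = 2 * (-i) := by ring
    have e2 : -(2 * i - 1) = 2 * (-i) + 1 := by ring
    have e3 : -(2 * i + 1) = 2 * (-i) - 1 := by ring
    rw [e1] at hi
    rw [e2, e3]
    exact (h.hub (-i) hi).symm
  star i := by
    change S.z (-(2 * i - 1)) + S.z (-(2 * i)) + S.z (-(2 * i + 1)) ≤ 1 + S.ε
    have e1 : -(2 * i) = 2 * (-i) := by ring
    have e2 : -(2 * i - 1) = 2 * (-i) + 1 := by ring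
    have e3 : -(2 * i + 1) = 2 * (-i) - 1 := by ring
    rw [e1, e2, e3]
    have h1 := h.star (-i)
    linarith
  tst p hp := by
    have h1 := h.tst (-p) (mem_refl.1 hp)
    change -S.t (-p) = 2 * p - 1 ∨ -S.t (-p) = 2 * p ∨ -S.t (-p) = 2 * p + 1
    omega
  tO p hp := by
    rw [O_refl]
    change S.O (-p) (- -S.t (-p))
    rw [neg_neg]
    exact h.tO (-p) (mem_refl.1 hp)
  cnt1 a b hab := by
    rw [N_refl, m_refl]
    exact h.cnt1 (1 - b) (1 - a) (by omega)
  cnt2 a b hab := by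
    rw [N_refl, m_refl]
    exact h.cnt2 (1 - b) (1 - a) (by omega)
  tot := by
    change ∑ x ∈ Finset.Icc (-S.K) S.K, S.z (-x) = ((S.P.image (fun p => -p)).card : ℝ)
    rw [Finset.card_image_of_injective _ neg_injective, ← h.tot]
    refine Finset.sum_nbij' (fun x => -x) (fun x => -x) ?_ ?_ ?_ ?_ ?_
    · intro x hx
      rw [Finset.mem_Icc] at hx ⊢
      omega
    · intro x hx
      rw [Finset.mem_Icc] at hx ⊢
      omega
    · intro x _
      exact neg_neg x
    · intro x _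
      exact neg_neg x
    · intro x _
      rfl
  WL p hp ht := by
    change -S.t (-p) = 2 * p + 1 at ht
    rcases h.WR (-p) (mem_refl.1 hp) (by omega) with ⟨b, hb, hO⟩ | ⟨h1, h2⟩
    · refine Or.inl ⟨-b, by omega, ?_⟩
      rw [O_refl, neg_neg]
      exact hO
    · refine Or.inr ⟨?_, ?_⟩
      · change ¬ S.ex (-(2 * p + 2))
        have e1 : -(2 * p + 2) = 2 * (-p) - 2 := by ring
        rw [e1]
        exact h1
      · rcases h2 with h2 | ⟨h2, h3⟩
        · refine Or.inl (mem_refl.2 ?_)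
          have e1 : -(p + 2) = -p - 2 := by ring
          rw [e1]
          exact h2
        · refine Or.inr ⟨?_, mem_refl.2 ?_⟩
          · change S.ex (-(2 * p + 5))
            have e1 : -(2 * p + 5) = 2 * (-p) - 5 := by ring
            rw [e1]
            exact h2
          · have e1 : -(p + 3) = -p - 3 := by ring
            rw [e1]
            exact h3
  WR p hp ht := by
    change -S.t (-p) = 2 * p - 1 at ht
    rcases h.WL (-p) (mem_refl.1 hp) (by omega) with ⟨b, hb, hO⟩ | ⟨h1, h2⟩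
    · refine Or.inl ⟨-b, by omega, ?_⟩
      rw [O_refl, neg_neg]
      exact hO
    · refine Or.inr ⟨?_, ?_⟩
      · change ¬ S.ex (-(2 * p - 2))
        have e1 : -(2 * p - 2) = 2 * (-p) + 2 := by ring
        rw [e1]
        exact h1
      · rcases h2 with h2 | ⟨h2, h3⟩
        · refine Or.inl (mem_refl.2 ?_)
          have e1 : -(p - 2) = -p + 2 := by ring
          rw [e1]
          exact h2
        · refine Or.inr ⟨?_, mem_refl.2 ?_⟩
          · change S.ex (-(2 * p - 5))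
            have e1 : -(2 * p - 5) = 2 * (-p) + 5 := by ring
            rw [e1]
            exact h2
          · have e1 : -(p - 3) = -p + 3 := by ring
            rw [e1]
            exact h3
  ε0 := h.ε0
  δε := h.δε
  δ0 := h.δ0

end Pool.Agent.H.MP_ebc13b_lc.h61b
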