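import Pool.Agent.H.MP_ebc13b_lc.h61b.L2.Asm
import Pool.Agent.H.MP_ebc13b_lc.h61b.L2.EndU
import Pool.Agent.H.MP_ebc13b_lc.h61b.L2.Arc

/-!
# Level 2: rows of two-class sets without values `2`, at most one special end
-/

namespace Pool.Agent.H.MP_ebc13b_lc.h61b

open Finset

variable {S : Sys}

/-- No special end: `v = 0` on the existing blocks of `[b, a)`, `v = 1` elsewhere: `arc_sub` with
`c = 0` and `row_of_hits`. -/
theorem two_nn (h : S.Ok) {v : ℤ → ℕ} {r : ℤ} (hO : S.Own v r) {a b : ℤ} (hc : b ≤ a)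
    (hv : Two S v (.n a) (.n b)) : S.Row v r := by
  refine row_of_hits h (arc_sub h hO hc (c := 0) ?_)
  intro x hx
  obtain ⟨h1, h2, h3, h4⟩ := hv x hx
  simp only [lam, rho] at h1 h2 h3 h4
  by_cases hb : b ≤ x
  · by_cases ha : x < a
    · rw [if_pos ⟨hb, ha⟩]
      exact h1 ha hb
    · rw [if_neg (fun hh => ha hh.2)]
      exact h3 ha hb
  · rw [if_neg (fun hh => hb hh.1)]
    exact h2 (by omega) hb

/-- Ends `U i`, `n b` and no block with value `2` (`hn`).  By `hn`, `b ≤ 2 * i - 1` if `2 * i - 1`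
exists and `b ≤ 2 * i` if `2 * i` exists; by the axiom `hub` one of `2 * i - 1`, `2 * i` exists (as
`2 * i + 1` exists), so `b ≤ 2 * i`, and if `b = 2 * i` then `2 * i - 1` does not exist.
Values: `1` on `x < b`, `0` on `[b, 2 * i - 1)`, `1` on `{2 * i - 1, 2 * i}`, `0` on the star of
`i + 1` (as `b ≤ 2 * i + 1`), `1` on `x ≥ 2 * i + 4`.
`endU` applies (for its hypothesis `hx` use `hX`).
* First alternative: `asm2` with `A = 2 * i + 4`, `B = b`, `Q = ∅`.
* Second alternative, slot `q`: `asm2` with `A = max (2 * i - 1) b`, `B = b`, `Q = {q}`; the hit of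
  `q` exists and is `≥ 2 * i - 1`, so it is `≥ A`.  Mass: `lhs_ge` style, the only zero block outside
  `[B, A)` are those of the star of `i + 1`, of mass at most `1 + ε`. -/
theorem two_Un (h : S.Ok) {v : ℤ → ℕ} {r : ℤ} (hO : S.Own v r) {i b : ℤ}
    (hi : S.ex (2 * i + 1)) (hc : b ≤ 2 * i + 1) (hX : HX S (.n b) (.U i))
    (hv : Two S v (.U i) (.n b))
    (hn : ∀ x, S.ex x → lam (.U i) x ∨ rho (.n b) x) : S.Row v r := by
  simp only [HX, Two, lam, rho] at hX hv hn
  have hb1 : S.ex (2 * i - 1) → b ≤ 2 * i - 1 := fun hh => by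
    rcases hn _ hh with h1 | h1
    · exact absurd rfl h1.2.1
    · exact h1
  have hb2 : b ≤ 2 * i := by
    by_cases h2 : S.ex (2 * i)
    · rcases hn _ h2 with h1 | h1
      · exact absurd rfl h1.2.2
      · exact h1
    · have := hb1 ((h.hub i h2).mpr hi)
      omega
  have v1 : ∀ x, S.ex x → x < b → v x = 1 := by
    intro x hx hxb
    have hne : x ≠ 2 * i - 1 := by
      rintro rfl
      have := hb1 hx
      omega
    exact (hv x hx).2.1 ⟨by omega, hne, by omega⟩ (by omega)
  have v2 : ∀ x, S.ex x → b ≤ x → x < 2 * i - 1 → v x = 0 := by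
    intro x hx h1 h2
    exact (hv x hx).1 ⟨by omega, by omega, by omega⟩ h1
  have v3 : ∀ x, S.ex x → 2 * i - 1 ≤ x → x < 2 * i + 1 → v x = 1 := by
    intro x hx h1 h2
    have h3 : x = 2 * i - 1 ∨ x = 2 * i := by omega
    rcases h3 with rfl | rfl
    · exact (hv _ hx).2.2.1 (fun hh => hh.2.1 rfl) (hb1 hx)
    · exact (hv _ hx).2.2.1 (fun hh => hh.2.2 rfl) hb2
  have v4 : ∀ x, S.ex x → 2 * i + 1 ≤ x → x < 2 * i + 4 → v x = 0 := by
    intro x hx h1 h2
    exact (hv x hx).1 ⟨by omega, by omega, by omega⟩ (by omega)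
  have v5 : ∀ x, S.ex x → 2 * i + 4 ≤ x → v x = 1 := by
    intro x hx h1
    exact (hv x hx).2.2.1 (fun hh => by omega) (by omega)
  have vle : ∀ x, S.ex x → v x ≤ 1 := by
    intro x hx
    rcases lt_or_ge x b with h1 | h1
    · exact (v1 x hx h1).le
    rcases lt_or_ge x (2 * i - 1) with h2 | h2
    · rw [v2 x hx h1 h2]; omega
    rcases lt_or_ge x (2 * i + 1) with h3 | h3
    · exact (v3 x hx h2 h3).le
    rcases lt_or_ge x (2 * i + 4) with h4 | h4
    · rw [v4 x hx h3 h4]; omega
    · exact (v5 x hx h4).le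
  have w1 : ∀ p ∈ S.P, S.w v p ≤ 1 := fun p hp =>
    (w_le (h.tO p hp)).trans (vle _ (t_range h hp).2.2)
  have w0 : ∀ p ∈ S.P, b ≤ S.t p → S.t p < 2 * i - 1 → S.w v p = 0 := by
    intro p hp h1 h2
    have h3 := w_le (v := v) (h.tO p hp)
    rw [v2 _ (t_range h hp).2.2 h1 h2] at h3
    omega
  rcases endU h (v := v) hi
    (fun x hx hex => v4 x hex (by omega) (by omega))
    (fun hh x hx hex => v2 x hex (hX hh (hb1 hh) x hx hex) (by omega)) with hA | hA
  · refine asm2 h hO (A := 2 * i + 4) (B := b) (by omega) ?_ w1 (Q := ∅) (by simp) (by simp)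
      (by simp) ?_
    · intro p hp h1 h2
      rcases lt_or_ge (S.t p) (2 * i - 1) with h3 | h3
      · exact w0 p hp h1 h3
      · exact hA p hp h3 h2
    · have h3 := lhs_ge h (v := v) (a := b) (b := 2 * i + 4) (c := 2 * i + 4) (d := 2 * i + 4)
        (by omega) le_rfl le_rfl (by
          intro x hx h1 _
          rcases h1 with h1 | h1
          · exact (v1 x hx h1).ge
          · exact (v5 x hx h1).ge)
      have h4 : S.m (2 * i + 4) (2 * i + 4) = 0 := by simp [Sys.m]
      rw [h4] at h3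
      simpa using h3
  · obtain ⟨q, hq, hqw, hq1, hq2, -⟩ := hA
    have hqb : b ≤ S.t q := by
      rcases eq_or_ne (S.t q) (2 * i - 1) with h1 | h1
      · have h2 := (t_range h hq).2.2
        rw [h1] at h2 ⊢
        exact hb1 h2
      · omega
    refine asm2 h hO (A := max (2 * i - 1) b) (B := b) (le_max_right _ _) ?_ w1 (Q := {q})
      (by simpa using hq) (by simp) ?_ ?_
    · intro p hp h1 h2
      exact w0 p hp h1 (by omega)
    · intro q' hq'
      rw [Finset.mem_singleton] at hq'
      subst hq'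
      exact ⟨hqw, Or.inr (max_le hq1 hqb)⟩
    · have h3 := lhs_ge h (v := v) (a := b) (b := max (2 * i - 1) b) (c := 2 * i + 1)
        (d := 2 * i + 4) (le_max_right _ _) (max_le (by omega) (by omega)) (by omega) (by
          intro x hx h1 h2
          rcases h1 with h1 | h1
          · exact (v1 x hx h1).ge
          · rcases h2 with h2 | h2
            · exact (v3 x hx (by omega) h2).ge
            · exact (v5 x hx h2).ge)
      have h4 := star_le h (i + 1)
      have e1 : 2 * (i + 1) - 1 = 2 * i + 1 := by ring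
      have e2 : 2 * (i + 1) + 2 = 2 * i + 4 := by ring
      rw [e1, e2] at h4
      simp only [Finset.card_singleton, Nat.cast_one, one_mul]
      linarith

/-- Ends `E j`, `n b` and no block with value `2`: so `b ≤ 2 * j - 1` if `2 * j - 1` exists.
Values: `1` on `x < b`, `0` on `[b, 2 * j - 1)`, `1` on `2 * j - 1`, `0` on `2 * j`, `1` on
`x ≥ 2 * j + 1`.  `endE`.
* First alternative: `asm2` with `A = 2 * j + 1`, `B = b`, `Q = ∅`.
* Second alternative: `asm2` with `A = max (2 * j - 1) b`, `B = b`, `Q = {j}`. -/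
theorem two_En (h : S.Ok) {v : ℤ → ℕ} {r : ℤ} (hO : S.Own v r) {j b : ℤ}
    (hj : S.ex (2 * j)) (hc : b ≤ 2 * j) (hX : HX S (.n b) (.E j))
    (hv : Two S v (.E j) (.n b))
    (hn : ∀ x, S.ex x → lam (.E j) x ∨ rho (.n b) x) : S.Row v r := by
  simp only [HX, Two, lam, rho] at hX hv hn
  have hb1 : S.ex (2 * j - 1) → b ≤ 2 * j - 1 := fun hh => by
    rcases hn _ hh with h1 | h1
    · exact absurd rfl h1.2
    · exact h1
  have v1 : ∀ x, S.ex x → x < b → v x = 1 := by
    intro x hx hxb
    have hne : x ≠ 2 * j - 1 := by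
      rintro rfl
      have := hb1 hx
      omega
    exact (hv x hx).2.1 ⟨by omega, hne⟩ (by omega)
  have v2 : ∀ x, S.ex x → b ≤ x → x < 2 * j - 1 → v x = 0 := by
    intro x hx h1 h2
    exact (hv x hx).1 ⟨by omega, by omega⟩ h1
  have v3 : S.ex (2 * j - 1) → v (2 * j - 1) = 1 := by
    intro hx
    exact (hv _ hx).2.2.1 (fun hh => hh.2 rfl) (hb1 hx)
  have v4 : v (2 * j) = 0 := (hv _ hj).1 ⟨by omega, by omega⟩ hc
  have v5 : ∀ x, S.ex x → 2 * j + 1 ≤ x → v x = 1 := by
    intro x hx h1
    exact (hv x hx).2.2.1 (fun hh => by omega) (by omega)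
  have vle : ∀ x, S.ex x → v x ≤ 1 := by
    intro x hx
    rcases lt_or_ge x b with h1 | h1
    · exact (v1 x hx h1).le
    rcases lt_or_ge x (2 * j - 1) with h2 | h2
    · rw [v2 x hx h1 h2]; omega
    rcases lt_or_ge x (2 * j + 1) with h3 | h3
    · have h4 : x = 2 * j - 1 ∨ x = 2 * j := by omega
      rcases h4 with rfl | rfl
      · exact (v3 hx).le
      · rw [v4]; omega
    · exact (v5 x hx h3).le
  have w1 : ∀ p ∈ S.P, S.w v p ≤ 1 := fun p hp =>
    (w_le (h.tO p hp)).trans (vle _ (t_range h hp).2.2)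
  have w0 : ∀ p ∈ S.P, b ≤ S.t p → S.t p < 2 * j - 1 → S.w v p = 0 := by
    intro p hp h1 h2
    have h3 := w_le (v := v) (h.tO p hp)
    rw [v2 _ (t_range h hp).2.2 h1 h2] at h3
    omega
  rcases endE h (v := v) hj v4
    (fun hh x hx hex => v2 x hex (hX hh (hb1 hh) x hx hex) (by omega)) with hA | ⟨hq, hqw⟩
  · refine asm2 h hO (A := 2 * j + 1) (B := b) (by omega) ?_ w1 (Q := ∅) (by simp) (by simp)
      (by simp) ?_
    · intro p hp h1 h2
      rcases lt_or_ge (S.t p) (2 * j - 1) with h3 | h3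
      · exact w0 p hp h1 h3
      · exact hA p hp h3 h2
    · have h3 := lhs_ge h (v := v) (a := b) (b := 2 * j + 1) (c := 2 * j + 1) (d := 2 * j + 1)
        (by omega) le_rfl le_rfl (by
          intro x hx h1 _
          rcases h1 with h1 | h1
          · exact (v1 x hx h1).ge
          · exact (v5 x hx h1).ge)
      have h4 : S.m (2 * j + 1) (2 * j + 1) = 0 := by simp [Sys.m]
      rw [h4] at h3
      simpa using h3
  · have htr := t_range h hq
    have hqb : b ≤ S.t j := by
      rcases eq_or_ne (S.t j) (2 * j - 1) with h1 | h1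
      · have h2 := htr.2.2
        rw [h1] at h2 ⊢
        exact hb1 h2
      · omega
    refine asm2 h hO (A := max (2 * j - 1) b) (B := b) (le_max_right _ _) ?_ w1 (Q := {j})
      (by simpa using hq) (by simp) ?_ ?_
    · intro p hp h1 h2
      exact w0 p hp h1 (by omega)
    · intro q' hq'
      rw [Finset.mem_singleton] at hq'
      subst hq'
      exact ⟨hqw, Or.inr (max_le htr.1 hqb)⟩
    · have h3 := lhs_ge h (v := v) (a := b) (b := max (2 * j - 1) b) (c := 2 * j)
        (d := 2 * j + 1) (le_max_right _ _) (max_le (by omega) (by omega)) (by omega) (by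
          intro x hx h1 h2
          rcases h1 with h1 | h1
          · exact (v1 x hx h1).ge
          · rcases h2 with h2 | h2
            · have h5 : x = 2 * j - 1 := by omega
              subst h5
              exact (v3 hx).ge
            · exact (v5 x hx h2).ge)
      have h4 := h.star j
      have h5 := h.z0 (2 * j - 1)
      have h6 := h.z0 (2 * j + 1)
      have h7 := m_one (S := S) (2 * j)
      rw [h7] at h3
      simp only [Finset.card_singleton, Nat.cast_one, one_mul]
      linarith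

end Pool.Agent.H.MP_ebc13b_lc.h61b
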